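import Pool.Agent.Run7.h116.VY.Pot
import Pool.Agent.Run7.h260.VC.F4

/-!
# The quadratic part of the potential
-/

set_option autoImplicit false

namespace Run7.h116.VY

open Finset Filter Topology MeasureTheory Pool.Agent.W711.HT Pool.Agent.Y472.K
open Pool.Agent.Y180.TK (Rt Lc_exp)
open Pool.Agent.Y240.TKX (key analyticAt_cst)
open Run7.h260.VC (G0)
open GapVol (lob)
open scoped Real

section forms

variable {n : ℕ}

/-- coordinates -/
noncomputable def cf (i : Iv n) : ((Iv n → ℝ) × ℝ) →ₗ[ℝ] ℝ := (LinearMap.proj i) ∘ₗ (LinearMap.fst ℝ _ _)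
/-- the last coordinate -/
noncomputable def xf : ((Iv n → ℝ) × ℝ) →ₗ[ℝ] ℝ := LinearMap.snd ℝ _ _

lemma cf_apply (i : Iv n) (v : (Iv n → ℝ) × ℝ) : cf i v = v.1 i := rfl
lemma xf_apply (v : (Iv n → ℝ) × ℝ) : xf v = v.2 := rfl

/-- the square of a linear form -/
noncomputable def sq (l : ((Iv n → ℝ) × ℝ) →ₗ[ℝ] ℝ) : QuadraticForm ℝ ((Iv n → ℝ) × ℝ) :=
  QuadraticMap.linMulLin l l

lemma sq_apply (l : ((Iv n → ℝ) × ℝ) →ₗ[ℝ] ℝ) (v : (Iv n → ℝ) × ℝ) : sq l v = l v ^ 2 := by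
  unfold sq
  rw [QuadraticMap.linMulLin_apply]
  ring

variable [NeZero n]

/-- the real part -/
noncomputable def RX (n : ℕ) [NeZero n] (κ : ℝ) : QuadraticForm ℝ ((Iv n → ℝ) × ℝ) :=
  (∑ r : Fin n, κ • (sq (cf (va r) - cf (vb r)) + sq (cf (va (r + 1)) - cf (vb r)) +
    sq (cf (va (r + 1)) - cf vs) + sq (cf (va (r + 1)) + cf vs) +
    sq (cf (vb r) - cf vs) + sq (cf (vb r) + cf vs))) + sq xf

lemma RX_apply (κ : ℝ) (v : (Iv n → ℝ) × ℝ) : RX n κ v =
    (∑ r : Fin n, κ * ((v.1 (va r) - v.1 (vb r)) ^ 2 + (v.1 (va (r + 1)) - v.1 (vb r)) ^ 2 +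
      (v.1 (va (r + 1)) - v.1 vs) ^ 2 + (v.1 (va (r + 1)) + v.1 vs) ^ 2 +
      (v.1 (vb r) - v.1 vs) ^ 2 + (v.1 (vb r) + v.1 vs) ^ 2)) + v.2 ^ 2 := by
  unfold RX
  rw [add_apply, _root_.sum_apply, sq_apply, xf_apply]
  congr 1
  refine Finset.sum_congr rfl fun r _ => ?_
  simp only [add_apply, smul_apply, sq_apply, LinearMap.sub_apply, LinearMap.add_apply, cf_apply,
    smul_eq_mul]

/-- the imaginary part -/
noncomputable def SX (n : ℕ) [NeZero n] (m : ℤ) : QuadraticForm ℝ ((Iv n → ℝ) × ℝ) :=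
  (∑ r : Fin n, (-π) • QuadraticMap.linMulLin (cf (va r) - cf (va (r + 1))) (cf (vb r))) +
    (-(2 * π * m)) • sq (cf vs)

lemma SX_apply (m : ℤ) (v : (Iv n → ℝ) × ℝ) : SX n m v =
    (∑ r : Fin n, -π * ((v.1 (va r) - v.1 (va (r + 1))) * v.1 (vb r))) +
      (-(2 * π * m)) * v.1 vs ^ 2 := by
  unfold SX
  rw [add_apply, _root_.sum_apply, smul_apply, sq_apply, cf_apply, smul_eq_mul]
  congr 1

lemma RX_pos {κ : ℝ} (hκ : 0 < κ) : (RX n κ).PosDef := by
  intro v hv
  rw [RX_apply]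
  have h0 : ∀ r : Fin n, 2 * κ * (v.1 (va (r + 1)) ^ 2 + v.1 (vb r) ^ 2 + v.1 vs ^ 2) ≤
      κ * ((v.1 (va r) - v.1 (vb r)) ^ 2 + (v.1 (va (r + 1)) - v.1 (vb r)) ^ 2 +
      (v.1 (va (r + 1)) - v.1 vs) ^ 2 + (v.1 (va (r + 1)) + v.1 vs) ^ 2 +
      (v.1 (vb r) - v.1 vs) ^ 2 + (v.1 (vb r) + v.1 vs) ^ 2) := by
    intro r
    have e : κ * ((v.1 (va r) - v.1 (vb r)) ^ 2 + (v.1 (va (r + 1)) - v.1 (vb r)) ^ 2 +
      (v.1 (va (r + 1)) - v.1 vs) ^ 2 + (v.1 (va (r + 1)) + v.1 vs) ^ 2 +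
      (v.1 (vb r) - v.1 vs) ^ 2 + (v.1 (vb r) + v.1 vs) ^ 2) -
      2 * κ * (v.1 (va (r + 1)) ^ 2 + v.1 (vb r) ^ 2 + v.1 vs ^ 2) =
      κ * ((v.1 (va r) - v.1 (vb r)) ^ 2 + (v.1 (va (r + 1)) - v.1 (vb r)) ^ 2 +
        2 * v.1 vs ^ 2) := by ring
    have : 0 ≤ κ * ((v.1 (va r) - v.1 (vb r)) ^ 2 + (v.1 (va (r + 1)) - v.1 (vb r)) ^ 2 +
        2 * v.1 vs ^ 2) := by positivity
    linarith
  have h1 : ∑ r : Fin n, 2 * κ * (v.1 (va (r + 1)) ^ 2 + v.1 (vb r) ^ 2 + v.1 vs ^ 2) + v.2 ^ 2 ≤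
      (∑ r : Fin n, κ * ((v.1 (va r) - v.1 (vb r)) ^ 2 + (v.1 (va (r + 1)) - v.1 (vb r)) ^ 2 +
      (v.1 (va (r + 1)) - v.1 vs) ^ 2 + (v.1 (va (r + 1)) + v.1 vs) ^ 2 +
      (v.1 (vb r) - v.1 vs) ^ 2 + (v.1 (vb r) + v.1 vs) ^ 2)) + v.2 ^ 2 :=
    by linarith [Finset.sum_le_sum fun (r : Fin n) (_ : r ∈ Finset.univ) => h0 r]
  refine lt_of_lt_of_le ?_ h1
  by_contra hneg
  push Not at hneg
  have h2 : ∀ r ∈ (Finset.univ : Finset (Fin n)),
      0 ≤ 2 * κ * (v.1 (va (r + 1)) ^ 2 + v.1 (vb r) ^ 2 + v.1 vs ^ 2) := by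
    intro r _
    positivity
  have h3 := Finset.sum_nonneg h2
  have h4 := sq_nonneg v.2
  have h5 : ∑ r : Fin n, 2 * κ * (v.1 (va (r + 1)) ^ 2 + v.1 (vb r) ^ 2 + v.1 vs ^ 2) = 0 := by
    linarith
  have h6 : v.2 ^ 2 = 0 := by linarith
  have h7 := (Finset.sum_eq_zero_iff_of_nonneg h2).1 h5
  have h8 : ∀ r : Fin n, v.1 (va (r + 1)) = 0 ∧ v.1 (vb r) = 0 ∧ v.1 vs = 0 := by
    intro r
    have h9 := h7 r (Finset.mem_univ r)
    have h10 : v.1 (va (r + 1)) ^ 2 + v.1 (vb r) ^ 2 + v.1 vs ^ 2 = 0 :=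
      (mul_eq_zero.1 h9).resolve_left (by positivity)
    have a1 := sq_nonneg (v.1 (va (r + 1)))
    have a2 := sq_nonneg (v.1 (vb r))
    have a3 := sq_nonneg (v.1 (vs : Iv n))
    refine ⟨?_, ?_, ?_⟩
    · exact pow_eq_zero_iff two_ne_zero |>.1 (by linarith)
    · exact pow_eq_zero_iff two_ne_zero |>.1 (by linarith)
    · exact pow_eq_zero_iff two_ne_zero |>.1 (by linarith)
  apply hv
  apply Prod.ext
  · funext s
    rcases s with (r | r) | u
    · have h9 := (h8 (r - 1)).1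
      rw [sub_add_cancel] at h9
      exact h9
    · exact (h8 r).2.1
    · exact (h8 0).2.2
  · exact pow_eq_zero_iff two_ne_zero |>.1 h6

lemma tele (f : Fin n → ℂ) : ∑ r, (f r - f (r + 1)) = 0 := by
  rw [Finset.sum_sub_distrib, Pool.Agent.Y180.TK.shift, sub_self]

end forms

/-- the constant -/
noncomputable def kap : ℝ := π / (2 * √3)

lemma kap_pos : 0 < kap := by
  have := Real.pi_pos
  unfold kap
  positivity

/-- the logarithm -/
noncomputable def Lg : ℝ := Real.log (2 * Real.sin (π * (1 / 3)))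

lemma sin23 : Real.sin (π * (2 / 3)) = Real.sin (π * (1 / 3)) := by
  rw [← Real.sin_pi_sub]
  congr 1
  ring

lemma cos23 : Real.cos (π * (2 / 3)) = -Real.cos (π * (1 / 3)) := by
  rw [← Real.cos_pi_sub]
  congr 1
  ring

lemma cot3 : π * Real.cos (π * (1 / 3)) / Real.sin (π * (1 / 3)) = 2 * kap := by
  have e : π * (1 / 3) = π / 3 := by ring
  rw [e, Real.cos_pi_div_three, Real.sin_pi_div_three]
  unfold kap
  have h3 : √(3 : ℝ) ≠ 0 := by positivity
  field_simp

/-- the expansion at `1 / 3` -/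
lemma ex3 {h : ℕ → ℝ} {α : ℝ} (hh : Rt h α) :
    Tendsto (fun N : ℕ => (N : ℝ) * (Lc (1 / 3 + h N) - Lc (1 / 3) + Lg * h N)) atTop
      (𝓝 (-(kap * α ^ 2))) := by
  have h1 := Lc_exp (d := 1 / 3) (by norm_num) (by norm_num) hh
  rw [cot3] at h1
  have e : -(2 * kap * α ^ 2 / 2) = -(kap * α ^ 2) := by ring
  rw [e] at h1
  exact h1

/-- the expansion at `2 / 3` -/
lemma ex6 {h : ℕ → ℝ} {α : ℝ} (hh : Rt h α) :
    Tendsto (fun N : ℕ => (N : ℝ) * (Lc (2 / 3 + h N) - Lc (2 / 3) + Lg * h N)) atTop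
      (𝓝 (kap * α ^ 2)) := by
  have h1 := Lc_exp (d := 2 / 3) (by norm_num) (by norm_num) hh
  rw [sin23, cos23] at h1
  have e : -(π * -Real.cos (π * (1 / 3)) / Real.sin (π * (1 / 3)) * α ^ 2 / 2) =
      (π * Real.cos (π * (1 / 3)) / Real.sin (π * (1 / 3))) * α ^ 2 / 2 := by ring
  rw [e, cot3] at h1
  have e2 : 2 * kap * α ^ 2 / 2 = kap * α ^ 2 := by ring
  rw [e2] at h1
  exact h1

lemma rt_lin (α : ℝ) : Rt (fun N : ℕ => α / √N) α := by
  unfold Rt
  refine Tendsto.congr' ?_ tendsto_const_nhds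
  filter_upwards [eventually_gt_atTop 0] with N hN
  have : (0 : ℝ) < √N := Real.sqrt_pos.2 (by exact_mod_cast hN)
  field_simp

lemma G0_eq (n : ℕ) : G0 n = n * (4 * Lc (1 / 3) - 2 * Lc (2 / 3)) := by
  have h1 : lob (π * (2 / 3)) = -lob (π / 3) := by
    rw [← Run7.h260.VC.lob_refl]
    congr 1
    ring
  rw [Run7.h260.VC.Lc_lob, Run7.h260.VC.Lc_lob, h1]
  unfold G0
  have e : π * (1 / 3) = π / 3 := by ring
  rw [e]
  have := Real.pi_ne_zero
  field_simp
  ring

theorem ax_Ps (n : ℕ) [NeZero n] (m : ℤ) {Lx : ℂ → ℂ}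
    (hLx : ∀ δ : ℝ, 0 < δ → δ < 1 → AnalyticAt ℂ Lx δ ∧ Lx δ = (Lc δ : ℂ)) :
    AX (PsX n m Lx) (wc n) (G0 n) (RX n kap) (SX n m) := by
  have han := an_Ps n m fun δ h0 h1 => (hLx δ h0 h1).1
  refine ⟨RX_pos kap_pos, han, ?_⟩
  obtain ⟨r, C, hr, h⟩ := key
    (fun u : (Iv n → ℝ) × ℝ => PsX n m Lx (cst (fun i => wc n i + u.1 i, u.2))) (G0 n)
    (fun v => -(RX n kap v : ℂ) - Complex.I * (SX n m v : ℂ)) (analyticAt_cst han) (by
      intro v
      have hs0 : Tendsto (fun N : ℕ => √(N : ℝ)) atTop atTop :=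
        (Real.tendsto_sqrt_atTop).comp tendsto_natCast_atTop_atTop
      obtain ⟨h, hh⟩ : ∃ h : Iv n → ℕ → ℝ, ∀ i N, h i N = v.1 i / √(N : ℝ) :=
        ⟨fun i N => v.1 i / √(N : ℝ), fun _ _ => rfl⟩
      refine ⟨fun N => (fun i => h i N, v.2 / √(N : ℝ)), ?_, ?_⟩
      · refine Tendsto.congr' ?_ tendsto_const_nhds
        filter_upwards [hs0.eventually_gt_atTop 0] with N hN
        refine Prod.ext ?_ ?_
        · funext i
          show v.1 i = √(N : ℝ) * h i N
          rw [hh]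
          field_simp
        · show v.2 = √(N : ℝ) * (v.2 / √(N : ℝ))
          field_simp
      · -- the real brackets
        have hR : ∀ i, Rt (h i) (v.1 i) := fun i => by
          have := rt_lin (v.1 i)
          exact this.congr fun N => by rw [hh]
        have hsub : ∀ i j, Rt (fun N => h i N - h j N) (v.1 i - v.1 j) := fun i j => (hR i).sub (hR j)
        have hadd : ∀ i j, Rt (fun N => h i N + h j N) (v.1 i + v.1 j) := fun i j => by
          have h1 : Tendsto (fun N : ℕ => √(N : ℝ) * h i N + √(N : ℝ) * h j N) atTop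
            (𝓝 (v.1 i + v.1 j)) := (hR i).add (hR j)
          exact h1.congr fun N => by ring
        obtain ⟨F, hF⟩ : ∃ F : Fin n → ℕ → ℝ, ∀ r N, F r N =
            (N : ℝ) * (Lc (1 / 3 + (h (va r) N - h (vb r) N)) - Lc (1 / 3) +
              Lg * (h (va r) N - h (vb r) N)) +
            (N : ℝ) * (Lc (1 / 3 + (h (va (r + 1)) N - h (vb r) N)) - Lc (1 / 3) +
              Lg * (h (va (r + 1)) N - h (vb r) N)) -
            (N : ℝ) * (Lc (2 / 3 + (h (va (r + 1)) N - h vs N)) - Lc (2 / 3) +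
              Lg * (h (va (r + 1)) N - h vs N)) -
            (N : ℝ) * (Lc (2 / 3 + (h (va (r + 1)) N + h vs N)) - Lc (2 / 3) +
              Lg * (h (va (r + 1)) N + h vs N)) +
            (N : ℝ) * (Lc (1 / 3 + (h (vb r) N - h vs N)) - Lc (1 / 3) +
              Lg * (h (vb r) N - h vs N)) +
            (N : ℝ) * (Lc (1 / 3 + (h (vb r) N + h vs N)) - Lc (1 / 3) +
              Lg * (h (vb r) N + h vs N)) := ⟨_, fun _ _ => rfl⟩
        have hFl : Tendsto (fun N => ∑ r, F r N) atTop (𝓝 (-(RX n kap v - v.2 ^ 2))) := by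
          rw [RX_apply, add_sub_cancel_right, ← Finset.sum_neg_distrib]
          refine tendsto_finsetSum _ fun r _ => ?_
          have t1 := ((((ex3 (hsub (va r) (vb r))).add (ex3 (hsub (va (r + 1)) (vb r)))).sub
            (ex6 (hsub (va (r + 1)) vs))).sub (ex6 (hadd (va (r + 1)) vs))).add
            (ex3 (hsub (vb r) vs)) |>.add (ex3 (hadd (vb r) vs))
          have e : -(kap * (v.1 (va r) - v.1 (vb r)) ^ 2) +
              -(kap * (v.1 (va (r + 1)) - v.1 (vb r)) ^ 2) -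
              kap * (v.1 (va (r + 1)) - v.1 vs) ^ 2 - kap * (v.1 (va (r + 1)) + v.1 vs) ^ 2 +
              -(kap * (v.1 (vb r) - v.1 vs) ^ 2) + -(kap * (v.1 (vb r) + v.1 vs) ^ 2) =
              -(kap * ((v.1 (va r) - v.1 (vb r)) ^ 2 + (v.1 (va (r + 1)) - v.1 (vb r)) ^ 2 +
              (v.1 (va (r + 1)) - v.1 vs) ^ 2 + (v.1 (va (r + 1)) + v.1 vs) ^ 2 +
              (v.1 (vb r) - v.1 vs) ^ 2 + (v.1 (vb r) + v.1 vs) ^ 2)) := by ring
          rw [e] at t1
          exact t1.congr fun N => by rw [hF]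
        have hsmall : ∀ᶠ N : ℕ in atTop, ∀ i, |h i N| < 1 / 12 := by
          rw [eventually_all]
          intro i
          have := (hR i).zero.eventually (Metric.ball_mem_nhds (0 : ℝ) (by norm_num : (0:ℝ) < 1 / 12))
          simpa [Real.dist_eq] using this
        have hE : ∀ᶠ N : ℕ in atTop, ((∑ r, F r N : ℝ) : ℂ) - Complex.I * (SX n m v : ℝ) -
            (v.2 : ℂ) ^ 2 = (N : ℂ) * (PsX n m Lx (cst (fun i => wc n i + h i N, v.2 / √(N : ℝ))) -
              G0 n) := by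
          filter_upwards [hsmall, eventually_ge_atTop 1] with N hN hN1
          have hNr : (0 : ℝ) < N := by exact_mod_cast hN1
          have hs : (0 : ℝ) < √(N : ℝ) := Real.sqrt_pos.2 hNr
          have hss : √(N : ℝ) * √(N : ℝ) = N := Real.mul_self_sqrt hNr.le
          have hmul : ∀ i j, (N : ℂ) * ((h i N : ℂ) * (h j N : ℂ)) = (v.1 i : ℂ) * v.1 j := by
            intro i j
            have : (N : ℝ) * (h i N * h j N) = v.1 i * v.1 j := by
              rw [hh, hh]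
              nth_rewrite 1 [← hss]
              field_simp
            exact_mod_cast this
          have hx : (N : ℂ) * (((v.2 / √(N : ℝ) : ℝ)) : ℂ) ^ 2 = (v.2 : ℂ) ^ 2 := by
            have : (N : ℝ) * (v.2 / √(N : ℝ)) ^ 2 = v.2 ^ 2 := by
              nth_rewrite 1 [← hss]
              field_simp
            exact_mod_cast this
          have hb : ∀ i, -(1 / 12) < h i N ∧ h i N < 1 / 12 := fun i => abs_lt.1 (hN i)
          have hterm : ∀ r : Fin n, (N : ℂ) * ((Complex.I * π * (((wc n (va r) + h (va r) N : ℝ) -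
              (wc n (va (r + 1)) + h (va (r + 1)) N : ℝ)) * (wc n (vb r) + h (vb r) N : ℝ)) +
              (Lx ((wc n (va r) + h (va r) N : ℝ) - (wc n (vb r) + h (vb r) N : ℝ)) +
                Lx ((wc n (va (r + 1)) + h (va (r + 1)) N : ℝ) - (wc n (vb r) + h (vb r) N : ℝ)))) +
              ((-Lx ((wc n (va (r + 1)) + h (va (r + 1)) N : ℝ) + 1 - (wc n vs + h vs N : ℝ)) +
                -Lx ((wc n (va (r + 1)) + h (va (r + 1)) N : ℝ) + (wc n vs + h vs N : ℝ) - 1)) +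
              (Lx ((wc n (vb r) + h (vb r) N : ℝ) + 1 - (wc n vs + h vs N : ℝ)) +
                Lx ((wc n (vb r) + h (vb r) N : ℝ) + (wc n vs + h vs N : ℝ) - 1)))) =
              (N : ℂ) * (4 * Lc (1 / 3) - 2 * Lc (2 / 3)) + (F r N : ℂ) +
              Complex.I * (π * ((v.1 (va r) - v.1 (va (r + 1))) * v.1 (vb r))) +
              ((Complex.I * π * N / 3 - N * Lg) * h (va r) N -
                (Complex.I * π * N / 3 - N * Lg) * h (va (r + 1)) N) := by
            intro r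
            have e1 : ((wc n (va r) + h (va r) N : ℝ) : ℂ) - (wc n (vb r) + h (vb r) N : ℝ) =
                ((1 / 3 + (h (va r) N - h (vb r) N) : ℝ) : ℂ) := by
              rw [wc_a, wc_b]; push_cast; ring
            have e2 : ((wc n (va (r + 1)) + h (va (r + 1)) N : ℝ) : ℂ) -
                (wc n (vb r) + h (vb r) N : ℝ) =
                ((1 / 3 + (h (va (r + 1)) N - h (vb r) N) : ℝ) : ℂ) := by
              rw [wc_a, wc_b]; push_cast; ring
            have e3 : ((wc n (va (r + 1)) + h (va (r + 1)) N : ℝ) : ℂ) + 1 -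
                (wc n vs + h vs N : ℝ) = ((2 / 3 + (h (va (r + 1)) N - h vs N) : ℝ) : ℂ) := by
              rw [wc_a, wc_s]; push_cast; ring
            have e4 : ((wc n (va (r + 1)) + h (va (r + 1)) N : ℝ) : ℂ) +
                (wc n vs + h vs N : ℝ) - 1 = ((2 / 3 + (h (va (r + 1)) N + h vs N) : ℝ) : ℂ) := by
              rw [wc_a, wc_s]; push_cast; ring
            have e5 : ((wc n (vb r) + h (vb r) N : ℝ) : ℂ) + 1 -
                (wc n vs + h vs N : ℝ) = ((1 / 3 + (h (vb r) N - h vs N) : ℝ) : ℂ) := by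
              rw [wc_b, wc_s]; push_cast; ring
            have e6 : ((wc n (vb r) + h (vb r) N : ℝ) : ℂ) +
                (wc n vs + h vs N : ℝ) - 1 = ((1 / 3 + (h (vb r) N + h vs N) : ℝ) : ℂ) := by
              rw [wc_b, wc_s]; push_cast; ring
            have b1 := hb (va r)
            have b2 := hb (va (r + 1))
            have b3 := hb (vb r)
            have b4 := hb vs
            rw [e1, e2, e3, e4, e5, e6,
              (hLx _ (by linarith [b1.1, b3.2]) (by linarith [b1.2, b3.1])).2,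
              (hLx _ (by linarith [b2.1, b3.2]) (by linarith [b2.2, b3.1])).2,
              (hLx _ (by linarith [b2.1, b4.2]) (by linarith [b2.2, b4.1])).2,
              (hLx _ (by linarith [b2.1, b4.1]) (by linarith [b2.2, b4.2])).2,
              (hLx _ (by linarith [b3.1, b4.2]) (by linarith [b3.2, b4.1])).2,
              (hLx _ (by linarith [b3.1, b4.1]) (by linarith [b3.2, b4.2])).2, hF, wc_a, wc_a, wc_b]
            have m1 := hmul (va r) (vb r)
            have m2 := hmul (va (r + 1)) (vb r)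
            push_cast
            linear_combination Complex.I * π * m1 - Complex.I * π * m2
          have hsum : (N : ℂ) * (∑ r : Fin n, ((Complex.I * π * (((wc n (va r) + h (va r) N : ℝ) -
              (wc n (va (r + 1)) + h (va (r + 1)) N : ℝ)) * (wc n (vb r) + h (vb r) N : ℝ)) +
              (Lx ((wc n (va r) + h (va r) N : ℝ) - (wc n (vb r) + h (vb r) N : ℝ)) +
                Lx ((wc n (va (r + 1)) + h (va (r + 1)) N : ℝ) - (wc n (vb r) + h (vb r) N : ℝ)))) +
              ((-Lx ((wc n (va (r + 1)) + h (va (r + 1)) N : ℝ) + 1 - (wc n vs + h vs N : ℝ)) +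
                -Lx ((wc n (va (r + 1)) + h (va (r + 1)) N : ℝ) + (wc n vs + h vs N : ℝ) - 1)) +
              (Lx ((wc n (vb r) + h (vb r) N : ℝ) + 1 - (wc n vs + h vs N : ℝ)) +
                Lx ((wc n (vb r) + h (vb r) N : ℝ) + (wc n vs + h vs N : ℝ) - 1))))) =
              n * ((N : ℂ) * (4 * Lc (1 / 3) - 2 * Lc (2 / 3))) + (∑ r, (F r N : ℂ)) +
              ∑ r, Complex.I * (π * (((v.1 (va r) : ℂ) - v.1 (va (r + 1))) * v.1 (vb r))) := by
            rw [Finset.mul_sum, Finset.sum_congr rfl fun r _ => hterm r, Finset.sum_add_distrib,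
              Finset.sum_add_distrib, Finset.sum_add_distrib, Finset.sum_const, Finset.card_univ,
              Fintype.card_fin, nsmul_eq_mul,
              tele (fun r => (Complex.I * π * N / 3 - N * Lg) * h (va r) N), add_zero]
          have hS : ((SX n m v : ℝ) : ℂ) = -(∑ r, (π * (((v.1 (va r) : ℂ) - v.1 (va (r + 1))) *
              v.1 (vb r)))) - 2 * π * m * (v.1 vs : ℂ) ^ 2 := by
            rw [SX_apply, ← Finset.sum_neg_distrib]
            push_cast
            rw [sub_eq_add_neg]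
            congr 1
            · refine Finset.sum_congr rfl fun r _ => ?_
              ring
            · ring
          rw [hS, G0_eq]
          unfold PsX
          simp only [cst]
          have hs2 := hmul vs vs
          rw [← Finset.mul_sum] at hsum
          rw [wc_s] at hsum ⊢
          push_cast at hsum hx ⊢
          linear_combination (-1) * hsum + (-2 * π * Complex.I * m) * hs2 + hx
        refine Tendsto.congr' hE ?_
        have h1 := ((Complex.continuous_ofReal.tendsto _).comp hFl).sub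
          (tendsto_const_nhds (x := Complex.I * ((SX n m v : ℝ) : ℂ)))
        have h2 := h1.sub (tendsto_const_nhds (x := (v.2 : ℂ) ^ 2))
        have e : -((RX n kap v : ℝ) : ℂ) - Complex.I * ((SX n m v : ℝ) : ℂ) =
            ((-(RX n kap v - v.2 ^ 2) : ℝ) : ℂ) - Complex.I * ((SX n m v : ℝ) : ℂ) - (v.2 : ℂ) ^ 2 := by
          push_cast
          ring
        rw [e]
        exact h2)
  refine ⟨r, C, hr, fun u hu => ?_⟩
  have h1 := h u hu
  have h2 : PsX n m Lx (cst (fun i => wc n i + u.1 i, u.2)) - (G0 n : ℂ) + RX n kap u +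
      Complex.I * SX n m u = PsX n m Lx (cst (fun i => wc n i + u.1 i, u.2)) - (G0 n : ℂ) -
        (-(RX n kap u : ℂ) - Complex.I * (SX n m u : ℂ)) := by ring
  rw [h2]
  exact h1

end Run7.h116.VY
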