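import Pool.Agent.Run7.h116.VY.Main

/-!
# Consequences of the expansion: growth, ratios, logarithms
-/

set_option autoImplicit false

namespace Run7.h116.VY

open Finset Filter Topology
open Run7.h260.VC (G0)
open Run7.h116.VX (Jx Lm Lm_ne Vn facts oddTop odd_le)
open scoped Real

variable {n : ℕ}

lemma wlog {N : ℕ} (hN : 0 < N) : Real.log ‖wN n N‖ = 3 / 2 * Real.log N + N * G0 n := by
  have hN0 : (0 : ℝ) < N := by exact_mod_cast hN
  have h1 : (0 : ℝ) < (N : ℝ) ^ (3 / 2 : ℝ) := Real.rpow_pos_of_pos hN0 _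
  unfold wN
  rw [Complex.norm_real, Real.norm_eq_abs, abs_of_pos (mul_pos h1 (Real.exp_pos _)),
    Real.log_mul h1.ne' (Real.exp_pos _).ne', Real.log_exp, Real.log_rpow hN0]

lemma log_div_nat : Tendsto (fun N : ℕ => Real.log N / N) atTop (𝓝 0) := by
  have h := (Real.isLittleO_log_id_atTop.tendsto_div_nhds_zero).comp tendsto_natCast_atTop_atTop
  exact h

/-- growth of a sequence with a leading term -/
lemma growth_of {f : ℕ → ℂ} {L : ℂ} (hL : L ≠ 0)
    (h : Tendsto (fun N => f N / wN n N) atTop (𝓝 L)) :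
    Tendsto (fun N : ℕ => 2 * π * (Real.log ‖f N‖ / N)) atTop (𝓝 (2 * π * G0 n)) := by
  have h1 : Tendsto (fun N => Real.log ‖f N / wN n N‖) atTop (𝓝 (Real.log ‖L‖)) :=
    ((continuous_norm.tendsto _).comp h).log (norm_ne_zero_iff.2 hL)
  have h2 : Tendsto (fun N : ℕ => Real.log ‖f N / wN n N‖ / N) atTop (𝓝 0) :=
    h1.div_atTop tendsto_natCast_atTop_atTop
  have h3 : Tendsto (fun N : ℕ => 2 * π * (Real.log ‖f N / wN n N‖ / N +
      (3 / 2 * (Real.log N / N) + G0 n))) atTop (𝓝 (2 * π * (0 + (3 / 2 * 0 + G0 n)))) :=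
    (h2.add ((log_div_nat.const_mul _).add_const _)).const_mul _
  rw [mul_zero, zero_add, zero_add] at h3
  refine h3.congr' ?_
  filter_upwards [eventually_gt_atTop 0, h.eventually_ne hL] with N hN h4
  have hN0 : (N : ℝ) ≠ 0 := by exact_mod_cast hN.ne'
  have h5 : f N ≠ 0 := by
    intro h6
    rw [h6, zero_div] at h4
    exact h4 rfl
  rw [norm_div, Real.log_div (norm_ne_zero_iff.2 h5) (norm_ne_zero_iff.2 (wN_ne hN)), wlog hN]
  congr 1
  field_simp
  ring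

/-- the constants -/
noncomputable def L0 (n : ℕ) (m : ℤ) : ℂ := -(Kn n : ℝ) * Lm n m

lemma L0_ne (n : ℕ) [NeZero n] (m : ℤ) : L0 n m ≠ 0 := by
  have h1 := Kn_pos n
  have h2 : ((Kn n : ℝ) : ℂ) ≠ 0 := by exact_mod_cast h1.ne'
  exact mul_ne_zero (neg_ne_zero.2 h2) (Lm_ne n m)

/-- **the expansion** -/
theorem main1 (n : ℕ) [NeZero n] (m : ℤ) : ∃ φ : ℕ → ℂ, φ 0 = L0 n m ∧
    Xp (fun N => Jx n m N / wN n N) φ := by
  obtain ⟨K, hK, h⟩ := main0 n
  obtain ⟨φ, h1, h2⟩ := h m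
  exact ⟨φ, by rw [h1, hK]; rfl, h2⟩

lemma lead_lim (n : ℕ) [NeZero n] (m : ℤ) :
    Tendsto (fun N => Jx n m N / wN n N) atTop (𝓝 (L0 n m)) := by
  obtain ⟨φ, h1, h2⟩ := main1 n m
  rw [← h1]
  exact h2.lim

theorem Vn_G0 (n : ℕ) [NeZero n] : Vn n = 2 * π * G0 n := by
  have hn : 1 ≤ n := Nat.one_le_iff_ne_zero.2 (NeZero.ne n)
  obtain ⟨-, -, -, -, -, h, -⟩ := facts hn 0
  exact tendsto_nhds_unique h (growth_of (L0_ne n 0) (lead_lim n 0))

lemma G0_Vn (n : ℕ) [NeZero n] : G0 n = Vn n / (2 * π) := by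
  rw [Vn_G0]
  have := Real.pi_ne_zero
  field_simp

lemma wN_Vn (n : ℕ) [NeZero n] (N : ℕ) :
    wN n N = (((N : ℝ) ^ (3 / 2 : ℝ) * Real.exp (N * (Vn n / (2 * π))) : ℝ) : ℂ) := by
  rw [← G0_Vn]
  rfl

lemma w_ratio (n j : ℕ) : Tendsto (fun N => wN n (N + j) / wN n N) atTop
    (𝓝 ((Real.exp (j * G0 n) : ℝ) : ℂ)) := by
  have h1 : Tendsto (fun N : ℕ => 1 + (j : ℝ) / N) atTop (𝓝 (1 + 0)) :=
    (tendsto_const_div_atTop_nhds_zero_nat _).const_add _
  rw [add_zero] at h1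
  have h2 : Tendsto (fun N : ℕ => (1 + (j : ℝ) / N) ^ (3 / 2 : ℝ)) atTop (𝓝 ((1 : ℝ) ^ (3 / 2 : ℝ))) :=
    h1.rpow_const (Or.inl one_ne_zero)
  rw [Real.one_rpow] at h2
  have h3 := h2.mul_const (Real.exp (j * G0 n))
  rw [one_mul] at h3
  have h4 := (Complex.continuous_ofReal.tendsto _).comp h3
  refine h4.congr' ?_
  filter_upwards [eventually_gt_atTop 0] with N hN
  have hN0 : (0 : ℝ) < N := by exact_mod_cast hN
  have hj : (0 : ℝ) ≤ j := Nat.cast_nonneg j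
  show (((1 + (j : ℝ) / N) ^ (3 / 2 : ℝ) * Real.exp (j * G0 n) : ℝ) : ℂ) = _
  unfold wN
  rw [← Complex.ofReal_div]
  congr 1
  have e1 : 1 + (j : ℝ) / N = ((N + j : ℕ) : ℝ) / N := by
    push_cast
    field_simp
  rw [e1, Real.div_rpow (Nat.cast_nonneg _) hN0.le]
  have e2 : Real.exp (((N + j : ℕ) : ℝ) * G0 n) = Real.exp (N * G0 n) * Real.exp (j * G0 n) := by
    rw [← Real.exp_add]
    congr 1
    push_cast
    ring
  have h5 : (N : ℝ) ^ (3 / 2 : ℝ) ≠ 0 := (Real.rpow_pos_of_pos hN0 _).ne'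
  have h6 := (Real.exp_pos (N * G0 n)).ne'
  rw [e2]
  field_simp

/-- **the ratios** -/
theorem ratios (n : ℕ) [NeZero n] (m : ℤ) (j : ℕ) :
    Tendsto (fun N => Jx n m (N + j) / Jx n m N) atTop
      (𝓝 (Complex.exp (j * (Vn n / (2 * π))))) := by
  have h1 := lead_lim n m
  have h2 := h1.comp (tendsto_add_atTop_nat j)
  have h3 := (h2.div h1 (L0_ne n m)).mul (w_ratio n j)
  rw [div_self (L0_ne n m), one_mul, Complex.ofReal_exp] at h3
  have e : ((j * G0 n : ℝ) : ℂ) = j * (Vn n / (2 * π)) := by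
    rw [G0_Vn]
    push_cast
    ring
  rw [e] at h3
  refine h3.congr' ?_
  filter_upwards [eventually_gt_atTop 0] with N hN
  have h5 := wN_ne (n := n) hN
  have h6 := wN_ne (n := n) (N := N + j) (by omega)
  show Jx n m (N + j) / wN n (N + j) / (Jx n m N / wN n N) * (wN n (N + j) / wN n N) = _
  rw [div_div_eq_mul_div, div_mul_eq_mul_div]
  congr 1
  field_simp

/-- the logarithms of the ratios -/
theorem log_ratios (n : ℕ) [NeZero n] (m : ℤ) (j : ℕ) :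
    Tendsto (fun N => Complex.log (Jx n m (N + j) / Jx n m N)) atTop
      (𝓝 (j * (Vn n / (2 * π)))) := by
  have h1 := ratios n m j
  have e : Complex.exp (j * (Vn n / (2 * π))) = ((Real.exp (j * (Vn n / (2 * π))) : ℝ) : ℂ) := by
    push_cast
    rfl
  have h2 : Complex.exp (j * (Vn n / (2 * π))) ∈ Complex.slitPlane := by
    rw [e]
    exact Complex.ofReal_mem_slitPlane.2 (Real.exp_pos _)
  have h3 := h1.clog h2
  have h4 : Complex.log (Complex.exp (j * (Vn n / (2 * π)))) = j * (Vn n / (2 * π)) := by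
    rw [e, ← Complex.ofReal_log (Real.exp_pos _).le, Real.log_exp]
    push_cast
    rfl
  rwa [h4] at h3

/-- Cesàro -/
theorem cesaro_log (n : ℕ) [NeZero n] (m : ℤ) {l : ℕ → ℂ}
    (hl : ∀ᶠ N in atTop, l (N + 1) = l N + Complex.log (Jx n m (N + 1) / Jx n m N)) :
    Tendsto (fun N : ℕ => 2 * (π : ℂ) / N * l N) atTop (𝓝 (Vn n : ℂ)) := by
  set d : ℕ → ℂ := fun N => Complex.log (Jx n m (N + 1) / Jx n m N) with hd
  have h1 : Tendsto d atTop (𝓝 (Vn n / (2 * π))) := by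
    have := log_ratios n m 1
    simpa using this
  have h2 : Tendsto (fun N : ℕ => ((N : ℝ)⁻¹ : ℝ) • ∑ i ∈ range N, d i) atTop
      (𝓝 (Vn n / (2 * π))) := h1.cesaro_smul
  obtain ⟨N0, hN0⟩ := eventually_atTop.1 hl
  set c : ℂ := l N0 - ∑ i ∈ range N0, d i with hc
  have h3 : ∀ N ≥ N0, l N = c + ∑ i ∈ range N, d i := by
    intro N hN
    induction N, hN using Nat.le_induction with
    | base => rw [hc]; ring
    | succ k hk ih =>
      rw [hN0 k hk, ih, sum_range_succ]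
      show c + _ + d k = _
      ring
  have h4 : Tendsto (fun N : ℕ => c / N) atTop (𝓝 0) := tendsto_const_div_atTop_nhds_zero_nat _
  have h5 := ((h4.add h2).const_mul (2 * (π : ℂ)))
  have hp : (π : ℂ) ≠ 0 := by exact_mod_cast Real.pi_ne_zero
  have e : 2 * (π : ℂ) * (0 + (Vn n : ℂ) / (2 * π)) = Vn n := by
    field_simp
    ring
  rw [e] at h5
  refine h5.congr' ?_
  filter_upwards [eventually_ge_atTop N0] with N hN
  rw [h3 N hN, Complex.real_smul]
  push_cast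
  ring

/-- a sequence of logarithms -/
theorem log_seq {f : ℕ → ℂ} (hf : ∀ᶠ N in atTop, f N ≠ 0) : ∃ l : ℕ → ℂ, ∀ᶠ N in atTop,
    Complex.exp (l N) = f N ∧ l (N + 1) = l N + Complex.log (f (N + 1) / f N) := by
  obtain ⟨N0, hN0⟩ := eventually_atTop.1 hf
  set l : ℕ → ℂ := fun N => Complex.log (f N0) +
    ∑ k ∈ Finset.Ico N0 N, Complex.log (f (k + 1) / f k) with hl
  have h1 : ∀ N ≥ N0, l (N + 1) = l N + Complex.log (f (N + 1) / f N) := by
    intro N hN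
    show _ + _ = _ + _ + _
    rw [Finset.sum_Ico_succ_top hN, add_assoc]
  have h2 : ∀ N ≥ N0, Complex.exp (l N) = f N := by
    intro N hN
    induction N, hN using Nat.le_induction with
    | base =>
      rw [hl]
      simp only [Finset.Ico_self, Finset.sum_empty, add_zero]
      exact Complex.exp_log (hN0 N0 le_rfl)
    | succ k hk ih =>
      rw [h1 k hk, Complex.exp_add, ih, Complex.exp_log (div_ne_zero (hN0 _ (by omega)) (hN0 k hk)),
        mul_div_cancel₀ _ (hN0 k hk)]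
  refine ⟨l, ?_⟩
  filter_upwards [eventually_ge_atTop N0] with N hN
  exact ⟨h2 N hN, h1 N hN⟩

/-- the phase of the values -/
theorem sizes (n : ℕ) [NeZero n] (m : ℤ) :
    Tendsto (fun N : ℕ => ‖Jx n m N‖ / ((N : ℝ) ^ (3 / 2 : ℝ) * Real.exp (N * (Vn n / (2 * π))))) atTop
      (𝓝 (Kn n * ‖Lm n m‖)) := by
  have h1 := (continuous_norm.tendsto _).comp (lead_lim n m)
  have h2 : ‖L0 n m‖ = Kn n * ‖Lm n m‖ := by
    unfold L0
    rw [norm_mul, norm_neg, Complex.norm_real, Real.norm_eq_abs, abs_of_pos (Kn_pos n)]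
  rw [h2] at h1
  refine h1.congr' ?_
  filter_upwards [eventually_gt_atTop 0] with N hN
  have hN0 : (0 : ℝ) < N := by exact_mod_cast hN
  show ‖Jx n m N / wN n N‖ = _
  rw [norm_div, wN_Vn, Complex.norm_real, Real.norm_eq_abs, abs_of_pos
    (mul_pos (Real.rpow_pos_of_pos hN0 _) (Real.exp_pos _))]

open Run7.h116.VX in
/-- the expansion, in final form -/
theorem final (n : ℕ) [NeZero n] (m : ℤ) : ∃ φ : ℕ → ℂ,
    φ 0 = -((Kn n * (1 + 3 * (m : ℝ) ^ 2 / n ^ 2) ^ (-(1 / 4) : ℝ) : ℝ) : ℂ) *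
      Complex.exp (Complex.I * (th n m : ℝ)) ∧
    ∀ M : ℕ, ∃ C : ℝ, ∀ᶠ N : ℕ in atTop,
      ‖Jx n m N / (((N : ℝ) ^ (3 / 2 : ℝ) * Real.exp (N * (Vn n / (2 * π))) : ℝ) : ℂ) -
        ∑ j ∈ range M, φ j / (N : ℂ) ^ j‖ ≤ C / (N : ℝ) ^ M := by
  obtain ⟨φ, h1, h2⟩ := main1 n m
  refine ⟨φ, ?_, fun M => ?_⟩
  · rw [h1, L0, Lm_eq]
    push_cast
    ring
  · obtain ⟨C, hC⟩ := h2 M
    refine ⟨C, ?_⟩
    filter_upwards [hC] with N hN
    rw [wN_Vn] at hN
    simpa only [div_eq_mul_inv, inv_pow] using hN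

end Run7.h116.VY
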