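import Mathlib

/-!
# A circulant determinant and a Gaussian integral
-/

set_option autoImplicit false

namespace Run7.h116.VY

open Finset Filter Topology MeasureTheory Matrix
open scoped Real

/-- `p - q P`, `P` the cyclic shift -/
def cyM (n : ℕ) [NeZero n] (p q : ℝ) : Matrix (Fin n) (Fin n) ℝ :=
  fun r s => (if s = r then p else 0) - (if s = r + 1 then q else 0)

lemma cyM_apply (n : ℕ) [NeZero n] (p q : ℝ) (a : Fin n → ℝ) (r : Fin n) :
    (cyM n p q).mulVec a r = p * a r - q * a (r + 1) := by
  unfold cyM Matrix.mulVec dotProduct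
  simp only [sub_mul, ite_mul, zero_mul, Finset.sum_sub_distrib]
  rw [Finset.sum_ite_eq' Finset.univ r, Finset.sum_ite_eq' Finset.univ (r + 1)]
  simp

theorem cyM_det (n : ℕ) [NeZero n] (p q : ℝ) : (cyM n p q).det = p ^ n - q ^ n := by
  obtain ⟨k, rfl⟩ : ∃ k, n = k + 1 := ⟨n - 1, by have := NeZero.ne n; omega⟩
  rw [Matrix.det_succ_column_zero]
  have h0 : ∀ i : Fin (k + 1), cyM (k + 1) p q i 0 =
      (if i = 0 then p else 0) - (if i = Fin.last k then q else 0) := by
    intro i
    unfold cyM
    have e1 : ((0 : Fin (k + 1)) = i) ↔ (i = 0) := eq_comm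
    have e2 : ((0 : Fin (k + 1)) = i + 1) ↔ (i = Fin.last k) := by
      rw [eq_comm]
      constructor
      · intro h
        have h1 : i + 1 = Fin.last k + 1 := by rw [h, Fin.last_add_one]
        exact add_right_cancel h1
      · intro h
        rw [h]
        exact Fin.last_add_one k
    simp only [e1, e2]
  simp only [h0]
  have h1 : ∑ i : Fin (k + 1), (-1) ^ (i : ℕ) * ((if i = 0 then p else 0) -
      (if i = Fin.last k then q else 0)) * ((cyM (k + 1) p q).submatrix i.succAbove Fin.succ).det =
      p * ((cyM (k + 1) p q).submatrix (Fin.succAbove 0) Fin.succ).det -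
      (-1) ^ k * q * ((cyM (k + 1) p q).submatrix (Fin.last k).succAbove Fin.succ).det := by
    simp only [mul_sub, sub_mul, Finset.sum_sub_distrib, mul_ite, ite_mul, mul_zero, zero_mul]
    rw [Finset.sum_ite_eq' Finset.univ (0 : Fin (k + 1)),
      Finset.sum_ite_eq' Finset.univ (Fin.last k)]
    simp
  have hA : ((cyM (k + 1) p q).submatrix (Fin.succAbove 0) Fin.succ).det = p ^ k := by
    have hd : ∀ r : Fin k, ((cyM (k + 1) p q).submatrix (Fin.succAbove 0) Fin.succ) r r = p := by
      intro r
      have hne : ¬ (r.succ = r.succ + 1) := by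
        intro h
        have h3 := congrArg Fin.val h
        rw [Fin.val_add_one, Fin.val_succ] at h3
        split_ifs at h3 <;> omega
      show (if r.succ = Fin.succAbove 0 r then p else 0) - (if r.succ = Fin.succAbove 0 r + 1 then q else 0) = p
      rw [Fin.succAbove_zero, if_pos rfl, if_neg hne, sub_zero]
    rw [Matrix.det_of_isUpperTriangular, Finset.prod_congr rfl fun r _ => hd r, Finset.prod_const,
      Finset.card_univ, Fintype.card_fin]
    intro r s hsr
    have hsr' : s < r := hsr
    show (if s.succ = Fin.succAbove 0 r then p else 0) - (if s.succ = Fin.succAbove 0 r + 1 then q else 0) = 0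
    rw [Fin.succAbove_zero]
    have hne1 : ¬ (s.succ = r.succ) := by
      intro h
      exact hsr'.ne (Fin.succ_injective _ h)
    have hne2 : ¬ (s.succ = r.succ + 1) := by
      intro h
      have h3 := congrArg Fin.val h
      rw [Fin.val_add_one, Fin.val_succ, Fin.val_succ] at h3
      have h5 : (s : ℕ) < r := hsr'
      split_ifs at h3 <;> omega
    rw [if_neg hne1, if_neg hne2, sub_zero]
  have hB : ((cyM (k + 1) p q).submatrix (Fin.last k).succAbove Fin.succ).det = (-q) ^ k := by
    have hd : ∀ r : Fin k, ((cyM (k + 1) p q).submatrix (Fin.last k).succAbove Fin.succ) r r = -q := by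
      intro r
      show (if r.succ = (Fin.last k).succAbove r then p else 0) -
        (if r.succ = (Fin.last k).succAbove r + 1 then q else 0) = -q
      rw [Fin.succAbove_last, Fin.coeSucc_eq_succ, if_pos rfl, if_neg (by
        intro h
        have := congrArg Fin.val h
        rw [Fin.val_succ, Fin.val_castSucc] at this
        omega), zero_sub]
    rw [Matrix.det_of_isLowerTriangular, Finset.prod_congr rfl fun r _ => hd r, Finset.prod_const,
      Finset.card_univ, Fintype.card_fin]
    intro r s hrs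
    have hrs' : r < s := hrs
    show (if s.succ = (Fin.last k).succAbove r then p else 0) -
        (if s.succ = (Fin.last k).succAbove r + 1 then q else 0) = 0
    rw [Fin.succAbove_last, Fin.coeSucc_eq_succ, if_neg (by
        intro h
        have := congrArg Fin.val h
        rw [Fin.val_succ, Fin.val_castSucc] at this
        have : (r : ℕ) < s := hrs'
        omega), if_neg (by
        intro h
        exact hrs'.ne (Fin.succ_injective _ h).symm), sub_zero]
  rw [h1, hA, hB]
  have e : (-1 : ℝ) ^ k * q * (-q) ^ k = q ^ (k + 1) := by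
    have : (-q) ^ k = (-1 : ℝ) ^ k * q ^ k := by rw [← mul_pow]; ring
    rw [this]
    have h2 : (-1 : ℝ) ^ k * (-1 : ℝ) ^ k = 1 := by rw [← mul_pow]; norm_num
    linear_combination (q * q ^ k) * h2
  rw [e]
  ring

lemma shiftR {n : ℕ} [NeZero n] (f : Fin n → ℝ) : ∑ r, f (r + 1) = ∑ r, f r :=
  Equiv.sum_comp (Equiv.addRight (1 : Fin n)) f

/-- the Gaussian integral -/
theorem int_circ (n : ℕ) [NeZero n] {p q β : ℝ} (hβ : 0 < β) (hd : 0 < p ^ n - q ^ n) (hpq : p * q = 1)
    (h5 : p ^ 2 + q ^ 2 = 5) :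
    ∫ a : Fin n → ℝ, Real.exp (-(β * ∑ r, (5 * a r ^ 2 - 2 * a r * a (r + 1)))) =
      (√(π / β)) ^ n / (p ^ n - q ^ n) := by
  have hdet : (cyM n p q).det ≠ 0 := by
    rw [cyM_det]
    exact hd.ne'
  have hq : ∀ a : Fin n → ℝ, ∑ r, (5 * a r ^ 2 - 2 * a r * a (r + 1)) =
      ∑ r, (Matrix.toLin' (cyM n p q) a r) ^ 2 := by
    intro a
    have e : ∀ r, (Matrix.toLin' (cyM n p q) a r) ^ 2 =
        (5 * a r ^ 2 - 2 * a r * a (r + 1)) + q ^ 2 * ((fun s => a s ^ 2) (r + 1) - a r ^ 2) := by
      intro r
      rw [Matrix.toLin'_apply, cyM_apply]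
      have h1 : p ^ 2 = 5 - q ^ 2 := by linarith
      show (p * a r - q * a (r + 1)) ^ 2 = _ + q ^ 2 * (a (r + 1) ^ 2 - a r ^ 2)
      linear_combination (a r ^ 2) * h1 - 2 * a r * a (r + 1) * hpq
    have e2 : ∑ r, ((fun s => a s ^ 2) (r + 1) - a r ^ 2) = 0 := by
      rw [Finset.sum_sub_distrib, shiftR (fun s => a s ^ 2), sub_self]
    rw [Finset.sum_congr rfl fun r _ => e r, Finset.sum_add_distrib, ← Finset.mul_sum, e2, mul_zero,
      add_zero]
  set g : (Fin n → ℝ) → ℝ := fun c => Real.exp (-(β * ∑ r, c r ^ 2)) with hg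
  have h1 : ∫ a : Fin n → ℝ, Real.exp (-(β * ∑ r, (5 * a r ^ 2 - 2 * a r * a (r + 1)))) =
      ∫ a : Fin n → ℝ, g (Matrix.toLin' (cyM n p q) a) := by
    refine integral_congr_ae (Eventually.of_forall fun a => ?_)
    show Real.exp _ = Real.exp _
    rw [hq]
  have hgc : Continuous g := by
    rw [hg]
    fun_prop
  have hmeas : AEMeasurable (Matrix.toLin' (cyM n p q)) (volume : Measure (Fin n → ℝ)) :=
    (LinearMap.continuous_of_finiteDimensional (Matrix.toLin' (cyM n p q))).measurable.aemeasurable
  rw [h1, ← integral_map hmeas hgc.aestronglyMeasurable,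
    Real.map_matrix_volume_pi_eq_smul_volume_pi hdet, integral_smul_measure]
  have h2 : ∫ c : Fin n → ℝ, g c = (√(π / β)) ^ n := by
    have e : ∀ c : Fin n → ℝ, g c = ∏ r, Real.exp (-β * c r ^ 2) := by
      intro c
      rw [← Real.exp_sum]
      show Real.exp (-(β * ∑ r, c r ^ 2)) = _
      congr 1
      rw [mul_sum, ← sum_neg_distrib]
      exact sum_congr rfl fun r _ => by ring
    simp only [e]
    rw [integral_fintype_prod_volume_eq_pow (fun x : ℝ => Real.exp (-β * x ^ 2)), integral_gaussian,
      Fintype.card_fin]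
  rw [h2, cyM_det, ENNReal.toReal_ofReal (abs_nonneg _), abs_of_pos (inv_pos.2 hd), smul_eq_mul]
  ring

end Run7.h116.VY
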