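import Pool.Agent.Run7.h116.VY.Exp
import Pool.Agent.Y681.TK.Fin

/-!
# The value of the summand at the critical point
-/

set_option autoImplicit false

namespace Run7.h116.VY

open Finset Filter Topology MeasureTheory Pool.Agent.W711.HT Pool.Agent.Y472.K Pool.Agent.Y472
open Run7.h260.VC (G0)
open Pool.Agent.Y430.TK (Sd_pos)
open scoped Real

/-- the lattice point -/
def kp (n M : ℕ) : Iv n → ℕ := Sum.elim (Sum.elim (fun _ => 2 * M) fun _ => M) fun _ => 3 * M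

lemma kp_wc (n : ℕ) {M : ℕ} (hM : 1 ≤ M) (i : Iv n) : (kp n M i : ℝ) / (3 * M : ℕ) = wc n i := by
  have hM0 : (0 : ℝ) < M := by exact_mod_cast hM
  rcases i with (r | r) | u
  · show ((2 * M : ℕ) : ℝ) / (3 * M : ℕ) = 2 / 3
    push_cast
    field_simp
  · show ((M : ℕ) : ℝ) / (3 * M : ℕ) = 1 / 3
    push_cast
    field_simp
  · show ((3 * M : ℕ) : ℝ) / (3 * M : ℕ) = 1
    rw [div_self]
    push_cast
    positivity

lemma three_lim : Tendsto (fun M : ℕ => 3 * M) atTop atTop :=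
  tendsto_atTop_mono (fun M => (by omega : M ≤ 3 * M)) tendsto_id

/-- the normalised products of sines -/
noncomputable def AM (j : ℕ) (M : ℕ) : ℝ :=
  Sd (3 * M) (j * M) * Real.exp ((3 * M : ℕ) * Lc (j / 3)) / √((3 * M : ℕ) : ℝ)

lemma AM_lim {j : ℕ} (hj : j = 1 ∨ j = 2) : Tendsto (AM j) atTop (𝓝 (√(√3))) := by
  have h := (Pool.Agent.Y681.TK.t_SDA.2 (fun N => j * (N / 3)) (j / 3)
    (by rcases hj with h | h <;> rw [h] <;> norm_num)
    (by rcases hj with h | h <;> rw [h] <;> norm_num) (by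
      have h1 : Tendsto (fun N : ℕ => ((N / 3 : ℕ) : ℝ) / N) atTop (𝓝 (1 / 3)) := by
        have h2 : Tendsto (fun N : ℕ => (1 / 3 : ℝ) - 1 / N) atTop (𝓝 (1 / 3 - 0)) :=
          tendsto_const_nhds.sub (tendsto_const_div_atTop_nhds_zero_nat 1)
        rw [sub_zero] at h2
        refine tendsto_of_tendsto_of_tendsto_of_le_of_le' h2 tendsto_const_nhds ?_ ?_
        · filter_upwards [eventually_gt_atTop 0] with N hN
          have hNr : (0 : ℝ) < N := by exact_mod_cast hN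
          rw [le_div_iff₀ hNr, sub_mul, div_mul_cancel₀ _ hNr.ne']
          have h3 : N < 3 * (N / 3) + 3 := by omega
          have h4 : (N : ℝ) < 3 * ((N / 3 : ℕ) : ℝ) + 3 := by exact_mod_cast h3
          linarith
        · filter_upwards [eventually_gt_atTop 0] with N hN
          have hNr : (0 : ℝ) < N := by exact_mod_cast hN
          rw [div_le_iff₀ hNr]
          have h3 : 3 * (N / 3) ≤ N := by omega
          have h4 : 3 * ((N / 3 : ℕ) : ℝ) ≤ N := by exact_mod_cast h3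
          linarith
      have h2 := h1.const_mul (j : ℝ)
      have e : (j : ℝ) * (1 / 3) = j / 3 := by ring
      rw [e] at h2
      refine h2.congr fun N => ?_
      push_cast
      ring)).comp three_lim
  have e3 : (2 * Real.sin (π * (j / 3))) = √3 := by
    rcases hj with h | h
    · rw [h]
      have : π * ((1 : ℕ) / 3 : ℝ) = π / 3 := by push_cast; ring
      rw [this, Real.sin_pi_div_three]
      ring
    · rw [h]
      have : π * ((2 : ℕ) / 3 : ℝ) = π - π / 3 := by push_cast; ring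
      rw [this, Real.sin_pi_sub, Real.sin_pi_div_three]
      ring
  rw [e3] at h
  refine h.congr' ?_
  filter_upwards [eventually_ge_atTop 1] with M hM
  have hM0 : (0 : ℝ) < M := by exact_mod_cast hM
  show Sd (3 * M) (j * (3 * M / 3)) * Real.exp ((3 * M : ℕ) * Lc ((j * (3 * M / 3) : ℕ) / (3 * M : ℕ))) /
    √((3 * M : ℕ) : ℝ) = _
  have e4 : 3 * M / 3 = M := by omega
  have e5 : (((j * M : ℕ) : ℝ) / (3 * M : ℕ)) = j / 3 := by
    push_cast
    field_simp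
  rw [e4, e5]
  rfl

lemma AM_pos {j M : ℕ} (hj : j = 1 ∨ j = 2) (hM : 1 ≤ M) : 0 < AM j M := by
  have hM0 : (0 : ℝ) < (3 * M : ℕ) := by exact_mod_cast (by omega : 0 < 3 * M)
  have : 0 < Sd (3 * M) (j * M) := Sd_pos (by rcases hj with h | h <;> rw [h] <;> omega)
  unfold AM
  have h2 := Real.sqrt_pos.2 hM0
  positivity

/-- the quotient -/
lemma XM {j M : ℕ} (hj : j = 1 ∨ j = 2) (hM : 1 ≤ M) :
    √((3 * M : ℕ) : ℝ) / Sd (3 * M) (j * M) = Real.exp ((3 * M : ℕ) * Lc (j / 3)) / AM j M := by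
  have hM0 : (0 : ℝ) < (3 * M : ℕ) := by exact_mod_cast (by omega : 0 < 3 * M)
  have h1 : 0 < Sd (3 * M) (j * M) := Sd_pos (by rcases hj with h | h <;> rw [h] <;> omega)
  have h2 := Real.sqrt_pos.2 hM0
  unfold AM
  field_simp

lemma TX_kp (n : ℕ) [NeZero n] (m : ℤ) {M : ℕ} (hM : 1 ≤ M) :
    Complex.exp (-((3 * M : ℕ) * G0 n)) * TX n m (3 * M) (kp n M) 0 =
      (((AM 2 M ^ 2 / AM 1 M ^ 4) ^ n : ℝ) : ℂ) := by
  have hM0 : (0 : ℝ) < (3 * M : ℕ) := by exact_mod_cast (by omega : 0 < 3 * M)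
  have hA1 := AM_pos (j := 1) (Or.inl rfl) hM
  have hA2 := AM_pos (j := 2) (Or.inr rfl) hM
  have x1 := XM (j := 1) (Or.inl rfl) hM
  have x2 := XM (j := 2) (Or.inr rfl) hM
  have hS1 : 0 < Sd (3 * M) (1 * M) := Sd_pos (by omega)
  have hS2 : 0 < Sd (3 * M) (2 * M) := Sd_pos (by omega)
  have hfac : ∀ r : Fin n, ((vN (3 * M) ^ (((kp n M (va r) : ℤ) - kp n M (va (r + 1))) * kp n M (vb r)) *
    ((((√((3 * M : ℕ) : ℝ) : ℝ) : ℂ) / (Sd (3 * M) (kp n M (va r) - kp n M (vb r)) : ℂ)) *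
    (((√((3 * M : ℕ) : ℝ) : ℝ) : ℂ) / (Sd (3 * M) (kp n M (va (r + 1)) - kp n M (vb r)) : ℂ)))) *
    (((((√((3 * M : ℕ) : ℝ) : ℝ) : ℂ) / (Sd (3 * M) (kp n M (va (r + 1)) + 3 * M - kp n M vs) : ℂ))⁻¹ *
      (((√((3 * M : ℕ) : ℝ) : ℝ) : ℂ) / (Sd (3 * M) (kp n M (va (r + 1)) + kp n M vs - 3 * M) : ℂ))⁻¹) *
    ((((√((3 * M : ℕ) : ℝ) : ℝ) : ℂ) / (Sd (3 * M) (kp n M (vb r) + 3 * M - kp n M vs) : ℂ)) *
      (((√((3 * M : ℕ) : ℝ) : ℝ) : ℂ) / (Sd (3 * M) (kp n M (vb r) + kp n M vs - 3 * M) : ℂ))))) =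
      ((Real.exp ((3 * M : ℕ) * (4 * Lc (1 / 3) - 2 * Lc (2 / 3))) * (AM 2 M ^ 2 / AM 1 M ^ 4) : ℝ) : ℂ) := by
    intro r
    have k1 : kp n M (va r) = 2 * M := rfl
    have k2 : kp n M (va (r + 1)) = 2 * M := rfl
    have k3 : kp n M (vb r) = M := rfl
    have k4 : kp n M (vs : Iv n) = 3 * M := rfl
    have s1 : 2 * M - M = 1 * M := by omega
    have s2 : 2 * M + 3 * M - 3 * M = 2 * M := by omega
    have s3 : M + 3 * M - 3 * M = 1 * M := by omega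
    rw [k1, k2, k3, k4, s1, s2, s3, sub_self, zero_mul, zpow_zero, one_mul]
    have e1 : (((√((3 * M : ℕ) : ℝ) : ℝ) : ℂ) / (Sd (3 * M) (1 * M) : ℂ)) =
        ((Real.exp ((3 * M : ℕ) * Lc (1 / 3)) / AM 1 M : ℝ) : ℂ) := by
      rw [← Complex.ofReal_div, x1]
      norm_num
    have e2 : (((√((3 * M : ℕ) : ℝ) : ℝ) : ℂ) / (Sd (3 * M) (2 * M) : ℂ)) =
        ((Real.exp ((3 * M : ℕ) * Lc (2 / 3)) / AM 2 M : ℝ) : ℂ) := by
      rw [← Complex.ofReal_div, x2]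
      norm_num
    rw [e1, e2]
    have e3 : Real.exp ((3 * M : ℕ) * (4 * Lc (1 / 3) - 2 * Lc (2 / 3))) =
        Real.exp ((3 * M : ℕ) * Lc (1 / 3)) ^ 4 / Real.exp ((3 * M : ℕ) * Lc (2 / 3)) ^ 2 := by
      rw [← Real.exp_nat_mul, ← Real.exp_nat_mul, ← Real.exp_sub]
      congr 1
      push_cast
      ring
    rw [e3]
    have p1 := Real.exp_pos ((3 * M : ℕ) * Lc (1 / 3))
    have p2 := Real.exp_pos ((3 * M : ℕ) * Lc (2 / 3))
    generalize Real.exp ((3 * M : ℕ) * Lc (1 / 3)) = u at p1 ⊢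
    generalize Real.exp ((3 * M : ℕ) * Lc (2 / 3)) = v at p2 ⊢
    have e4 : u / AM 1 M * (u / AM 1 M) * ((v / AM 2 M)⁻¹ * (v / AM 2 M)⁻¹ *
        (u / AM 1 M * (u / AM 1 M))) = u ^ 4 / v ^ 2 * (AM 2 M ^ 2 / AM 1 M ^ 4) := by
      field_simp
    rw [← e4]
    push_cast
    ring
  unfold TX
  rw [Finset.prod_congr rfl fun r _ => hfac r, Finset.prod_const, Finset.card_univ, Fintype.card_fin]
  have k4 : ((kp n M (vs : Iv n) : ℕ) : ℂ) = ((3 * M : ℕ) : ℂ) := rfl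
  rw [k4, sub_self]
  have e5 : Complex.exp (2 * π * Complex.I * m * (0 : ℂ) ^ 2 / ((3 * M : ℕ) : ℂ)) = 1 := by
    rw [zero_pow (by norm_num), mul_zero, zero_div, Complex.exp_zero]
  have e6 : Complex.exp (-(((3 * M : ℕ) : ℂ) * ((0 : ℝ) : ℂ) ^ 2)) = 1 := by
    simp
  rw [e5, e6, mul_one, mul_one, G0_eq]
  rw [← Complex.ofReal_pow, mul_pow, ← Real.exp_nat_mul]
  have e7 : Complex.exp (-(((3 * M : ℕ) : ℂ) * ((n * (4 * Lc (1 / 3) - 2 * Lc (2 / 3)) : ℝ) : ℂ))) =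
      ((Real.exp (-((3 * M : ℕ) * (n * (4 * Lc (1 / 3) - 2 * Lc (2 / 3))))) : ℝ) : ℂ) := by
    push_cast
    rfl
  rw [e7, ← Complex.ofReal_mul, ← mul_assoc, ← Real.exp_add]
  have e8 : -(((3 * M : ℕ) : ℝ) * (n * (4 * Lc (1 / 3) - 2 * Lc (2 / 3)))) +
      n * (((3 * M : ℕ) : ℝ) * (4 * Lc (1 / 3) - 2 * Lc (2 / 3))) = 0 := by ring
  rw [e8, Real.exp_zero, one_mul]

/-- **the constant** -/
theorem E_val {n : ℕ} [NeZero n] {m : ℤ} {E : ℂ}
    (hE : ∀ (φ : ℕ → ℕ) (k : ℕ → Iv n → ℕ), Tendsto φ atTop atTop →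
      (∀ᶠ M in atTop, ∀ i, (k M i : ℝ) / φ M = wc n i) →
      Tendsto (fun M => Complex.exp (-(φ M * G0 n)) * TX n m (φ M) (k M) 0) atTop (𝓝 E)) :
    E = ((((√3)⁻¹) ^ n : ℝ) : ℂ) := by
  have h1 := hE (fun M => 3 * M) (kp n) three_lim (by
    filter_upwards [eventually_ge_atTop 1] with M hM i
    exact kp_wc n hM i)
  have hs3 : (0 : ℝ) < √3 := by positivity
  have hss : √(√3) ^ 2 = √3 := Real.sq_sqrt hs3.le
  have h2 : Tendsto (fun M => (AM 2 M ^ 2 / AM 1 M ^ 4) ^ n) atTop (𝓝 (((√3)⁻¹) ^ n)) := by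
    have h3 := (((AM_lim (j := 2) (Or.inr rfl)).pow 2).div ((AM_lim (j := 1) (Or.inl rfl)).pow 4)
      (by positivity)).pow n
    have e : √(√3) ^ 2 / √(√3) ^ 4 = (√3)⁻¹ := by
      have : √(√3) ^ 4 = (√(√3) ^ 2) ^ 2 := by ring
      rw [this, hss]
      field_simp
    rw [e] at h3
    exact h3
  have h3 := (Complex.continuous_ofReal.tendsto _).comp h2
  refine tendsto_nhds_unique h1 (h3.congr' ?_)
  filter_upwards [eventually_ge_atTop 1] with M hM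
  exact (TX_kp n m hM).symm

end Run7.h116.VY
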