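import Pool.Agent.Run7.h116.VY.Sm
import Pool.Agent.Y275.TKX.Nal
import Pool.Agent.Y297.TKX.Sdx
import Pool.Agent.Y306.TKX.Scl
import Pool.Agent.Y849.TKX.Mlt
import Pool.Agent.W647.FE.GU

/-!
# The asymptotic expansion of the sum
-/

set_option autoImplicit false

namespace Run7.h116.VY

open Finset Filter Topology MeasureTheory Pool.Agent.W711.HT Pool.Agent.Y472.K Pool.Agent.Y472
open Run7.h260.VC (G0)
open scoped Real

/-! ### Analysis -/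

lemma tz (k : ℝ) (κ : ℝ) (hκ : 0 < κ) :
    Tendsto (fun N : ℕ => (N : ℝ) ^ k * Real.exp (-(κ * N))) atTop (𝓝 0) := by
  have h := (tendsto_rpow_mul_exp_neg_mul_atTop_nhds_zero k κ hκ).comp tendsto_natCast_atTop_atTop
  refine h.congr fun N => ?_
  simp [neg_mul]

lemma exp_small (K : ℕ) {κ : ℝ} (hκ : 0 < κ) : ∀ᶠ N : ℕ in atTop,
    Real.exp (-(κ * N)) ≤ ((N : ℝ)⁻¹) ^ K := by
  filter_upwards [(tz (K : ℝ) κ hκ).eventually (gt_mem_nhds one_pos), eventually_ge_atTop 1] with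
    N h4 h3
  have hN0 : (0 : ℝ) < N := by exact_mod_cast h3
  rw [Real.rpow_natCast] at h4
  rw [inv_pow, ← one_div, le_div_iff₀ (by positivity)]
  linarith

/-- the Gaussian integral -/
noncomputable def IG (ρ' : ℝ) (N : ℕ) : ℂ :=
  ((√(N : ℝ) : ℝ) : ℂ) * ∫ x in (-ρ')..ρ', Complex.exp (-(N * (x : ℂ) ^ 2))

lemma ig_small {ρ' : ℝ} (hρ' : 0 < ρ') : ∃ κ : ℝ, 0 < κ ∧ ∀ᶠ N : ℕ in atTop,
    ‖IG ρ' N - ((√π : ℝ) : ℂ)‖ ≤ Real.exp (-(κ * N)) := by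
  have hpi := Real.pi_pos
  refine ⟨ρ' ^ 2 / 4, by positivity, ?_⟩
  have h0 := (tz (1 / 2) (ρ' ^ 2 / 4) (by positivity)).mul_const (√π)
  rw [zero_mul] at h0
  filter_upwards [eventually_ge_atTop 2, h0.eventually (gt_mem_nhds one_pos)] with N hN h1
  have hNr : (2 : ℝ) ≤ N := by exact_mod_cast hN
  have hN0 : (0 : ℝ) < N := by linarith
  set f : ℝ → ℝ := fun x => Real.exp (-(N * x ^ 2)) with hf
  have hfi : Integrable f := by
    have := integrable_exp_neg_mul_sq hN0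
    refine this.congr (Eventually.of_forall fun x => ?_)
    show Real.exp (-(N : ℝ) * x ^ 2) = Real.exp (-(N * x ^ 2))
    rw [neg_mul]
  have hfv : ∫ x, f x = √(π / N) := by
    have := integral_gaussian (N : ℝ)
    rw [← this]
    refine integral_congr_ae (Eventually.of_forall fun x => ?_)
    show Real.exp (-(N * x ^ 2)) = Real.exp (-(N : ℝ) * x ^ 2)
    rw [neg_mul]
  have hci : ∫ x in (-ρ')..ρ', Complex.exp (-(N * (x : ℂ) ^ 2)) =
      ((∫ x in Set.Ioc (-ρ') ρ', f x : ℝ) : ℂ) := by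
    rw [intervalIntegral.integral_of_le (by linarith), ← integral_complex_ofReal]
    refine integral_congr_ae (Eventually.of_forall fun x => ?_)
    show Complex.exp (-(N * (x : ℂ) ^ 2)) = ((Real.exp (-(N * x ^ 2)) : ℝ) : ℂ)
    push_cast
    rfl
  have hsplit : (∫ x in Set.Ioc (-ρ') ρ', f x) + ∫ x in (Set.Ioc (-ρ') ρ')ᶜ, f x = √(π / N) := by
    rw [integral_add_compl measurableSet_Ioc hfi, hfv]
  have htail0 : 0 ≤ ∫ x in (Set.Ioc (-ρ') ρ')ᶜ, f x :=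
    setIntegral_nonneg measurableSet_Ioc.compl fun x _ => (Real.exp_pos _).le
  have hg : Integrable fun x : ℝ => Real.exp (-(1 : ℝ) * x ^ 2) := integrable_exp_neg_mul_sq one_pos
  have htail : ∫ x in (Set.Ioc (-ρ') ρ')ᶜ, f x ≤ Real.exp (-(ρ' ^ 2 / 2 * N)) * √π := by
    calc ∫ x in (Set.Ioc (-ρ') ρ')ᶜ, f x
        ≤ ∫ x in (Set.Ioc (-ρ') ρ')ᶜ, Real.exp (-(ρ' ^ 2 / 2 * N)) * Real.exp (-(1 : ℝ) * x ^ 2) := by
          refine setIntegral_mono_on hfi.integrableOn (hg.const_mul _).integrableOn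
            measurableSet_Ioc.compl fun x hx => ?_
          rw [← Real.exp_add]
          refine Real.exp_le_exp.2 ?_
          have h2 : ρ' ^ 2 ≤ x ^ 2 := by
            rw [Set.mem_compl_iff, Set.mem_Ioc, not_and_or, not_lt, not_le] at hx
            rcases hx with hx | hx
            · nlinarith
            · nlinarith
          nlinarith
      _ = Real.exp (-(ρ' ^ 2 / 2 * N)) * ∫ x in (Set.Ioc (-ρ') ρ')ᶜ, Real.exp (-(1 : ℝ) * x ^ 2) := by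
          rw [integral_const_mul]
      _ ≤ Real.exp (-(ρ' ^ 2 / 2 * N)) * ∫ x, Real.exp (-(1 : ℝ) * x ^ 2) := by
          refine mul_le_mul_of_nonneg_left ?_ (Real.exp_pos _).le
          exact setIntegral_le_integral hg (Eventually.of_forall fun x => (Real.exp_pos _).le)
      _ = _ := by rw [integral_gaussian, div_one]
  have hsN : √(N : ℝ) * √(π / N) = √π := by
    rw [← Real.sqrt_mul hN0.le, mul_div_cancel₀ _ hN0.ne']
  have e1 : IG ρ' N - ((√π : ℝ) : ℂ) =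
      ((-(√(N : ℝ) * ∫ x in (Set.Ioc (-ρ') ρ')ᶜ, f x) : ℝ) : ℂ) := by
    unfold IG
    rw [hci, ← hsN, ← hsplit]
    push_cast
    ring
  rw [e1, Complex.norm_real, Real.norm_eq_abs, abs_neg,
    abs_of_nonneg (mul_nonneg (Real.sqrt_nonneg _) htail0)]
  have e2 : (N : ℝ) ^ (1 / 2 : ℝ) = √(N : ℝ) := (Real.sqrt_eq_rpow _).symm
  rw [e2] at h1
  have e3 : Real.exp (-(ρ' ^ 2 / 2 * N)) = Real.exp (-(ρ' ^ 2 / 4 * N)) *
      Real.exp (-(ρ' ^ 2 / 4 * N)) := by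
    rw [← Real.exp_add]
    congr 1
    ring
  calc √(N : ℝ) * ∫ x in (Set.Ioc (-ρ') ρ')ᶜ, f x
      ≤ √(N : ℝ) * (Real.exp (-(ρ' ^ 2 / 2 * N)) * √π) :=
        mul_le_mul_of_nonneg_left htail (Real.sqrt_nonneg _)
    _ = (√(N : ℝ) * Real.exp (-(ρ' ^ 2 / 4 * N)) * √π) * Real.exp (-(ρ' ^ 2 / 4 * N)) := by
        rw [e3]
        ring
    _ ≤ 1 * Real.exp (-(ρ' ^ 2 / 4 * N)) :=
        mul_le_mul_of_nonneg_right h1.le (Real.exp_pos _).le
    _ = _ := one_mul _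

lemma ig_lim {ρ' : ℝ} (hρ' : 0 < ρ') : Tendsto (IG ρ') atTop (𝓝 ((√π : ℝ) : ℂ)) := by
  obtain ⟨κ, hκ, h⟩ := ig_small hρ'
  rw [tendsto_iff_norm_sub_tendsto_zero]
  have h1 := tz 0 κ hκ
  refine squeeze_zero' (Eventually.of_forall fun _ => norm_nonneg _) ?_ h1
  filter_upwards [h] with N hN
  rw [Real.rpow_zero, one_mul]
  exact hN

/-- division by the Gaussian integral -/
lemma divide {f G : ℕ → ℂ} {ρ' κ : ℝ} (hρ' : 0 < ρ') (hκ : 0 < κ)
    (h1 : ∀ᶠ N : ℕ in atTop, ‖f N * IG ρ' N - G N‖ ≤ Real.exp (-(κ * N))) {K : ℕ} {a : ℕ → ℂ} {C : ℝ}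
    (h2 : ∀ᶠ N : ℕ in atTop, ‖G N - ∑ j ∈ range K, a j / (N : ℂ) ^ j‖ ≤ C / (N : ℝ) ^ K) :
    ∃ (b : ℕ → ℂ) (C' : ℝ), ∀ᶠ N : ℕ in atTop,
      ‖f N - ∑ j ∈ range K, b j * ((N : ℂ)⁻¹) ^ j‖ ≤ C' * ((N : ℝ)⁻¹) ^ K := by
  obtain ⟨κ', hκ', h3⟩ := ig_small hρ'
  have hsp : (1 : ℝ) < √π := by
    rw [Real.lt_sqrt (by norm_num)]
    linarith [Real.pi_gt_three]
  set B : ℝ := ∑ j ∈ range K, ‖a j‖ with hB
  have hB0 : 0 ≤ B := Finset.sum_nonneg fun _ _ => norm_nonneg _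
  refine ⟨fun j => a j / ((√π : ℝ) : ℂ), (1 + |C| + (B + |C| + 1) * 2) / √π, ?_⟩
  have hI : ∀ᶠ N in atTop, 1 / 2 ≤ ‖IG ρ' N‖ := by
    have h4 := (ig_lim hρ').norm
    rw [Complex.norm_real, Real.norm_eq_abs, abs_of_pos (by linarith)] at h4
    filter_upwards [h4.eventually (lt_mem_nhds (show 1 / 2 < √π by linarith))] with N hN
    exact hN.le
  filter_upwards [h1, h2, h3, hI, exp_small K hκ, exp_small K hκ', eventually_ge_atTop 1] with
    N g1 g2 g3 g4 g5 g6 g7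
  have hN0 : (0 : ℝ) < N := by exact_mod_cast g7
  have hN1 : (1 : ℝ) ≤ N := by exact_mod_cast g7
  have hx0 : (0 : ℝ) ≤ ((N : ℝ)⁻¹) ^ K := by positivity
  have hx1 : ((N : ℝ)⁻¹) ^ K ≤ 1 := pow_le_one₀ (by positivity) (inv_le_one_of_one_le₀ hN1)
  set P : ℂ := ∑ j ∈ range K, a j / (N : ℂ) ^ j with hP
  have hPb : ‖P‖ ≤ B := by
    rw [hP, hB]
    refine norm_sum_le_of_le _ fun j _ => ?_
    rw [norm_div, norm_pow, Complex.norm_natCast]
    exact div_le_self (norm_nonneg _) (one_le_pow₀ hN1)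
  have hC : C / (N : ℝ) ^ K ≤ |C| * ((N : ℝ)⁻¹) ^ K := by
    rw [inv_pow, ← div_eq_mul_inv]
    exact div_le_div_of_nonneg_right (le_abs_self C) (by positivity)
  -- the bound of `f`
  have hfI : ‖f N * IG ρ' N - P‖ ≤ (1 + |C|) * ((N : ℝ)⁻¹) ^ K := by
    have e : f N * IG ρ' N - P = (f N * IG ρ' N - G N) + (G N - P) := by ring
    rw [e]
    refine (norm_add_le _ _).trans ?_
    linarith [g1.trans g5, g2.trans hC]
  have hfb : ‖f N‖ ≤ (B + |C| + 1) * 2 := by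
    have h5 : ‖f N * IG ρ' N‖ ≤ B + |C| + 1 := by
      have e : f N * IG ρ' N = (f N * IG ρ' N - P) + P := by ring
      rw [e]
      refine (norm_add_le _ _).trans ?_
      have : (1 + |C|) * ((N : ℝ)⁻¹) ^ K ≤ 1 + |C| :=
        mul_le_of_le_one_right (by positivity) hx1
      linarith
    rw [norm_mul] at h5
    have h6 := norm_nonneg (f N)
    nlinarith
  have e : f N - ∑ j ∈ range K, a j / ((√π : ℝ) : ℂ) * ((N : ℂ)⁻¹) ^ j =
      ((f N * IG ρ' N - P) - f N * (IG ρ' N - ((√π : ℝ) : ℂ))) / ((√π : ℝ) : ℂ) := by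
    have hs : ((√π : ℝ) : ℂ) ≠ 0 := by
      have : √π ≠ 0 := by positivity
      exact_mod_cast this
    have e1 : ∑ j ∈ range K, a j / ((√π : ℝ) : ℂ) * ((N : ℂ)⁻¹) ^ j = P / ((√π : ℝ) : ℂ) := by
      rw [hP, sum_div]
      refine sum_congr rfl fun j _ => ?_
      rw [inv_pow]
      ring
    rw [e1]
    field_simp
    ring
  rw [e, norm_div, Complex.norm_real, Real.norm_of_nonneg (Real.sqrt_nonneg _), div_mul_eq_mul_div]
  refine div_le_div_of_nonneg_right ?_ (Real.sqrt_nonneg _)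
  calc _ ≤ ‖f N * IG ρ' N - P‖ + ‖f N * (IG ρ' N - ((√π : ℝ) : ℂ))‖ := norm_sub_le _ _
    _ ≤ (1 + |C|) * ((N : ℝ)⁻¹) ^ K + (B + |C| + 1) * 2 * ((N : ℝ)⁻¹) ^ K := by
        rw [norm_mul]
        refine add_le_add hfI ?_
        exact mul_le_mul hfb (g3.trans g6) (norm_nonneg _) (by positivity)
    _ = _ := by ring

/-! ### The expansion -/

variable {n : ℕ} [NeZero n]

/-- the normalised sum -/
noncomputable def fS (n : ℕ) [NeZero n] (m : ℤ) (N : ℕ) : ℂ :=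
  SS n N m / (((√(N : ℝ) : ℝ) : ℂ) * Complex.exp (N * G0 n))

/-- the normalised sum over the near points -/
noncomputable def gS (n : ℕ) [NeZero n] (m : ℤ) (ρ ρ' : ℝ) (N : ℕ) : ℂ :=
  ((√(N : ℝ) : ℝ) : ℂ) / ((√(N : ℝ) : ℝ) : ℂ) ^ Fintype.card (Iv n) * Complex.exp (-(N * G0 n)) *
    ∑ k ∈ nrs (wc n) ρ N, ∫ x in (-ρ')..ρ', TX n m N k x

lemma red (m : ℤ) {ρ ρ' : ℝ} (hρ : 0 < ρ) (hρ1 : ρ ≤ 1 / 12) (hρ' : 0 < ρ') : ∃ κ : ℝ, 0 < κ ∧
    ∀ᶠ N : ℕ in atTop, ‖fS n m N * IG ρ' N - gS n m ρ ρ' N‖ ≤ Real.exp (-(κ * N)) := by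
  obtain ⟨κ, hκ, h⟩ := far_SS (n := n) m hρ
  refine ⟨κ / 2, half_pos hκ, ?_⟩
  have h0 := (tz 0 (κ / 2) (half_pos hκ)).mul_const (2 * ρ')
  rw [zero_mul] at h0
  filter_upwards [h, eventually_ge_atTop 1, h0.eventually (gt_mem_nhds one_pos)] with N h1 hN h2
  have hN0 : (0 : ℝ) < N := by exact_mod_cast hN
  have hNc : (N : ℂ) ≠ 0 := by exact_mod_cast hN0.ne'
  have hs0 : (0 : ℝ) < √N := Real.sqrt_pos.2 hN0
  have hsc : ((√(N : ℝ) : ℝ) : ℂ) ≠ 0 := by exact_mod_cast hs0.ne'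
  have hcard : Fintype.card (Iv n) = 2 * n + 1 := by
    rw [Fintype.card_sum, Fintype.card_sum, Fintype.card_fin, Fintype.card_unit]
    ring
  have hsq : ((√(N : ℝ) : ℝ) : ℂ) ^ (2 * n) = (N : ℂ) ^ n := by
    rw [pow_mul, ← Complex.ofReal_pow, Real.sq_sqrt hN0.le]
    norm_cast
  have hNn : (N : ℂ) ^ n ≠ 0 := pow_ne_zero _ hNc
  have e1 : gS n m ρ ρ' N = Complex.exp (-(N * G0 n)) * nearS n N m ρ *
      ∫ x in (-ρ')..ρ', Complex.exp (-(N * (x : ℂ) ^ 2)) := by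
    unfold gS
    rw [near_int m hρ1 ρ' hN, hcard, pow_succ, hsq]
    field_simp
  have e2 : fS n m N * IG ρ' N = Complex.exp (-(N * G0 n)) * SS n N m *
      ∫ x in (-ρ')..ρ', Complex.exp (-(N * (x : ℂ) ^ 2)) := by
    unfold fS IG
    rw [Complex.exp_neg]
    field_simp
  have e3 : fS n m N * IG ρ' N - gS n m ρ ρ' N = Complex.exp (-(N * G0 n)) *
      (SS n N m - nearS n N m ρ) * ∫ x in (-ρ')..ρ', Complex.exp (-(N * (x : ℂ) ^ 2)) := by
    rw [e1, e2]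
    ring
  have h3 : ‖∫ x in (-ρ')..ρ', Complex.exp (-(N * (x : ℂ) ^ 2))‖ ≤ 1 * |ρ' - -ρ'| := by
    refine intervalIntegral.norm_integral_le_of_norm_le_const fun x _ => ?_
    rw [Complex.norm_exp]
    have : (-((N : ℂ) * (x : ℂ) ^ 2)).re = -(N * x ^ 2) := by
      have : -((N : ℂ) * (x : ℂ) ^ 2) = ((-(N * x ^ 2) : ℝ) : ℂ) := by push_cast; rfl
      rw [this, Complex.ofReal_re]
    rw [this]
    refine Real.exp_le_one_iff.2 ?_
    have : 0 ≤ (N : ℝ) * x ^ 2 := by positivity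
    linarith
  have e4 : |ρ' - -ρ'| = 2 * ρ' := by
    rw [abs_of_nonneg (by linarith)]
    ring
  rw [e4, one_mul] at h3
  rw [e3, norm_mul, norm_mul, Complex.norm_exp]
  have e5 : (-((N : ℂ) * (G0 n : ℂ))).re = -(N * G0 n) := by simp
  rw [e5]
  rw [Real.rpow_zero, one_mul] at h2
  calc Real.exp (-(N * G0 n)) * ‖SS n N m - nearS n N m ρ‖ * _
      ≤ Real.exp (-(N * G0 n)) * Real.exp (N * (G0 n - κ)) * (2 * ρ') := by gcongr
    _ = (Real.exp (-(κ / 2 * N)) * (2 * ρ')) * Real.exp (-(κ / 2 * N)) := by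
        rw [← Real.exp_add]
        have : -(N * G0 n) + N * (G0 n - κ) = -(κ / 2 * N) + -(κ / 2 * N) := by ring
        rw [this, Real.exp_add]
        ring
    _ ≤ 1 * Real.exp (-(κ / 2 * N)) := mul_le_mul_of_nonneg_right h2.le (Real.exp_pos _).le
    _ = _ := one_mul _

lemma TX_cont (n : ℕ) [NeZero n] (m : ℤ) (N : ℕ) (k : Iv n → ℕ) : Continuous (TX n m N k) := by
  unfold TX
  fun_prop

lemma wc_pos (n : ℕ) (i : Iv n) : 0 < wc n i := by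
  rcases i with (r | r) | u
  · show (0 : ℝ) < 2 / 3
    norm_num
  · show (0 : ℝ) < 1 / 3
    norm_num
  · exact one_pos

/-- **the asymptotic expansion** -/
theorem exp_SS (n : ℕ) [NeZero n] (m : ℤ) : ∃ a : ℕ → ℂ, a 0 ≠ 0 ∧
    (∃ E : ℂ, (∀ (φ : ℕ → ℕ) (k : ℕ → Iv n → ℕ), Tendsto φ atTop atTop →
      (∀ᶠ M in atTop, ∀ i, (k M i : ℝ) / φ M = wc n i) →
      Tendsto (fun M => Complex.exp (-(φ M * G0 n)) * TX n m (φ M) (k M) 0) atTop (𝓝 E)) ∧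
      a 0 * ((√π : ℝ) : ℂ) = E * ∫ v, Complex.exp (-(RX n kap v : ℂ) - Complex.I * (SX n m v : ℂ))) ∧
    Tendsto (fS n m) atTop (𝓝 (a 0)) ∧ ∀ K : ℕ, ∃ C : ℝ, ∀ᶠ N : ℕ in atTop,
      ‖fS n m N - ∑ j ∈ range K, a j * ((N : ℂ)⁻¹) ^ j‖ ≤ C * ((N : ℝ)⁻¹) ^ K := by
  obtain ⟨Lx, hLx, σ, hσ, h⟩ := Pool.Agent.Y297.TKX.sdx
  have hA := ax_Ps n m hLx
  have hL := fun K => lx_T n m hσ h K
  have hexp : ∀ J : ℕ, ∃ (a : ℕ → ℂ) (C : ℝ), ∀ᶠ N : ℕ in atTop,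
      ‖fS n m N - ∑ j ∈ range J, a j * ((N : ℂ)⁻¹) ^ j‖ ≤ C * ((N : ℝ)⁻¹) ^ J := by
    intro J
    obtain ⟨r, hr, hr2⟩ := Pool.Agent.Y275.TKX.nal Pool.Agent.Y936.TKX.gbd
      Pool.Agent.Y306.TKX.scl Pool.Agent.Y849.TKX.mlt (Iv n) (PsX n m Lx) (wc n) (G0 n)
      (RX n kap) (SX n m) hA (wc_pos n) (TX n m)
      (Eventually.of_forall fun N k => TX_cont n m N k) J (hL J)
    obtain ⟨a, C, h2⟩ := hr2 (min r (1 / 12)) r (lt_min hr (by norm_num)) (min_le_left _ _) hr le_rfl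
    obtain ⟨κ, hκ, h3⟩ := red (n := n) m (ρ := min r (1 / 12)) (ρ' := r)
      (lt_min hr (by norm_num)) (min_le_right _ _) hr
    exact divide hr hκ h3 h2
  obtain ⟨a, ha⟩ := Pool.Agent.W647.FE.uniq (fS n m) hexp
  have h1 : Tendsto (fS n m) atTop (𝓝 (a 0)) := by
    obtain ⟨C, hC⟩ := ha 1
    have h2 : Tendsto (fun N : ℕ => C * ((N : ℝ)⁻¹) ^ 1) atTop (𝓝 0) := by
      have h3 := (tendsto_inv_atTop_zero.comp tendsto_natCast_atTop_atTop :
        Tendsto (fun N : ℕ => ((N : ℝ))⁻¹) atTop (𝓝 0)).const_mul C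
      rw [mul_zero] at h3
      refine h3.congr fun N => ?_
      show C * ((N : ℝ))⁻¹ = _
      rw [pow_one]
    have h4 : Tendsto (fun N => fS n m N - a 0) atTop (𝓝 0) := by
      refine squeeze_zero_norm' ?_ h2
      filter_upwards [hC] with N hN
      simpa using hN
    have h5 := h4.add_const (a 0)
    rw [zero_add] at h5
    exact h5.congr fun N => by ring
  obtain ⟨E, hE, hEs, r, hr, hlead⟩ := lead hA (wc_pos n) (TX_cont n m) (hL 1)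
  have h2 := hlead (min r (1 / 12)) r (lt_min hr (by norm_num)) (min_le_left _ _) hr le_rfl
  obtain ⟨κ, hκ, h3⟩ := red (n := n) m (ρ := min r (1 / 12)) (ρ' := r)
    (lt_min hr (by norm_num)) (min_le_right _ _) hr
  have h4 : Tendsto (fun N => fS n m N * IG r N - gS n m (min r (1 / 12)) r N) atTop (𝓝 0) := by
    refine squeeze_zero_norm' ?_ (tz 0 κ hκ)
    filter_upwards [h3] with N hN
    rw [Real.rpow_zero, one_mul]
    exact hN
  have h5 := h4.add h2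
  rw [zero_add] at h5
  have h6 : Tendsto (fun N => fS n m N * IG r N) atTop
      (𝓝 (E * ∫ v, Complex.exp (-(RX n kap v : ℂ) - Complex.I * (SX n m v : ℂ)))) := by
    refine h5.congr fun N => ?_
    show fS n m N * IG r N - gS n m (min r (1 / 12)) r N + gS n m (min r (1 / 12)) r N = _
    ring
  have h7 := h1.mul (ig_lim hr)
  have h8 := tendsto_nhds_unique h7 h6
  refine ⟨a, ?_, ⟨E, hEs, h8⟩, h1, ha⟩
  intro h9
  rw [h9, zero_mul] at h8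
  exact mul_ne_zero hE (Pool.Agent.Y86.TK.t_GAU _ _ _ hA.pos) h8.symm

end Run7.h116.VY
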