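import Pool.Agent.Run7.h116.VY.Det
import Pool.Agent.Run7.h116.VY.Ax

/-!
# The Gaussian integral of the potential
-/

set_option autoImplicit false

namespace Run7.h116.VY

open Finset Filter Topology MeasureTheory Pool.Agent.Y472.K
open scoped Real

/-- the constant `2 π / √3` -/
noncomputable def al : ℝ := 2 * π / √3

lemma al_pos : 0 < al := by
  have := Real.pi_pos
  unfold al
  positivity

lemma al_kap : 4 * kap = al := by
  unfold al kap
  have h3 : √(3 : ℝ) ≠ 0 := by positivity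
  field_simp
  ring

lemma al_pi : al * √3 = 2 * π := by
  unfold al
  have h3 : √(3 : ℝ) ≠ 0 := by positivity
  field_simp

/-- the sixth root of unity -/
noncomputable def om : ℂ := 1 / 2 + Complex.I * (√3 / 2 : ℝ)

lemma sq3 : ((√3 : ℝ) : ℂ) ^ 2 = 3 := by
  rw [← Complex.ofReal_pow, Real.sq_sqrt (by norm_num)]
  norm_num

/-- the linear form -/
noncomputable def Lf (x y : ℝ) : ℂ := (1 / 2 + Complex.I * (√3 / 2 : ℝ)) * x +
  (1 / 2 - Complex.I * (√3 / 2 : ℝ)) * y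

lemma Lf_sq (x y : ℝ) : Lf x y ^ 2 = -(x : ℂ) ^ 2 / 2 - (y : ℂ) ^ 2 / 2 + 2 * x * y +
    Complex.I * (√3 / 2 : ℝ) * (x ^ 2 - y ^ 2) := by
  unfold Lf
  have h1 := sq3
  have h2 := Complex.I_sq
  push_cast
  linear_combination ((x : ℂ) - y) ^ 2 * (3 / 4 : ℂ) * h2 + ((x : ℂ) - y) ^ 2 * Complex.I ^ 2 / 4 * h1

variable {n : ℕ} [NeZero n]

/-- the quadratic form in the first variables -/
noncomputable def Hq (a b : Fin n → ℝ) : ℂ :=
  (al : ℂ) * ∑ r, ((a r : ℂ) ^ 2 + (b r : ℂ) ^ 2 - b r * Lf (a r) (a (r + 1)))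

lemma shiftC (f : Fin n → ℂ) : ∑ r, f (r + 1) = ∑ r, f r :=
  Equiv.sum_comp (Equiv.addRight (1 : Fin n)) f

lemma form_eq (v : (Iv n → ℝ) × ℝ) : (RX n kap v : ℂ) + Complex.I * (SX n 0 v : ℂ) =
    Hq (fun r => v.1 (va r)) (fun r => v.1 (vb r)) + al * n * (v.1 vs : ℂ) ^ 2 + (v.2 : ℂ) ^ 2 := by
  have hk : (4 : ℂ) * kap = al := by exact_mod_cast al_kap
  have hp : (al : ℂ) * (√3 : ℝ) = 2 * π := by exact_mod_cast al_pi
  rw [RX_apply, SX_apply]
  unfold Hq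
  have e1 : ∀ r : Fin n, (kap : ℂ) * (((v.1 (va r) : ℂ) - v.1 (vb r)) ^ 2 +
      ((v.1 (va (r + 1)) : ℂ) - v.1 (vb r)) ^ 2 +
      ((v.1 (va (r + 1)) : ℂ) - v.1 vs) ^ 2 + ((v.1 (va (r + 1)) : ℂ) + v.1 vs) ^ 2 +
      ((v.1 (vb r) : ℂ) - v.1 vs) ^ 2 + ((v.1 (vb r) : ℂ) + v.1 vs) ^ 2) +
      Complex.I * (-π * (((v.1 (va r) : ℂ) - v.1 (va (r + 1))) * v.1 (vb r))) =
      al * ((v.1 (va r) : ℂ) ^ 2 + (v.1 (vb r) : ℂ) ^ 2 -
        v.1 (vb r) * Lf (v.1 (va r)) (v.1 (va (r + 1)))) + al * (v.1 vs : ℂ) ^ 2 +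
      3 * kap * ((fun s => (v.1 (va s) : ℂ) ^ 2) (r + 1) - (v.1 (va r) : ℂ) ^ 2) := by
    intro r
    unfold Lf
    push_cast
    rw [← hk] at hp ⊢
    linear_combination Complex.I * ((v.1 (va r) : ℂ) - v.1 (va (r + 1))) * v.1 (vb r) / 2 * hp
  have e2 : ∑ r : Fin n, ((fun s => (v.1 (va s) : ℂ) ^ 2) (r + 1) - (v.1 (va r) : ℂ) ^ 2) = 0 := by
    rw [Finset.sum_sub_distrib, shiftC (fun s => (v.1 (va s) : ℂ) ^ 2), sub_self]
  have e2' : ∑ r : Fin n, (3 : ℂ) * kap * ((fun s => (v.1 (va s) : ℂ) ^ 2) (r + 1) -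
      (v.1 (va r) : ℂ) ^ 2) = 0 := by
    rw [← Finset.mul_sum, e2, mul_zero]
  have e3 := Finset.sum_congr (rfl : (Finset.univ : Finset (Fin n)) = Finset.univ) fun r _ => e1 r
  rw [Finset.sum_add_distrib, Finset.sum_add_distrib, Finset.sum_add_distrib, e2',
    ← Finset.mul_sum,
    ← Finset.mul_sum, ← Finset.mul_sum, Finset.sum_const,
    Finset.card_univ, Fintype.card_fin, nsmul_eq_mul, add_zero, ← Finset.mul_sum] at e3
  push_cast
  rw [← Finset.mul_sum, ← Finset.mul_sum]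
  simp only [mul_zero, neg_zero, zero_mul, add_zero]
  linear_combination e3

/-- the inner integral -/
lemma int_b (a : Fin n → ℝ) : ∫ b : Fin n → ℝ, Complex.exp (-(Hq a b)) =
    ((√(π / al) : ℝ) : ℂ) ^ n *
      ((Real.exp (-(al / 4 * ∑ r, (5 * a r ^ 2 - 2 * a r * a (r + 1)))) : ℝ) : ℂ) := by
  have hal := al_pos
  have halc : (al : ℂ) ≠ 0 := by exact_mod_cast hal.ne'
  have e1 : ∀ b : Fin n → ℝ, Complex.exp (-(Hq a b)) =
      ∏ r, Complex.exp (-(al : ℂ) * (b r : ℂ) ^ 2 + (al : ℂ) * Lf (a r) (a (r + 1)) * b r +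
        -(al : ℂ) * (a r : ℂ) ^ 2) := by
    intro b
    rw [← Complex.exp_sum]
    congr 1
    unfold Hq
    rw [mul_sum, ← sum_neg_distrib]
    exact sum_congr rfl fun r _ => by ring
  simp only [e1]
  rw [integral_fintype_prod_volume_eq_prod (fun (r : Fin n) (x : ℝ) =>
    Complex.exp (-(al : ℂ) * (x : ℂ) ^ 2 + (al : ℂ) * Lf (a r) (a (r + 1)) * x +
      -(al : ℂ) * (a r : ℂ) ^ 2))]
  have hre : (-(al : ℂ)).re < 0 := by
    rw [Complex.neg_re, Complex.ofReal_re]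
    linarith
  have e2 : ∀ r : Fin n, ∫ x : ℝ, Complex.exp (-(al : ℂ) * (x : ℂ) ^ 2 +
      (al : ℂ) * Lf (a r) (a (r + 1)) * x + -(al : ℂ) * (a r : ℂ) ^ 2) =
      ((√(π / al) : ℝ) : ℂ) * Complex.exp (-((al : ℂ) / 4) * (5 * (a r : ℂ) ^ 2 - 2 * a r * a (r + 1)) +
        (al / 4 * (-(1 / 2) - Complex.I * (√3 / 2 : ℝ))) *
          ((fun s => (a s : ℂ) ^ 2) (r + 1) - (a r : ℂ) ^ 2)) := by
    intro r
    rw [integral_cexp_quadratic hre]
    have e3 : ((π : ℂ) / -(-(al : ℂ))) ^ (1 / 2 : ℂ) = ((√(π / al) : ℝ) : ℂ) := by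
      rw [neg_neg, ← Complex.ofReal_div, Real.sqrt_eq_rpow,
        Complex.ofReal_cpow (by positivity : (0 : ℝ) ≤ π / al)]
      norm_num
    rw [e3]
    congr 2
    rw [mul_pow, Lf_sq]
    show _ = -((al : ℂ) / 4) * (5 * (a r : ℂ) ^ 2 - 2 * a r * a (r + 1)) +
        (al / 4 * (-(1 / 2) - Complex.I * (√3 / 2 : ℝ))) *
          ((a (r + 1) : ℂ) ^ 2 - (a r : ℂ) ^ 2)
    field_simp
    ring
  rw [Finset.prod_congr rfl fun r _ => e2 r, Finset.prod_mul_distrib, Finset.prod_const,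
    Finset.card_univ, Fintype.card_fin, ← Complex.exp_sum]
  congr 1
  have e4 : ∑ r : Fin n, ((fun s => (a s : ℂ) ^ 2) (r + 1) - (a r : ℂ) ^ 2) = 0 := by
    rw [Finset.sum_sub_distrib, shiftC (fun s => (a s : ℂ) ^ 2), sub_self]
  rw [Finset.sum_add_distrib, ← Finset.mul_sum, ← Finset.mul_sum, e4, mul_zero, add_zero,
    Complex.ofReal_exp]
  congr 1
  push_cast
  ring

/-- integrability in the first variables -/
lemma int_ab : Integrable (fun p : (Fin n → ℝ) × (Fin n → ℝ) => Complex.exp (-(Hq p.1 p.2))) := by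
  have hal := al_pos
  have h1 : Integrable (fun x : ℝ => Real.exp (-(al / 2) * x ^ 2)) :=
    integrable_exp_neg_mul_sq (by positivity)
  have h2 : Integrable (fun x : Fin n → ℝ => ∏ i, Real.exp (-(al / 2) * x i ^ 2)) :=
    Integrable.fintype_prod (fun _ => h1)
  have h3 := h2.mul_prod h2
  refine h3.mono' ?_ (Eventually.of_forall fun p => ?_)
  · refine Continuous.aestronglyMeasurable ?_
    unfold Hq Lf
    fun_prop
  · rw [Complex.norm_exp, ← Real.exp_sum, ← Real.exp_sum, ← Real.exp_add, Real.exp_le_exp]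
    have hre : (Hq p.1 p.2).re = al * ∑ r, ((p.1 r) ^ 2 + (p.2 r) ^ 2 -
        p.2 r * ((p.1 r + p.1 (r + 1)) / 2)) := by
      unfold Hq
      rw [Complex.re_ofReal_mul, Complex.re_sum]
      congr 1
      refine Finset.sum_congr rfl fun r _ => ?_
      have e : (p.1 r : ℂ) ^ 2 + (p.2 r : ℂ) ^ 2 - p.2 r * Lf (p.1 r) (p.1 (r + 1)) =
          (((p.1 r) ^ 2 + (p.2 r) ^ 2 - p.2 r * ((p.1 r + p.1 (r + 1)) / 2) : ℝ) : ℂ) +
          ((-(p.2 r * (√3 / 2) * (p.1 r - p.1 (r + 1))) : ℝ) : ℂ) * Complex.I := by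
        unfold Lf
        push_cast
        ring
      rw [e, Complex.add_re, Complex.ofReal_re, Complex.re_ofReal_mul, Complex.I_re, mul_zero,
        add_zero]
    have hs : ∑ r, p.1 (r + 1) ^ 2 = ∑ r, p.1 r ^ 2 := shiftR (fun s => p.1 s ^ 2)
    have hb : ∑ r, ((p.1 r ^ 2 - p.1 (r + 1) ^ 2) / 4 + (p.1 r ^ 2 + p.2 r ^ 2) / 2) ≤
        ∑ r, ((p.1 r) ^ 2 + (p.2 r) ^ 2 - p.2 r * ((p.1 r + p.1 (r + 1)) / 2)) := by
      refine Finset.sum_le_sum fun r _ => ?_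
      nlinarith [sq_nonneg (p.2 r - (p.1 r + p.1 (r + 1)) / 2), sq_nonneg (p.1 r - p.1 (r + 1))]
    have hb2 : ∑ r, ((p.1 r ^ 2 - p.1 (r + 1) ^ 2) / 4 + (p.1 r ^ 2 + p.2 r ^ 2) / 2) =
        (∑ r, p.1 r ^ 2 + ∑ r, p.2 r ^ 2) / 2 := by
      rw [Finset.sum_add_distrib, ← Finset.sum_div, ← Finset.sum_div, Finset.sum_sub_distrib, hs,
        Finset.sum_add_distrib]
      ring
    rw [hb2] at hb
    rw [Complex.neg_re, hre, ← Finset.mul_sum, ← Finset.mul_sum]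
    nlinarith [mul_le_mul_of_nonneg_left hb hal.le]

/-- the two numbers -/
noncomputable def pp : ℝ := (√7 + √3) / 2
noncomputable def qq : ℝ := (√7 - √3) / 2

lemma pq_one : pp * qq = 1 := by
  have h7 : √(7 : ℝ) ^ 2 = 7 := Real.sq_sqrt (by norm_num)
  have h3 : √(3 : ℝ) ^ 2 = 3 := Real.sq_sqrt (by norm_num)
  unfold pp qq
  linear_combination (1 / 4) * h7 - (1 / 4) * h3

lemma pq_five : pp ^ 2 + qq ^ 2 = 5 := by
  have h7 : √(7 : ℝ) ^ 2 = 7 := Real.sq_sqrt (by norm_num)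
  have h3 : √(3 : ℝ) ^ 2 = 3 := Real.sq_sqrt (by norm_num)
  unfold pp qq
  linear_combination (1 / 2) * h7 + (1 / 2) * h3

lemma pq_pos (n : ℕ) [NeZero n] : 0 < pp ^ n - qq ^ n := by
  have h3 : 0 < √(3 : ℝ) := by positivity
  have h37 : √(3 : ℝ) < √7 := Real.sqrt_lt_sqrt (by norm_num) (by norm_num)
  have hq : 0 ≤ qq := by
    unfold qq
    linarith
  have hlt : qq < pp := by
    unfold pp qq
    linarith
  have := pow_lt_pow_left₀ hlt hq (NeZero.ne n)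
  linarith

/-- the integral in the first variables -/
lemma int_first : ∫ u : Fin n ⊕ Fin n → ℝ, Complex.exp (-(Hq (fun r => u (Sum.inl r))
    (fun r => u (Sum.inr r)))) =
    ((√(π / al) : ℝ) : ℂ) ^ n * (((√(π / (al / 4))) ^ n / (pp ^ n - qq ^ n) : ℝ) : ℂ) := by
  have h := (volume_measurePreserving_sumPiEquivProdPi (fun _ : Fin n ⊕ Fin n => ℝ)).integral_comp'
    (fun p : (Fin n → ℝ) × (Fin n → ℝ) => Complex.exp (-(Hq p.1 p.2)))
  have h' : ∫ u : Fin n ⊕ Fin n → ℝ, Complex.exp (-(Hq (fun r => u (Sum.inl r))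
    (fun r => u (Sum.inr r)))) = ∫ p : (Fin n → ℝ) × (Fin n → ℝ), Complex.exp (-(Hq p.1 p.2)) := h
  rw [h']
  have h2 := integral_prod (μ := (volume : Measure (Fin n → ℝ))) (ν := (volume : Measure (Fin n → ℝ)))
    (fun p : (Fin n → ℝ) × (Fin n → ℝ) => Complex.exp (-(Hq p.1 p.2))) int_ab
  have h3 : ∫ p : (Fin n → ℝ) × (Fin n → ℝ), Complex.exp (-(Hq p.1 p.2)) =
    ∫ a : Fin n → ℝ, ∫ b : Fin n → ℝ, Complex.exp (-(Hq a b)) := h2
  rw [h3]
  simp only [int_b]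
  rw [integral_const_mul, integral_complex_ofReal,
    int_circ n (by have := al_pos; positivity : (0 : ℝ) < al / 4) (pq_pos n) pq_one pq_five]

/-- the whole integral for zero twist -/
theorem int_tot : ∫ v : (Iv n → ℝ) × ℝ, Complex.exp (-(RX n kap v : ℂ) - Complex.I * (SX n 0 v : ℂ)) =
    (((√(π / al) : ℝ) : ℂ) ^ n * (((√(π / (al / 4))) ^ n / (pp ^ n - qq ^ n) : ℝ) : ℂ)) *
      ((√(π / (al * n)) : ℝ) : ℂ) * ((√π : ℝ) : ℂ) := by
  have e1 : ∀ v : (Iv n → ℝ) × ℝ, Complex.exp (-(RX n kap v : ℂ) - Complex.I * (SX n 0 v : ℂ)) =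
      (Complex.exp (-(Hq (fun r => v.1 (va r)) (fun r => v.1 (vb r)))) *
        ((Real.exp (-(al * n) * (v.1 vs) ^ 2) : ℝ) : ℂ)) *
        ((Real.exp (-1 * v.2 ^ 2) : ℝ) : ℂ) := by
    intro v
    rw [Complex.ofReal_exp, Complex.ofReal_exp, ← Complex.exp_add, ← Complex.exp_add]
    congr 1
    have := form_eq v
    push_cast
    linear_combination -this
  simp only [e1]
  have h1 := integral_prod_mul (μ := (volume : Measure (Iv n → ℝ))) (ν := (volume : Measure ℝ))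
    (fun w : Iv n → ℝ => Complex.exp (-(Hq (fun r => w (va r)) (fun r => w (vb r)))) *
        ((Real.exp (-(al * n) * (w vs) ^ 2) : ℝ) : ℂ))
    (fun x : ℝ => ((Real.exp (-1 * x ^ 2) : ℝ) : ℂ))
  refine h1.trans ?_
  rw [integral_complex_ofReal, integral_gaussian, div_one]
  congr 1
  have h := (volume_measurePreserving_sumPiEquivProdPi
    (fun _ : (Fin n ⊕ Fin n) ⊕ Unit => ℝ)).integral_comp'
    (fun p : (Fin n ⊕ Fin n → ℝ) × (Unit → ℝ) => Complex.exp (-(Hq (fun r => p.1 (Sum.inl r))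
      (fun r => p.1 (Sum.inr r)))) * ((Real.exp (-(al * n) * (p.2 ()) ^ 2) : ℝ) : ℂ))
  refine h.trans ?_
  have h2 := integral_prod_mul (μ := (volume : Measure (Fin n ⊕ Fin n → ℝ)))
    (ν := (volume : Measure (Unit → ℝ)))
    (fun u : Fin n ⊕ Fin n → ℝ => Complex.exp (-(Hq (fun r => u (Sum.inl r))
      (fun r => u (Sum.inr r)))))
    (fun x : Unit → ℝ => ((Real.exp (-(al * n) * (x ()) ^ 2) : ℝ) : ℂ))
  refine h2.trans ?_
  rw [int_first]
  congr 1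
  rw [integral_complex_ofReal]
  congr 1
  have h3 := (volume_preserving_funUnique Unit ℝ).integral_comp'
    (fun x : ℝ => Real.exp (-(al * n) * x ^ 2))
  exact h3.trans (integral_gaussian _)

end Run7.h116.VY
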