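import Pool.Agent.Y936.TKX.Gbd
import Pool.Agent.Y407.TK.Lap
import Pool.Agent.Y86.TK.Gau

/-!
# The leading coefficient of the sums over a lattice
-/

set_option autoImplicit false

namespace Run7.h116.VY

open Finset Filter Topology MeasureTheory Pool.Agent.Y472.K
open scoped Real

section

variable {ι : Type} [Fintype ι] [DecidableEq ι]

lemma mem_nrs {ws : ι → ℝ} {ρ : ℝ} {N : ℕ} (hN : 1 ≤ N)
    {k : ι → ℕ} : k ∈ nrs ws ρ N ↔ ∀ i, |(k i : ℝ) / N - ws i| ≤ ρ := by
  unfold nrs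
  rw [Fintype.mem_piFinset]
  constructor
  · intro h i
    exact (mem_filter.1 (h i)).2
  · intro h i
    rw [mem_filter, mem_range]
    refine ⟨?_, h i⟩
    have hN0 : (0 : ℝ) < N := by exact_mod_cast hN
    have h1 := (abs_le.1 (h i)).2
    have h2 : (k i : ℝ) ≤ (ws i + ρ) * N := by
      rw [← div_le_iff₀ hN0]
      linarith
    have h3 : (k i : ℝ) ≤ (⌈(ws i + ρ) * N⌉₊ : ℝ) := h2.trans (Nat.le_ceil _)
    have h4 : k i ≤ ⌈(ws i + ρ) * N⌉₊ := by exact_mod_cast h3
    omega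

/-- integers -/
def ci (k : ι → ℕ) : ι → ℤ := fun i => (k i : ℤ)
/-- natural numbers -/
def cn' (k : ι → ℤ) : ι → ℕ := fun i => (k i).toNat

omit [Fintype ι] [DecidableEq ι] in
lemma cn_ci (k : ι → ℕ) : cn' (ci k) = k := by
  funext i
  simp [cn', ci]

omit [Fintype ι] [DecidableEq ι] in
lemma ci_inj : Function.Injective (ci (ι := ι)) := fun a b h => by
  rw [← cn_ci a, h, cn_ci]

open Classical in
/-- the terms -/
noncomputable def fz (ws : ι → ℝ) (D : ℝ) (T : ℕ → (ι → ℕ) → ℝ → ℂ) (ρ ρ' : ℝ) (N : ℕ) (k : ι → ℤ)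
    (x : ℝ) : ℂ :=
  if k ∈ (nrs ws ρ N).image ci then (Set.Ioc (-ρ') ρ').indicator (fun x =>
    Complex.exp (-(N * D)) * T N (cn' k) x) x else 0

open Classical in
lemma fz_sum (ws : ι → ℝ) (D : ℝ) (T : ℕ → (ι → ℕ) → ℝ → ℂ) (ρ : ℝ) {ρ' : ℝ} (hρ' : 0 < ρ') (N : ℕ) :
    ∑' k : ι → ℤ, ∫ x, fz ws D T ρ ρ' N k x = Complex.exp (-(N * D)) *
      ∑ k ∈ nrs ws ρ N, ∫ x in (-ρ')..ρ', T N k x := by
  rw [tsum_eq_sum (s := (nrs ws ρ N).image ci)]
  · rw [sum_image fun c _ c' _ h => ci_inj h, mul_sum]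
    refine sum_congr rfl fun c hc => ?_
    have h1 : ∀ x, fz ws D T ρ ρ' N (ci c) x = (Set.Ioc (-ρ') ρ').indicator (fun x =>
        Complex.exp (-(N * D)) * T N c x) x := by
      intro x
      unfold fz
      rw [if_pos (mem_image_of_mem _ hc), cn_ci]
    simp only [h1]
    rw [integral_indicator measurableSet_Ioc, ← intervalIntegral.integral_of_le (by linarith),
      intervalIntegral.integral_const_mul]
  · intro k hk
    have h1 : ∀ x, fz ws D T ρ ρ' N k x = 0 := by
      intro x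
      unfold fz
      rw [if_neg hk]
    simp only [h1, integral_zero]

omit [DecidableEq ι] in
lemma quad_cont {R S : QuadraticForm ℝ ((ι → ℝ) × ℝ)} (hR : R.PosDef) :
    (Continuous fun v => R v) ∧ Continuous fun v => S v := by
  obtain ⟨n, L, β, h1, h2⟩ := Pool.Agent.Y86.TK.diag R S hR
  let L' : ((ι → ℝ) × ℝ) ≃L[ℝ] (Fin n → ℝ) := L.toContinuousLinearEquiv
  have hLc : ∀ i, Continuous fun v => L v i := fun i => (continuous_apply i).comp L'.continuous
  constructor
  · simp only [h1]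
    exact continuous_finsetSum _ fun i _ => (hLc i).pow 2
  · simp only [h2]
    exact continuous_finsetSum _ fun i _ => continuous_const.mul ((hLc i).pow 2)

omit [DecidableEq ι] in
/-- the limit of the exponent -/
lemma ax_lim {Ψ : (ι → ℂ) × ℂ → ℂ} {ws : ι → ℝ} {D : ℝ} {R S : QuadraticForm ℝ ((ι → ℝ) × ℝ)}
    (hA : AX Ψ ws D R S) {u : ℕ → (ι → ℝ) × ℝ} {v : (ι → ℝ) × ℝ}
    (hu : Tendsto (fun N : ℕ => √(N : ℝ) • u N) atTop (𝓝 v)) :
    Tendsto (fun N : ℕ => (N : ℂ) * (Ψ (cst (fun i => ws i + (u N).1 i, (u N).2)) - D)) atTop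
      (𝓝 (-(R v : ℂ) - Complex.I * (S v : ℂ))) := by
  obtain ⟨r, C, hr, htay⟩ := hA.tay
  obtain ⟨hRc, hSc⟩ := quad_cont (S := S) hA.pos
  have hs0 : Tendsto (fun N : ℕ => √(N : ℝ)) atTop atTop :=
    (Real.tendsto_sqrt_atTop).comp tendsto_natCast_atTop_atTop
  have hs : Tendsto (fun N : ℕ => (√(N : ℝ))⁻¹) atTop (𝓝 0) := hs0.inv_tendsto_atTop
  have hu0 : Tendsto u atTop (𝓝 0) := by
    have h1 := hs.smul hu
    rw [zero_smul] at h1
    refine h1.congr' ?_
    filter_upwards [hs0.eventually_gt_atTop 0] with N hN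
    rw [smul_smul, inv_mul_cancel₀ hN.ne', one_smul]
  -- the error
  have herr : Tendsto (fun N : ℕ => (N : ℂ) * (Ψ (cst (fun i => ws i + (u N).1 i, (u N).2)) - D +
      R (u N) + Complex.I * S (u N))) atTop (𝓝 0) := by
    have h1 : Tendsto (fun N : ℕ => |C| * ‖√(N : ℝ) • u N‖ ^ 3 * (√(N : ℝ))⁻¹) atTop (𝓝 0) := by
      have h2 := ((hu.norm.pow 3).const_mul |C|).mul hs
      rw [mul_zero] at h2
      exact h2
    refine squeeze_zero_norm' ?_ h1
    have h3 : ∀ᶠ N in atTop, ‖u N‖ < r := by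
      have := hu0.norm
      rw [norm_zero] at this
      exact this.eventually (gt_mem_nhds hr)
    filter_upwards [h3, eventually_gt_atTop 0] with N h4 h5
    have hNr : (0 : ℝ) < N := by exact_mod_cast h5
    have hsp : 0 < √(N : ℝ) := Real.sqrt_pos.2 hNr
    have hss : √(N : ℝ) * √(N : ℝ) = N := Real.mul_self_sqrt hNr.le
    rw [norm_mul, Complex.norm_natCast, norm_smul, Real.norm_of_nonneg hsp.le]
    have h6 := htay (u N) h4
    have h7 : C * ‖u N‖ ^ 3 ≤ |C| * ‖u N‖ ^ 3 :=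
      mul_le_mul_of_nonneg_right (le_abs_self C) (by positivity)
    have e : |C| * (√(N : ℝ) * ‖u N‖) ^ 3 * (√(N : ℝ))⁻¹ = N * (|C| * ‖u N‖ ^ 3) := by
      nth_rewrite 3 [← hss]
      field_simp
    rw [e]
    exact mul_le_mul_of_nonneg_left (h6.trans h7) hNr.le
  -- the quadratic forms
  have hq : ∀ Q : QuadraticForm ℝ ((ι → ℝ) × ℝ), (Continuous fun v => Q v) →
      Tendsto (fun N : ℕ => (N : ℂ) * (Q (u N) : ℂ)) atTop (𝓝 (Q v : ℂ)) := by
    intro Q hQ
    have h1 : Tendsto (fun N : ℕ => Q (√(N : ℝ) • u N)) atTop (𝓝 (Q v)) := (hQ.tendsto v).comp hu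
    have h2 := (Complex.continuous_ofReal.tendsto _).comp h1
    refine h2.congr fun N => ?_
    show ((Q (√(N : ℝ) • u N) : ℝ) : ℂ) = _
    rw [QuadraticMap.map_smul, Real.mul_self_sqrt (Nat.cast_nonneg N)]
    simp
  have h1 := (herr.sub (hq R hRc)).sub ((hq S hSc).const_mul Complex.I)
  rw [zero_sub] at h1
  refine h1.congr fun N => ?_
  ring

/-- **the leading coefficient** -/
theorem lead {Ψ : (ι → ℂ) × ℂ → ℂ} {ws : ι → ℝ} {D : ℝ} {R S : QuadraticForm ℝ ((ι → ℝ) × ℝ)}
    (hA : AX Ψ ws D R S) (hws : ∀ i, 0 < ws i) {T : ℕ → (ι → ℕ) → ℝ → ℂ}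
    (hT : ∀ N k, Continuous (T N k)) (hL : LX Ψ ws 1 T) : ∃ E : ℂ, E ≠ 0 ∧
    (∀ (φ : ℕ → ℕ) (k : ℕ → ι → ℕ), Tendsto φ atTop atTop →
      (∀ᶠ M in atTop, ∀ i, (k M i : ℝ) / φ M = ws i) →
      Tendsto (fun M => Complex.exp (-(φ M * D)) * T (φ M) (k M) 0) atTop (𝓝 E)) ∧
    ∃ r : ℝ, 0 < r ∧ ∀ ρ ρ' : ℝ, 0 < ρ → ρ ≤ r → 0 < ρ' →
      ρ' ≤ r → Tendsto (fun N : ℕ => ((√(N : ℝ) : ℝ) : ℂ) / ((√(N : ℝ) : ℝ) : ℂ) ^ Fintype.card ι *
        Complex.exp (-(N * D)) * ∑ k ∈ nrs ws ρ N, ∫ x in (-ρ')..ρ', T N k x) atTop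
          (𝓝 (E * ∫ v, Complex.exp (-(R v : ℂ) - Complex.I * (S v : ℂ)))) := by
  classical
  obtain ⟨τ, hτ, r₁, C₁, hr₁, hLX⟩ := hL
  obtain ⟨r₂, c, C₂, hr₂, hc, -, -, hre⟩ := Pool.Agent.Y936.TKX.gbd ι Ψ ws D R S hA
  have hτ0 : ContinuousAt (τ 0) (cst (ws, 0)) := (hτ 0 one_pos).continuousAt
  obtain ⟨r₃, hr₃, hb⟩ := Metric.continuousAt_iff.1 hτ0 1 one_pos
  obtain ⟨r, hrdef⟩ : ∃ r : ℝ, r = min (min r₁ r₂) r₃ / 2 := ⟨_, rfl⟩
  have hr : 0 < r := by rw [hrdef]; positivity
  have hr1 : r < r₁ := by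
    have := min_le_left (min r₁ r₂) r₃
    have := min_le_left r₁ r₂
    linarith
  have hr2 : r < r₂ := by
    have := min_le_left (min r₁ r₂) r₃
    have := min_le_right r₁ r₂
    linarith
  have hr3 : r < r₃ := by
    have := min_le_right (min r₁ r₂) r₃
    linarith
  have hΨ0 : Ψ (cst (ws, 0)) = D := by
    obtain ⟨r₀, C₀, hr₀, ht₀⟩ := hA.tay
    have h1 := ht₀ 0 (by rw [norm_zero]; exact hr₀)
    have h2 : (fun i => ws i + (0 : (ι → ℝ) × ℝ).1 i, (0 : (ι → ℝ) × ℝ).2) = (ws, (0 : ℝ)) := by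
      ext i <;> simp
    rw [h2, map_zero, map_zero, norm_zero] at h1
    have h3 : ‖Ψ (cst (ws, 0)) - D‖ ≤ 0 := by
      simpa using h1
    exact sub_eq_zero.1 (norm_le_zero_iff.1 h3)
  refine ⟨Complex.exp (τ 0 (cst (ws, 0))), Complex.exp_ne_zero _, ?_, r, hr, ?_⟩
  · intro φ k hφ hk
    have hkey : ∀ᶠ M in atTop, ∃ e : ℂ, ‖e‖ ≤ |C₁| * (φ M : ℝ)⁻¹ ∧
        Complex.exp (-(φ M * D)) * T (φ M) (k M) 0 = Complex.exp (τ 0 (cst (ws, 0)) + e) := by
      filter_upwards [hφ.eventually hLX, hφ.eventually (eventually_ge_atTop 1), hk] with M h3 h4 h5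
      have hNp : (0 : ℝ) < φ M := by exact_mod_cast h4
      obtain ⟨e, he, heq⟩ := h3 (k M) 0 (fun i => by rw [h5 i, sub_self, abs_zero]; exact hr₁)
        (by rw [abs_zero]; exact hr₁)
      refine ⟨e, ?_, ?_⟩
      · refine he.trans ?_
        rw [pow_one, div_eq_mul_inv]
        exact mul_le_mul_of_nonneg_right (le_abs_self _) (by positivity)
      · have hpts : cst (fun i => (k M i : ℝ) / φ M, (0 : ℝ)) = cst (ws, 0) := by
          congr 1
          refine Prod.ext ?_ rfl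
          funext i
          exact h5 i
        rw [heq, hpts, hΨ0, ← Complex.exp_add, sum_range_one, pow_zero, div_one]
        congr 1
        ring
    obtain ⟨e, he⟩ := hkey.choice
    have he0 : Tendsto e atTop (𝓝 0) := by
      have h1 : Tendsto (fun M : ℕ => |C₁| * (φ M : ℝ)⁻¹) atTop (𝓝 0) := by
        have := ((tendsto_inv_atTop_nhds_zero_nat (𝕜 := ℝ)).comp hφ).const_mul |C₁|
        rwa [mul_zero] at this
      refine squeeze_zero_norm' ?_ h1
      filter_upwards [he] with N hN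
      exact hN.1
    have hfin := (Complex.continuous_exp.tendsto _).comp (he0.const_add (τ 0 (cst (ws, 0))))
    rw [add_zero] at hfin
    refine hfin.congr' ?_
    filter_upwards [he] with N hN
    exact hN.2.symm
  rw [← integral_const_mul]
  intro ρ ρ' hρ hρr hρ' hρ'r
  -- the points
  have hpt : ∀ (N : ℕ) (k : ι → ℕ) (x : ℝ), (fun i => (k i : ℝ) / N, x) =
      (ws, (0 : ℝ)) + ((fun i => (k i : ℝ) / N - ws i, x) : (ι → ℝ) × ℝ) := by
    intro N k x
    ext i
    · simp
    · simp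
  have hsm : ∀ (N : ℕ) (k : ι → ℕ) (x : ℝ), (∀ i, |(k i : ℝ) / N - ws i| ≤ r) → |x| ≤ r →
      ‖((fun i => (k i : ℝ) / N - ws i, x) : (ι → ℝ) × ℝ)‖ ≤ r := by
    intro N k x h1 h2
    rw [Prod.norm_def]
    refine max_le ?_ h2
    rw [pi_norm_le_iff_of_nonneg hr.le]
    exact h1
  have hτb : ∀ (N : ℕ) (k : ι → ℕ) (x : ℝ), (∀ i, |(k i : ℝ) / N - ws i| ≤ r) → |x| ≤ r →
      ‖τ 0 (cst (fun i => (k i : ℝ) / N, x)) - τ 0 (cst (ws, 0))‖ < 1 := by
    intro N k x h1 h2
    have h3 := @hb (cst (fun i => (k i : ℝ) / N, x)) (by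
      rw [dist_eq_norm, hpt, Pool.Agent.Y936.TKX.cst_add, add_sub_cancel_left,
        Pool.Agent.Y936.TKX.cst_norm]
      exact (hsm N k x h1 h2).trans_lt hr3)
    rwa [dist_eq_norm] at h3
  set c' : ℝ := c / (Fintype.card ι + 1) with hc'
  have hc'0 : 0 < c' := by positivity
  set B : ℝ := ‖τ 0 (cst (ws, 0))‖ + 1 + |C₁| with hB
  have h := Pool.Agent.Y407.TK.lap ι (fz ws D T ρ ρ') (fun N i => ws i * N)
    (fun v => Complex.exp (τ 0 (cst (ws, 0))) * Complex.exp (-(R v : ℂ) - Complex.I * (S v : ℂ)))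
    (Real.exp B) c' hc'0 ?_ ?_ ?_
  · refine h.congr fun N => ?_
    rw [fz_sum ws D T ρ hρ' N]
    ring
  · -- measurability
    intro N k
    unfold fz
    by_cases hk : k ∈ (nrs ws ρ N).image ci
    · simp only [if_pos hk]
      exact ((hT N _).measurable.const_mul _).indicator measurableSet_Ioc
    · simp only [if_neg hk]
      exact measurable_const
  · -- domination
    filter_upwards [hLX, eventually_ge_atTop 1] with N hN hN1 k x
    have hNp : (0 : ℝ) < N := by exact_mod_cast hN1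
    have hN1r : (1 : ℝ) ≤ N := by exact_mod_cast hN1
    unfold fz
    split_ifs with hk
    · obtain ⟨k, hkn, rfl⟩ := mem_image.1 hk
      rw [cn_ci]
      rw [mem_nrs hN1] at hkn
      by_cases hx : x ∈ Set.Ioc (-ρ') ρ'
      · rw [Set.indicator_of_mem hx]
        have hx' : |x| ≤ r := abs_le.2 ⟨by linarith [hx.1], by linarith [hx.2]⟩
        have hk' : ∀ i, |(k i : ℝ) / N - ws i| ≤ r := fun i => (hkn i).trans hρr
        obtain ⟨e, he, heq⟩ := hN k x (fun i => (hk' i).trans_lt hr1) (hx'.trans_lt hr1)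
        have h1 := hre ((fun i => (k i : ℝ) / N - ws i, x) : (ι → ℝ) × ℝ) 0
          ((hsm N k x hk' hx').trans_lt hr2) (by rw [norm_zero]; exact hr₂)
        rw [norm_zero, add_zero, ← Pool.Agent.Y936.TKX.cst_add, ← hpt] at h1
        have h2 : ∑ i, ((k i : ℝ) / N - ws i) ^ 2 + x ^ 2 ≤ (Fintype.card ι + 1) *
            ‖((fun i => (k i : ℝ) / N - ws i, x) : (ι → ℝ) × ℝ)‖ ^ 2 := by
          have h3 : ∀ i ∈ (Finset.univ : Finset ι), ((k i : ℝ) / N - ws i) ^ 2 ≤
              ‖((fun i => (k i : ℝ) / N - ws i, x) : (ι → ℝ) × ℝ)‖ ^ 2 := by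
            intro i _
            rw [← sq_abs]
            refine pow_le_pow_left₀ (abs_nonneg _) ?_ 2
            exact (norm_le_pi_norm (fun i => (k i : ℝ) / N - ws i) i).trans
              (norm_fst_le ((fun i => (k i : ℝ) / N - ws i, x) : (ι → ℝ) × ℝ))
          have h4 : x ^ 2 ≤ ‖((fun i => (k i : ℝ) / N - ws i, x) : (ι → ℝ) × ℝ)‖ ^ 2 := by
            rw [← sq_abs]
            refine pow_le_pow_left₀ (abs_nonneg _) ?_ 2
            exact norm_snd_le ((fun i => (k i : ℝ) / N - ws i, x) : (ι → ℝ) × ℝ)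
          have h5 := Finset.sum_le_card_nsmul _ _ _ h3
          rw [Finset.card_univ, nsmul_eq_mul] at h5
          linarith
        have h6 : (Ψ (cst (fun i => (k i : ℝ) / N, x))).re ≤ D -
            c' * (∑ i, ((k i : ℝ) / N - ws i) ^ 2 + x ^ 2) := by
          have h7 : c' * (∑ i, ((k i : ℝ) / N - ws i) ^ 2 + x ^ 2) ≤
              c * ‖((fun i => (k i : ℝ) / N - ws i, x) : (ι → ℝ) × ℝ)‖ ^ 2 := by
            rw [hc', div_mul_eq_mul_div, div_le_iff₀ (by positivity)]
            have := mul_le_mul_of_nonneg_left h2 hc.le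
            linarith
          have h8 : C₂ * (0 : ℝ) ^ 2 = 0 := by ring
          linarith
        rw [heq, ← Complex.exp_add, Complex.norm_exp]
        have e9 : (∑ i, (((ci k i : ℤ) : ℝ) - ws i * N) ^ 2) / N =
            N * ∑ i, ((k i : ℝ) / N - ws i) ^ 2 := by
          rw [mul_sum, sum_div]
          refine sum_congr rfl fun i _ => ?_
          simp only [ci, Int.cast_natCast]
          field_simp
        rw [e9, ← Real.exp_add]
        refine Real.exp_le_exp.2 ?_
        have e10 : (-((N : ℂ) * (D : ℂ)) + ((N : ℂ) * Ψ (cst (fun i => (k i : ℝ) / N, x)) +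
            ∑ l ∈ range 1, τ l (cst (fun i => (k i : ℝ) / N, x)) / (N : ℂ) ^ l + e)).re =
            N * ((Ψ (cst (fun i => (k i : ℝ) / N, x))).re - D) +
              (τ 0 (cst (fun i => (k i : ℝ) / N, x))).re + e.re := by
          rw [sum_range_one, pow_zero, div_one]
          simp only [Complex.add_re, Complex.neg_re, Complex.mul_re, Complex.natCast_re,
            Complex.natCast_im, Complex.ofReal_re, Complex.ofReal_im, zero_mul, sub_zero, mul_zero]
          ring
        rw [e10]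
        have h11 : (τ 0 (cst (fun i => (k i : ℝ) / N, x))).re ≤ ‖τ 0 (cst (ws, 0))‖ + 1 := by
          have h12 := (hτb N k x hk' hx').le
          have h13 := norm_sub_norm_le (τ 0 (cst (fun i => (k i : ℝ) / N, x))) (τ 0 (cst (ws, 0)))
          have h14 := Complex.re_le_norm (τ 0 (cst (fun i => (k i : ℝ) / N, x)))
          linarith
        have h15 : e.re ≤ |C₁| := by
          have h16 := Complex.re_le_norm e
          have h17 : C₁ / (N : ℝ) ^ 1 ≤ |C₁| := by
            rw [pow_one, div_le_iff₀ hNp]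
            have := le_abs_self C₁
            have := abs_nonneg C₁
            nlinarith
          linarith
        have h18 := mul_le_mul_of_nonneg_left h6 hNp.le
        rw [hB]
        nlinarith
      · rw [Set.indicator_of_notMem hx, norm_zero]
        positivity
    · rw [norm_zero]
      positivity
  · -- the limit
    intro k x v hk hx
    have hs0 : Tendsto (fun N : ℕ => √(N : ℝ)) atTop atTop :=
      (Real.tendsto_sqrt_atTop).comp tendsto_natCast_atTop_atTop
    have hs : Tendsto (fun N : ℕ => (√(N : ℝ))⁻¹) atTop (𝓝 0) := hs0.inv_tendsto_atTop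
    -- the rescaled points
    obtain ⟨u, hu⟩ : ∃ u : ℕ → (ι → ℝ) × ℝ, ∀ N, u N = (fun i => (k N i : ℝ) / N - ws i, x N) :=
      ⟨_, fun _ => rfl⟩
    have hsu : Tendsto (fun N : ℕ => √(N : ℝ) • u N) atTop (𝓝 v) := by
      have h1 : Tendsto (fun N : ℕ => ((fun i => ((k N i : ℝ) - ws i * N) / √(N : ℝ)),
          √(N : ℝ) * x N)) atTop (𝓝 (v.1, v.2)) :=
        (tendsto_pi_nhds.mpr hk).prodMk_nhds hx
      refine h1.congr' ?_
      filter_upwards [eventually_gt_atTop 0] with N hN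
      have hNp : (0 : ℝ) < N := by exact_mod_cast hN
      have hsp : 0 < √(N : ℝ) := Real.sqrt_pos.2 hNp
      have hss : √(N : ℝ) * √(N : ℝ) = N := Real.mul_self_sqrt hNp.le
      rw [hu]
      refine Prod.ext ?_ rfl
      funext i
      show ((k N i : ℝ) - ws i * N) / √(N : ℝ) = √(N : ℝ) * ((k N i : ℝ) / N - ws i)
      rw [div_eq_iff hsp.ne']
      have e : √(N : ℝ) * ((k N i : ℝ) / N - ws i) * √(N : ℝ) =
          √(N : ℝ) * √(N : ℝ) * ((k N i : ℝ) / N - ws i) := by ring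
      rw [e, hss]
      field_simp
    have hu0 : Tendsto u atTop (𝓝 0) := by
      have h1 := hs.smul hsu
      rw [zero_smul] at h1
      refine h1.congr' ?_
      filter_upwards [hs0.eventually_gt_atTop 0] with N hN
      rw [smul_smul, inv_mul_cancel₀ hN.ne', one_smul]
    have hun : ∀ ε : ℝ, 0 < ε → ∀ᶠ N in atTop, ‖u N‖ < ε := by
      intro ε hε
      have := hu0.norm
      rw [norm_zero] at this
      exact this.eventually (gt_mem_nhds hε)
    have hax := ax_lim hA hsu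
    have hw : Tendsto (fun N => cst (fun i => ws i + (u N).1 i, (u N).2)) atTop (𝓝 (cst (ws, 0))) := by
      rw [tendsto_iff_norm_sub_tendsto_zero]
      have h1 : ∀ N, ‖cst (fun i => ws i + (u N).1 i, (u N).2) - cst (ws, 0)‖ = ‖u N‖ := by
        intro N
        have h2 : ((fun i => ws i + (u N).1 i, (u N).2) : (ι → ℝ) × ℝ) = (ws, 0) + u N := by
          ext i
          · simp
          · simp
        rw [h2, Pool.Agent.Y936.TKX.cst_add, add_sub_cancel_left, Pool.Agent.Y936.TKX.cst_norm]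
      simp only [h1]
      have := hu0.norm
      rwa [norm_zero] at this
    have hτl : Tendsto (fun N => τ 0 (cst (fun i => ws i + (u N).1 i, (u N).2))) atTop
        (𝓝 (τ 0 (cst (ws, 0)))) := hτ0.tendsto.comp hw
    -- the errors
    have hki : ∀ i, Tendsto (fun N => (k N i : ℝ) / N - ws i) atTop (𝓝 0) := by
      intro i
      have h1 : Tendsto (fun N => (u N).1) atTop (𝓝 (0 : (ι → ℝ) × ℝ).1) :=
        (continuous_fst.tendsto _).comp hu0
      have h2 := (tendsto_pi_nhds.1 h1) i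
      refine h2.congr fun N => ?_
      rw [hu]
    have hxi : Tendsto x atTop (𝓝 0) := by
      have h1 : Tendsto (fun N => (u N).2) atTop (𝓝 (0 : (ι → ℝ) × ℝ).2) :=
        (continuous_snd.tendsto _).comp hu0
      refine h1.congr fun N => ?_
      rw [hu]
    have hev1 : ∀ᶠ N in atTop, ∀ i, |(k N i : ℝ) / N - ws i| < min (ws i) ρ := by
      rw [eventually_all]
      intro i
      have := (hki i).eventually (Metric.ball_mem_nhds (0 : ℝ) (lt_min (hws i) hρ))
      simpa [Real.dist_eq] using this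
    have hev2 : ∀ᶠ N in atTop, |x N| < ρ' := by
      have := hxi.eventually (Metric.ball_mem_nhds (0 : ℝ) hρ')
      simpa [Real.dist_eq] using this
    have hkey : ∀ᶠ N : ℕ in atTop, ∃ e : ℂ, ‖e‖ ≤ |C₁| * (N : ℝ)⁻¹ ∧ fz ws D T ρ ρ' N (k N) (x N) =
        Complex.exp ((N : ℂ) * (Ψ (cst (fun i => ws i + (u N).1 i, (u N).2)) - D) +
          τ 0 (cst (fun i => ws i + (u N).1 i, (u N).2)) + e) := by
      filter_upwards [hev1, hev2, hLX, eventually_ge_atTop 1] with N h1 h2 h3 h4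
      have hNp : (0 : ℝ) < N := by exact_mod_cast h4
      have hk0 : ∀ i, 0 ≤ k N i := by
        intro i
        have h5 := (abs_lt.1 (h1 i)).1
        have h6 := min_le_left (ws i) ρ
        have h7 : 0 < (k N i : ℝ) / N := by linarith
        have h8 : 0 < (k N i : ℝ) := by
          have := mul_pos h7 hNp
          rwa [div_mul_cancel₀ _ hNp.ne'] at this
        have h9 : 0 < k N i := by exact_mod_cast h8
        exact h9.le
      have hcc : ci (cn' (k N)) = k N := by
        funext i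
        exact Int.toNat_of_nonneg (hk0 i)
      have hcr : ∀ i, ((cn' (k N) i : ℕ) : ℝ) = (k N i : ℝ) := by
        intro i
        have h5 : ((cn' (k N) i : ℕ) : ℤ) = k N i := congrFun hcc i
        exact_mod_cast congrArg (fun z : ℤ => (z : ℝ)) h5
      have hmem : cn' (k N) ∈ nrs ws ρ N := by
        rw [mem_nrs h4]
        intro i
        rw [hcr]
        exact (h1 i).le.trans (min_le_right _ _)
      have hkr : ∀ i, |((cn' (k N) i : ℕ) : ℝ) / N - ws i| < r₁ := by
        intro i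
        rw [hcr]
        exact ((h1 i).le.trans (min_le_right _ _)).trans_lt (hρr.trans_lt hr1)
      obtain ⟨e, he, heq⟩ := h3 (cn' (k N)) (x N) hkr ((h2.trans_le hρ'r).trans hr1)
      refine ⟨e, ?_, ?_⟩
      · refine he.trans ?_
        rw [pow_one, div_eq_mul_inv]
        exact mul_le_mul_of_nonneg_right (le_abs_self _) (by positivity)
      · have hpts : cst (fun i => ((cn' (k N) i : ℕ) : ℝ) / N, x N) =
            cst (fun i => ws i + (u N).1 i, (u N).2) := by
          congr 1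
          refine Prod.ext ?_ ?_
          · funext i
            show ((cn' (k N) i : ℕ) : ℝ) / N = ws i + (u N).1 i
            rw [hcr, hu]
            ring
          · show x N = (u N).2
            rw [hu]
        have hxm : x N ∈ Set.Ioc (-ρ') ρ' := ⟨(abs_lt.1 h2).1, (abs_lt.1 h2).2.le⟩
        unfold fz
        rw [if_pos (by rw [← hcc]; exact mem_image_of_mem _ hmem), Set.indicator_of_mem hxm, heq,
          ← Complex.exp_add, hpts, sum_range_one, pow_zero, div_one]
        congr 1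
        ring
    obtain ⟨e, he⟩ := hkey.choice
    have he0 : Tendsto e atTop (𝓝 0) := by
      have h1 : Tendsto (fun N : ℕ => |C₁| * (N : ℝ)⁻¹) atTop (𝓝 0) := by
        have := (tendsto_inv_atTop_nhds_zero_nat (𝕜 := ℝ)).const_mul |C₁|
        rwa [mul_zero] at this
      refine squeeze_zero_norm' ?_ h1
      filter_upwards [he] with N hN
      exact hN.1
    have hfin := (Complex.continuous_exp.tendsto _).comp ((hax.add hτl).add he0)
    rw [add_zero, Complex.exp_add, mul_comm] at hfin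
    refine hfin.congr' ?_
    filter_upwards [he] with N hN
    exact hN.2.symm

end

end Run7.h116.VY
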