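import Mathlib

/-!
# Asymptotic expansions in powers of `1 / N`
-/

set_option autoImplicit false

namespace Run7.h116.VY

open Finset Filter Topology

/-- `f N` has the asymptotic expansion `∑ a_j N^{-j}` -/
def Xp (f a : ℕ → ℂ) : Prop := ∀ K : ℕ, ∃ C : ℝ, ∀ᶠ N : ℕ in atTop,
  ‖f N - ∑ j ∈ range K, a j * ((N : ℂ)⁻¹) ^ j‖ ≤ C * ((N : ℝ)⁻¹) ^ K

variable {f g a b : ℕ → ℂ}

lemma Xp.lim (h : Xp f a) : Tendsto f atTop (𝓝 (a 0)) := by
  obtain ⟨C, hC⟩ := h 1
  have h2 : Tendsto (fun N : ℕ => C * ((N : ℝ)⁻¹) ^ 1) atTop (𝓝 0) := by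
    have h3 := (tendsto_inv_atTop_zero.comp tendsto_natCast_atTop_atTop :
      Tendsto (fun N : ℕ => ((N : ℝ))⁻¹) atTop (𝓝 0)).const_mul C
    rw [mul_zero] at h3
    refine h3.congr fun N => ?_
    show C * ((N : ℝ))⁻¹ = _
    rw [pow_one]
  have h4 : Tendsto (fun N => f N - a 0) atTop (𝓝 0) := by
    refine squeeze_zero_norm' ?_ h2
    filter_upwards [hC] with N hN
    simpa using hN
  have h5 := h4.add_const (a 0)
  rw [zero_add] at h5
  exact h5.congr fun N => by ring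

lemma Xp.congr (h : Xp f a) (hfg : ∀ᶠ N in atTop, f N = g N) : Xp g a := by
  intro K
  obtain ⟨C, hC⟩ := h K
  refine ⟨C, ?_⟩
  filter_upwards [hC, hfg] with N h1 h2
  rwa [← h2]

lemma Xp.const_mul (h : Xp f a) (c : ℂ) : Xp (fun N => c * f N) (fun j => c * a j) := by
  intro K
  obtain ⟨C, hC⟩ := h K
  refine ⟨‖c‖ * C, ?_⟩
  filter_upwards [hC] with N h1
  have e : c * f N - ∑ j ∈ range K, c * a j * ((N : ℂ)⁻¹) ^ j =
      c * (f N - ∑ j ∈ range K, a j * ((N : ℂ)⁻¹) ^ j) := by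
    rw [mul_sub, mul_sum]
    congr 1
    exact sum_congr rfl fun j _ => by ring
  rw [e, norm_mul, mul_assoc]
  exact mul_le_mul_of_nonneg_left h1 (norm_nonneg _)

/-- the Cauchy product -/
lemma Xp.mul (hf : Xp f a) (hg : Xp g b) :
    Xp (fun N => f N * g N) (fun j => ∑ i ∈ range (j + 1), a i * b (j - i)) := by
  intro K
  obtain ⟨C, hC⟩ := hf K
  obtain ⟨C', hC'⟩ := hg K
  set A : ℝ := ∑ j ∈ range K, ‖a j‖ with hA
  set B : ℝ := ∑ j ∈ range K, ‖b j‖ with hB
  have hA0 : 0 ≤ A := Finset.sum_nonneg fun _ _ => norm_nonneg _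
  have hB0 : 0 ≤ B := Finset.sum_nonneg fun _ _ => norm_nonneg _
  refine ⟨|C| * (B + |C'|) + A * |C'| + A * B, ?_⟩
  filter_upwards [hC, hC', eventually_ge_atTop 1] with N h1 h2 h3
  have hN1 : (1 : ℝ) ≤ N := by exact_mod_cast h3
  set x : ℂ := (N : ℂ)⁻¹ with hx
  set y : ℝ := (N : ℝ)⁻¹ with hy
  have hxy : ‖x‖ = y := by rw [hx, hy, norm_inv, Complex.norm_natCast]
  have hy0 : 0 ≤ y := by rw [hy]; positivity
  have hy1 : y ≤ 1 := inv_le_one_of_one_le₀ hN1
  have hyK0 : 0 ≤ y ^ K := by positivity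
  have hyK : y ^ K ≤ 1 := pow_le_one₀ hy0 hy1
  have hpoly : ∀ c : ℕ → ℂ, ‖∑ j ∈ range K, c j * x ^ j‖ ≤ ∑ j ∈ range K, ‖c j‖ := by
    intro c
    refine norm_sum_le_of_le _ fun j _ => ?_
    rw [norm_mul, norm_pow, hxy]
    exact mul_le_of_le_one_right (norm_nonneg _) (pow_le_one₀ hy0 hy1)
  set P := ∑ j ∈ range K, a j * x ^ j with hP
  set Q := ∑ j ∈ range K, b j * x ^ j with hQ
  have hPb : ‖P‖ ≤ A := hpoly a
  have hQb : ‖Q‖ ≤ B := hpoly b
  have h1' : ‖f N - P‖ ≤ |C| * y ^ K :=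
    h1.trans (mul_le_mul_of_nonneg_right (le_abs_self C) hyK0)
  have h2' : ‖g N - Q‖ ≤ |C'| * y ^ K :=
    h2.trans (mul_le_mul_of_nonneg_right (le_abs_self C') hyK0)
  have hg' : ‖g N‖ ≤ B + |C'| := by
    have e : g N = Q + (g N - Q) := by ring
    rw [e]
    refine (norm_add_le _ _).trans (add_le_add hQb (h2'.trans ?_))
    exact mul_le_of_le_one_right (abs_nonneg _) hyK
  -- the product of the polynomials
  have e1 : ∑ j ∈ range K, (∑ i ∈ range (j + 1), a i * b (j - i)) * x ^ j =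
      ∑ i ∈ range K, ∑ k ∈ range (K - i), a i * b k * x ^ (i + k) := by
    rw [← Finset.sum_range_diag_flip K fun i k => a i * b k * x ^ (i + k)]
    refine sum_congr rfl fun j _ => ?_
    rw [sum_mul]
    refine sum_congr rfl fun i hi => ?_
    rw [mem_range] at hi
    have : i + (j - i) = j := by omega
    rw [this]
  have e2 : P * Q - ∑ j ∈ range K, (∑ i ∈ range (j + 1), a i * b (j - i)) * x ^ j =
      ∑ i ∈ range K, ∑ k ∈ Ico (K - i) K, a i * b k * x ^ (i + k) := by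
    rw [e1, hP, hQ, sum_mul_sum, ← sum_sub_distrib]
    refine sum_congr rfl fun i _ => ?_
    have e3 : ∑ k ∈ range K, a i * x ^ i * (b k * x ^ k) =
        ∑ k ∈ range (K - i), a i * b k * x ^ (i + k) + ∑ k ∈ Ico (K - i) K, a i * b k * x ^ (i + k) := by
      rw [range_eq_Ico, range_eq_Ico, sum_Ico_consecutive _ (Nat.zero_le _) (Nat.sub_le _ _)]
      refine sum_congr rfl fun k _ => ?_
      rw [pow_add]
      ring
    rw [e3]
    ring
  have h4 : ‖P * Q - ∑ j ∈ range K, (∑ i ∈ range (j + 1), a i * b (j - i)) * x ^ j‖ ≤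
      A * B * y ^ K := by
    rw [e2]
    calc _ ≤ ∑ i ∈ range K, ‖a i‖ * B * y ^ K := by
          refine norm_sum_le_of_le _ fun i _ => ?_
          calc ‖∑ k ∈ Ico (K - i) K, a i * b k * x ^ (i + k)‖
              ≤ ∑ k ∈ Ico (K - i) K, ‖a i‖ * ‖b k‖ * y ^ K := by
                refine norm_sum_le_of_le _ fun k hk => ?_
                rw [mem_Ico] at hk
                rw [norm_mul, norm_mul, norm_pow, hxy]
                refine mul_le_mul_of_nonneg_left ?_ (by positivity)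
                exact pow_le_pow_of_le_one hy0 hy1 (by omega)
            _ ≤ ∑ k ∈ range K, ‖a i‖ * ‖b k‖ * y ^ K := by
                refine sum_le_sum_of_subset_of_nonneg ?_ fun k _ _ => by positivity
                intro k hk
                rw [mem_Ico] at hk
                exact mem_range.2 hk.2
            _ = ‖a i‖ * B * y ^ K := by
                rw [hB, ← sum_mul, ← mul_sum]
      _ = A * B * y ^ K := by rw [hA, ← sum_mul, ← sum_mul]
  have e3 : f N * g N - ∑ j ∈ range K, (∑ i ∈ range (j + 1), a i * b (j - i)) * x ^ j =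
      (f N - P) * g N + P * (g N - Q) +
        (P * Q - ∑ j ∈ range K, (∑ i ∈ range (j + 1), a i * b (j - i)) * x ^ j) := by ring
  rw [e3]
  calc _ ≤ ‖(f N - P) * g N‖ + ‖P * (g N - Q)‖ +
        ‖P * Q - ∑ j ∈ range K, (∑ i ∈ range (j + 1), a i * b (j - i)) * x ^ j‖ := norm_add₃_le
    _ ≤ |C| * y ^ K * (B + |C'|) + A * (|C'| * y ^ K) + A * B * y ^ K := by
        rw [norm_mul, norm_mul]
        gcongr
    _ = _ := by ring

/-- the exponential function -/
lemma Xp.exp (c : ℂ) : Xp (fun N => Complex.exp (c / N)) (fun j => c ^ j / (j.factorial : ℂ)) := by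
  intro K
  have hsm : ∀ᶠ N : ℕ in atTop, ‖c / (N : ℂ)‖ ≤ 1 := by
    have h1 : Tendsto (fun N : ℕ => c / (N : ℂ)) atTop (𝓝 0) := tendsto_const_div_atTop_nhds_zero_nat _
    have h2 := h1.norm
    rw [norm_zero] at h2
    filter_upwards [h2.eventually (gt_mem_nhds one_pos)] with N hN
    exact hN.le
  rcases Nat.eq_zero_or_pos K with rfl | hK
  · refine ⟨Real.exp 1, ?_⟩
    filter_upwards [hsm] with N hN
    rw [range_zero, sum_empty, sub_zero, pow_zero, mul_one, Complex.norm_exp]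
    exact Real.exp_le_exp.2 ((Complex.re_le_norm _).trans hN)
  · refine ⟨‖c‖ ^ K * ((K.succ : ℝ) * ((K.factorial * K : ℝ))⁻¹), ?_⟩
    filter_upwards [hsm] with N hN
    have h1 := Complex.exp_bound hN hK
    have e : ∑ j ∈ range K, c ^ j / (j.factorial : ℂ) * ((N : ℂ)⁻¹) ^ j =
        ∑ m ∈ range K, (c / (N : ℂ)) ^ m / (m.factorial : ℂ) := by
      refine sum_congr rfl fun j _ => ?_
      rw [div_pow, inv_pow]
      ring
    rw [e]
    refine h1.trans (le_of_eq ?_)
    rw [norm_div, Complex.norm_natCast, div_pow, inv_pow]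
    ring

end Run7.h116.VY
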