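import Pool.Agent.Run7.h116.VY.Exp
import Pool.Agent.Run7.h116.VY.Xp
import Pool.Agent.Run7.h116.VY.Ev
import Pool.Agent.Run7.h116.VY.Gi
import Pool.Agent.Run7.h116.VX.Core
import Pool.Agent.Y604.TK.Real

/-!
# The asymptotic expansion of the Kashaev invariants
-/

set_option autoImplicit false

namespace Run7.h116.VY

open Finset Filter Topology MeasureTheory Pool.Agent.W711.HT Pool.Agent.Y472.K Pool.Agent.Y472
open Run7.h260.VC (G0)
open Run7.h116.VX (Jx Jx_eq Lm Lm_ne ratio_lim Vn base zero_ne facts Jx_zero oddTop odd_le odd_shift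
  odd_sub th)
open Pool.Agent.R807.Phase (tN)
open Pool.Agent.W719.BX (uA)
open scoped Real ComplexConjugate

variable {n : ℕ} [NeZero n]

/-! ### The sum for `m = 0` is real -/

lemma st_r {N : ℕ} {i j : Fin n → ℕ} (h : Ok n N i j) (q : ℤ) :
    st n N 0 q (Pool.Agent.Y604.TK.rI i, Pool.Agent.Y604.TK.rJ j) = conj (st n N 0 q (i, j)) := by
  unfold st
  have hE : Ea (2 * 0) N ((2 * π * q / N : ℝ) : ℂ) = 1 := by
    unfold Ea
    simp
  rw [hE, one_mul, one_mul, map_mul]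
  show co n N (Pool.Agent.Y604.TK.rI i) (Pool.Agent.Y604.TK.rJ j) *
    Pool.Agent.Y472.K.Qc n N (Pool.Agent.Y604.TK.rI i) (Pool.Agent.Y604.TK.rJ j) _ = _
  rw [Pool.Agent.Y604.TK.co_r, Pool.Agent.Y604.TK.Qc_r h, ← Pool.Agent.Y604.TK.Qc_conj,
    Complex.conj_ofReal]

theorem SS_real (n N : ℕ) [NeZero n] : conj (SS n N 0) = SS n N 0 := by
  unfold SS
  rw [map_sum]
  refine sum_congr rfl fun p _ => ?_
  rw [map_sum]
  refine sum_nbij' (fun c => (Pool.Agent.Y604.TK.rI c.1, Pool.Agent.Y604.TK.rJ c.2))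
    (fun c => (Pool.Agent.Y604.TK.rI c.1, Pool.Agent.Y604.TK.rJ c.2))
    (fun c hc => Pool.Agent.Y604.TK.mem_r hc)
    (fun c hc => Pool.Agent.Y604.TK.mem_r hc) (fun c _ => ?_) (fun c _ => ?_) (fun c hc => ?_)
  · simp only [Pool.Agent.Y604.TK.rI_rI, Pool.Agent.Y604.TK.rJ_rJ]
  · simp only [Pool.Agent.Y604.TK.rI_rI, Pool.Agent.Y604.TK.rJ_rJ]
  · exact (st_r (Pool.Agent.Y604.TK.Ok_of hc) _).symm

lemma fS_real (n : ℕ) [NeZero n] (N : ℕ) : ((fS n 0 N).re : ℂ) = fS n 0 N := by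
  rw [← Complex.conj_eq_iff_re]
  unfold fS
  rw [map_div₀, SS_real, map_mul, Complex.conj_ofReal, ← Complex.exp_conj]
  congr 2
  rw [map_mul, Complex.conj_ofReal, map_natCast]

/-! ### The invariants -/

/-- the normalisation -/
noncomputable def wN (n N : ℕ) : ℂ := (((N : ℝ) ^ (3 / 2 : ℝ) * Real.exp (N * G0 n) : ℝ) : ℂ)

omit [NeZero n] in
lemma wN_ne {N : ℕ} (hN : 0 < N) : wN n N ≠ 0 := by
  have hN0 : (0 : ℝ) < N := by exact_mod_cast hN
  unfold wN
  have : (0 : ℝ) < (N : ℝ) ^ (3 / 2 : ℝ) * Real.exp (N * G0 n) := by positivity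
  exact_mod_cast this.ne'

omit [NeZero n] in
lemma wN_eq {N : ℕ} (hN : 0 < N) : wN n N = N * (((√(N : ℝ) : ℝ) : ℂ) * Complex.exp (N * G0 n)) := by
  have hN0 : (0 : ℝ) < N := by exact_mod_cast hN
  unfold wN
  have h : (N : ℝ) ^ (3 / 2 : ℝ) = N * √(N : ℝ) := by
    rw [Real.sqrt_eq_rpow]
    nth_rewrite 2 [← Real.rpow_one (N : ℝ)]
    rw [← Real.rpow_add hN0]
    norm_num
  rw [h]
  push_cast
  ring

theorem Jx_fS (n : ℕ) [NeZero n] {N : ℕ} (hN : 2 ≤ N) : ∃ U : ℂ, ‖U‖ = 1 ∧ ∀ m : ℤ,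
    Jx n m N = U * (vN N ^ 4) ^ m * (wN n N * fS n m N) := by
  obtain ⟨C, hC, h1⟩ := Jx_eq n N hN
  obtain ⟨W, hW, h2⟩ := Sm_SS n hN
  refine ⟨C * W, by rw [norm_mul, hC, hW, one_mul], fun m => ?_⟩
  have hN0 : (0 : ℝ) < N := by exact_mod_cast (show 0 < N by omega)
  have hsc : ((√(N : ℝ) : ℝ) : ℂ) * Complex.exp (N * G0 n) ≠ 0 := by
    refine mul_ne_zero ?_ (Complex.exp_ne_zero _)
    exact_mod_cast (Real.sqrt_pos.2 hN0).ne'
  rw [h1 m, h2 m, wN_eq (by omega)]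
  have e : SS n N m = (((√(N : ℝ) : ℝ) : ℂ) * Complex.exp (N * G0 n)) * fS n m N := by
    unfold fS
    rw [mul_div_cancel₀ _ hsc]
  rw [e]
  ring

omit [NeZero n] in
lemma vN_pow (N : ℕ) (m : ℤ) : (vN N ^ 4) ^ m = Complex.exp ((4 * m * π * Complex.I) / N) := by
  unfold vN
  rw [← Complex.exp_nat_mul, ← Complex.exp_int_mul]
  congr 1
  push_cast
  ring

/-- the constant -/
noncomputable def Kn (n : ℕ) : ℝ :=
  √(√3 / (2 * n)) / (((√7 + √3) / 2) ^ n - ((√7 - √3) / 2) ^ n)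

lemma Kn_pos (n : ℕ) [NeZero n] : 0 < Kn n := by
  have h1 : (0 : ℝ) < n := by exact_mod_cast Nat.pos_of_ne_zero (NeZero.ne n)
  have h2 := pq_pos n
  unfold pp qq at h2
  unfold Kn
  positivity

lemma Kn_val (n : ℕ) [NeZero n] {a : ℂ}
    (h : a * ((√π : ℝ) : ℂ) = ((((√3)⁻¹) ^ n : ℝ) : ℂ) *
      ∫ v : (Iv n → ℝ) × ℝ, Complex.exp (-(RX n kap v : ℂ) - Complex.I * (SX n 0 v : ℂ))) :
    a = Kn n := by
  have hn : (0 : ℝ) < n := by exact_mod_cast Nat.pos_of_ne_zero (NeZero.ne n)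
  have hpi := Real.pi_pos
  have hs : 0 < √π := Real.sqrt_pos.2 hpi
  have hsc : ((√π : ℝ) : ℂ) ≠ 0 := by exact_mod_cast hs.ne'
  have h3 : (0 : ℝ) < √3 := by positivity
  have e1 : π / al = √3 / 2 := by
    unfold al
    field_simp
  have e2 : π / (al / 4) = 2 * √3 := by
    unfold al
    field_simp
    ring
  have e3 : π / (al * n) = √3 / (2 * n) := by
    unfold al
    field_simp
  have e4 : (√3)⁻¹ ^ n * (√(√3 / 2) ^ n * √(2 * √3) ^ n) = 1 := by
    rw [← mul_pow, ← mul_pow, ← Real.sqrt_mul (by positivity)]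
    have : √3 / 2 * (2 * √3) = √3 ^ 2 := by ring
    rw [this, Real.sqrt_sq h3.le, inv_mul_cancel₀ h3.ne', one_pow]
  rw [int_tot, e1, e2, e3] at h
  have hd : pp ^ n - qq ^ n ≠ 0 := (pq_pos n).ne'
  have h5 : a = (((√3)⁻¹ ^ n * (√(√3 / 2) ^ n * √(2 * √3) ^ n) / (pp ^ n - qq ^ n) *
      √(√3 / (2 * n)) : ℝ) : ℂ) := by
    refine mul_right_cancel₀ hsc (h.trans ?_)
    push_cast
    ring
  rw [h5, e4]
  unfold Kn pp qq
  congr 1
  ring

/-- **the main theorem, with the growth rate `G0`** -/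
theorem main0 (n : ℕ) [NeZero n] : ∃ K : ℝ, K = Kn n ∧ ∀ m : ℤ, ∃ φ : ℕ → ℂ, φ 0 = -K * Lm n m ∧
    Xp (fun N => Jx n m N / wN n N) φ := by
  have hn : 1 ≤ n := Nat.one_le_iff_ne_zero.2 (NeZero.ne n)
  obtain ⟨a0, ha0, ⟨E, hE1, hE2⟩, hl0, hx0⟩ := exp_SS n 0
  rw [E_val hE1] at hE2
  have haK := Kn_val n hE2
  -- the leading coefficient is real
  have hre : Tendsto (fun N => (fS n 0 N).re) atTop (𝓝 (a0 0).re) :=
    (Complex.continuous_re.tendsto _).comp hl0
  have hr0 : ((a0 0).re : ℂ) = a0 0 := by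
    have h1 : Tendsto (fun N => (((fS n 0 N).re : ℝ) : ℂ)) atTop (𝓝 ((a0 0).re : ℂ)) :=
      (Complex.continuous_ofReal.tendsto _).comp hre
    have h2 : Tendsto (fun N => (((fS n 0 N).re : ℝ) : ℂ)) atTop (𝓝 (a0 0)) :=
      hl0.congr fun N => (fS_real n N).symm
    exact tendsto_nhds_unique h1 h2
  set r : ℝ := (a0 0).re with hr
  have hrne : r ≠ 0 := by
    intro h
    rw [h, Complex.ofReal_zero] at hr0
    exact ha0 hr0.symm
  -- the sign
  obtain ⟨σ, hσ, hσr⟩ : ∃ σ : ℝ, (σ = 1 ∨ σ = -1) ∧ 0 < σ * r := by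
    rcases lt_or_gt_of_ne hrne with h | h
    · exact ⟨-1, Or.inr rfl, by linarith⟩
    · exact ⟨1, Or.inl rfl, by linarith⟩
  have hσ1 : |σ| = 1 := by rcases hσ with h | h <;> rw [h] <;> simp
  have hσ2 : σ * σ = 1 := by rcases hσ with h | h <;> rw [h] <;> norm_num
  have hsg : ∀ᶠ N in atTop, 0 < σ * (fS n 0 N).re :=
    (hre.const_mul σ).eventually (lt_mem_nhds hσr)
  -- the unit factor
  have hU : ∀ᶠ N : ℕ in atTop, ∀ m : ℤ, Jx n m N / wN n N =
      -(σ : ℂ) * (Complex.exp (3 * (π : ℂ) * Complex.I / N) *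
        Complex.exp ((4 * m * π * Complex.I) / N) * fS n m N) := by
    filter_upwards [eventually_ge_atTop 2, hsg, (base hn).2.1] with N hN h1 h2 m
    obtain ⟨U, hU, h3⟩ := Jx_fS n hN
    have hN0 : (0 : ℝ) < N := by exact_mod_cast (show 0 < N by omega)
    have hw := wN_ne (n := n) (N := N) (by omega)
    have h4 := h3 0
    rw [Jx_zero (by omega), zpow_zero, mul_one, ← fS_real] at h4
    -- norms
    have hw' : wN n N = (((N : ℝ) ^ (3 / 2 : ℝ) * Real.exp (N * G0 n) : ℝ) : ℂ) := rfl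
    set t : ℝ := tN (uA 1) n N with ht
    set w : ℝ := (N : ℝ) ^ (3 / 2 : ℝ) * Real.exp (N * G0 n) with hwdef
    have hwp : 0 < w := by rw [hwdef]; positivity
    set g : ℝ := (fS n 0 N).re with hg
    have h5 : t = w * |g| := by
      have h6 := congrArg norm h4
      rw [norm_mul, norm_mul, hU, one_mul, hw', norm_mul, Complex.norm_real, Complex.norm_real,
        Complex.norm_real, Real.norm_eq_abs, Real.norm_eq_abs, Real.norm_eq_abs, abs_of_pos h2,
        abs_of_pos hwp, Pool.Agent.R807.Ratio.exp_norm, one_mul] at h6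
      exact h6
    have h6 : |g| = σ * g := by
      rcases hσ with h | h
      · rw [h] at h1 ⊢
        rw [one_mul] at h1 ⊢
        exact abs_of_pos h1
      · rw [h] at h1 ⊢
        have : g < 0 := by linarith
        rw [abs_of_neg this]
        ring
    have hgne : g ≠ 0 := by
      intro h
      rw [h, mul_zero] at h1
      exact lt_irrefl _ h1
    have h7 : U = -Complex.exp (3 * (π : ℂ) * Complex.I / N) * σ := by
      rw [h5, h6, hw'] at h4
      have hgc : (g : ℂ) ≠ 0 := by exact_mod_cast hgne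
      have hwc : (w : ℂ) ≠ 0 := by exact_mod_cast hwp.ne'
      push_cast at h4
      have h8 : (-Complex.exp (3 * (π : ℂ) * Complex.I / N) * σ - U) * ((w : ℂ) * g) = 0 := by
        linear_combination h4
      have h9 := (mul_eq_zero.1 h8).resolve_right (mul_ne_zero hwc hgc)
      linear_combination -h9
    rw [h3 m, h7, vN_pow]
    field_simp
  have hrK : r = Kn n := by
    have : (r : ℂ) = (Kn n : ℝ) := by rw [hr0, haK]
    exact_mod_cast this
  have hσK : σ * r = Kn n := by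
    rcases hσ with h | h
    · rw [h, one_mul, hrK]
    · have := Kn_pos n
      rw [h, hrK] at hσr
      linarith
  refine ⟨σ * r, hσK, fun m => ?_⟩
  obtain ⟨a, ha, -, hl, hx⟩ := exp_SS n m
  have hprod := (((Xp.exp (3 * (π : ℂ) * Complex.I)).mul (Xp.exp (4 * m * π * Complex.I))).mul
    (f := fun N => Complex.exp (3 * (π : ℂ) * Complex.I / N) *
        Complex.exp ((4 * m * π * Complex.I) / N)) hx).const_mul (-(σ : ℂ))
  obtain ⟨φ, hfin⟩ : ∃ φ, Xp (fun N => Jx n m N / wN n N) φ := ⟨_, hprod.congr (by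
    filter_upwards [hU] with N hN
    exact (hN m).symm)⟩
  refine ⟨φ, ?_, hfin⟩
  -- the leading coefficient
  have hlim := hfin.lim
  have h1 : Tendsto (fun N => Jx n 0 N / wN n N) atTop (𝓝 (-(σ : ℂ) * r)) := by
    have h2 : Tendsto (fun N : ℕ => Complex.exp (3 * (π : ℂ) * Complex.I / N)) atTop (𝓝 1) := by
      have h3 : Tendsto (fun N : ℕ => 3 * (π : ℂ) * Complex.I / N) atTop (𝓝 0) :=
        tendsto_const_div_atTop_nhds_zero_nat _
      have h4 := (Complex.continuous_exp.tendsto _).comp h3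
      rwa [Complex.exp_zero] at h4
    have h3 := (h2.mul hl0).const_mul (-(σ : ℂ))
    rw [one_mul, ← hr0] at h3
    refine h3.congr' ?_
    filter_upwards [hU] with N hN
    rw [hN 0]
    simp
  have hne : -(σ : ℂ) * r ≠ 0 := by
    have : σ * r ≠ 0 := hσr.ne'
    have h2 : ((σ * r : ℝ) : ℂ) ≠ 0 := by exact_mod_cast this
    push_cast at h2
    rw [neg_mul]
    exact neg_ne_zero.2 h2
  have h2 := hlim.div h1 hne
  have h3 : Tendsto (fun N => Jx n m N / Jx n 0 N) atTop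
      (𝓝 (φ 0 / (-(σ : ℂ) * r))) := by
    refine h2.congr' ?_
    filter_upwards [eventually_gt_atTop 0] with N hN
    exact div_div_div_cancel_right₀ (wN_ne hN) _ _
  have h4 := tendsto_nhds_unique (ratio_lim n m) h3
  have h5 : -((σ * r : ℝ) : ℂ) * Lm n m = (-(σ : ℂ) * r) * Lm n m := by
    push_cast
    ring
  rw [h5, h4, mul_div_cancel₀ _ hne]

end Run7.h116.VY
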