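import Pool.Agent.Y363.TKX.Cmb
import Pool.Agent.Y240.TKX.Ptx
import Pool.Agent.Y180.TK.Pt

/-!
# The potential of the closed braids with axes
-/

set_option autoImplicit false

namespace Run7.h116.VY

open Finset Filter Topology MeasureTheory Pool.Agent.W711.HT Pool.Agent.Y472.K
open Pool.Agent.Y363.TKX (lx_mul lx_prod lx_congr lx_v an_coord lx_one)
open Pool.Agent.Y180.TK (Rt Lc_exp)
open scoped Real

/-! ### General lemmas -/

section gen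

variable {ι : Type} [Fintype ι] {ws : ι → ℝ} {K : ℕ}

theorem lx_inv {Ψ : (ι → ℂ) × ℂ → ℂ} {T : ℕ → (ι → ℕ) → ℝ → ℂ} (h : LX Ψ ws K T) :
    LX (fun w => -Ψ w) ws K (fun N k x => (T N k x)⁻¹) := by
  obtain ⟨τ, a, r, C, hr, H⟩ := h
  refine ⟨fun l w => -τ l w, fun l hl => (a l hl).neg, r, C, hr, ?_⟩
  filter_upwards [H] with N h1 k x hk hx
  obtain ⟨e, he, t⟩ := h1 k x hk hx
  refine ⟨-e, by rwa [norm_neg], ?_⟩
  rw [t, ← Complex.exp_neg]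
  congr 1
  simp only [neg_div]
  rw [Finset.sum_neg_distrib]
  ring

theorem an_gen {L : ℂ → ℂ} {ℓ : (ι → ℂ) × ℂ → ℂ} {d : ℝ} (hL : AnalyticAt ℂ L (d : ℂ))
    (hℓ : AnalyticAt ℂ ℓ (cst (ws, 0))) (h0 : ℓ (cst (ws, 0)) = (d : ℂ)) :
    AnalyticAt ℂ (fun w => L (ℓ w)) (cst (ws, 0)) := by
  refine AnalyticAt.comp (g := L) (f := ℓ) ?_ hℓ
  rw [h0]
  exact hL

theorem lx_gen {Lx : ℂ → ℂ} {σ : ℕ → ℂ → ℂ}
    (hσ : ∀ k, ∀ δ : ℝ, 0 < δ → δ < 1 → AnalyticAt ℂ (σ k) δ)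
    (h : ∀ δ₀ : ℝ, 0 < δ₀ → δ₀ < 1 / 2 → ∀ K : ℕ, ∃ C : ℝ, ∀ᶠ N : ℕ in atTop, ∀ m : ℕ,
      δ₀ * N ≤ m → (m : ℝ) ≤ (1 - δ₀) * N → ∃ e : ℂ, ‖e‖ ≤ C / (N : ℝ) ^ K ∧
        ((√(N : ℝ) : ℝ) : ℂ) / (Sd N m : ℂ) =
          Complex.exp (N * Lx ((m : ℂ) / N) + ∑ k ∈ range K, σ k ((m : ℂ) / N) / (N : ℂ) ^ k + e))
    (M : ℕ → (ι → ℕ) → ℕ) {ℓ : (ι → ℂ) × ℂ → ℂ} {d r₀ : ℝ} (hr₀ : 0 < r₀) (hd0 : 0 < d)
    (hd1 : d < 1) (hℓ : AnalyticAt ℂ ℓ (cst (ws, 0))) (h0 : ℓ (cst (ws, 0)) = (d : ℂ))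
    (hM : ∀ N : ℕ, 0 < N → ∀ (k : ι → ℕ) (x : ℝ), (∀ i, |(k i : ℝ) / N - ws i| < r₀) →
      ((M N k : ℂ) / N = ℓ (cst (fun i => (k i : ℝ) / N, x)) ∧
        |(M N k : ℝ) / N - d| ≤ min d (1 - d) / 2)) :
    LX (fun w => Lx (ℓ w)) ws K (fun N k _ => ((√(N : ℝ) : ℝ) : ℂ) / (Sd N (M N k) : ℂ)) := by
  obtain ⟨δ₀, hδ₀⟩ : ∃ δ₀ : ℝ, δ₀ = min d (1 - d) / 2 := ⟨_, rfl⟩
  have d0 : 0 < δ₀ := by
    rw [hδ₀]
    exact half_pos (lt_min hd0 (by linarith))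
  have d1 : 2 * δ₀ ≤ d := by
    rw [hδ₀]
    linarith [min_le_left d (1 - d)]
  have d2 : 2 * δ₀ ≤ 1 - d := by
    rw [hδ₀]
    linarith [min_le_right d (1 - d)]
  obtain ⟨C, hC⟩ := h δ₀ d0 (by linarith) K
  refine ⟨fun l w => σ l (ℓ w), fun l _ => an_gen (hσ l d hd0 hd1) hℓ h0, r₀, C, hr₀, ?_⟩
  filter_upwards [hC, eventually_gt_atTop 0] with N hN hN0 k x hk _
  have hNr : (0 : ℝ) < N := by exact_mod_cast hN0
  obtain ⟨m1, m2⟩ := hM N hN0 k x hk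
  rw [← hδ₀] at m2
  have m3 := abs_le.1 m2
  have hmN : (M N k : ℝ) = (M N k : ℝ) / N * N := by field_simp
  obtain ⟨e, he, t⟩ := hN (M N k)
    (by rw [hmN]; exact mul_le_mul_of_nonneg_right (by linarith [m3.1]) hNr.le)
    (by rw [hmN]; exact mul_le_mul_of_nonneg_right (by linarith [m3.2]) hNr.le)
  refine ⟨e, he, ?_⟩
  rw [t, m1]

end gen

/-! ### The variables -/

/-- the variables -/
abbrev Iv (n : ℕ) := (Fin n ⊕ Fin n) ⊕ Unit

section vars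

variable {n : ℕ}

abbrev va (r : Fin n) : Iv n := Sum.inl (Sum.inl r)
abbrev vb (r : Fin n) : Iv n := Sum.inl (Sum.inr r)
abbrev vs : Iv n := Sum.inr ()

end vars

/-- the critical point -/
noncomputable def wc (n : ℕ) : Iv n → ℝ := Sum.elim (Sum.elim (fun _ => 2 / 3) fun _ => 1 / 3) fun _ => 1

lemma wc_a {n : ℕ} (r : Fin n) : wc n (va r) = 2 / 3 := rfl
lemma wc_b {n : ℕ} (r : Fin n) : wc n (vb r) = 1 / 3 := rfl
lemma wc_s {n : ℕ} : wc n vs = 1 := rfl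

/-- the summand -/
noncomputable def TX (n : ℕ) [NeZero n] (m : ℤ) (N : ℕ) (k : Iv n → ℕ) (x : ℝ) : ℂ :=
  (∏ r : Fin n, ((vN N ^ (((k (va r) : ℤ) - k (va (r + 1))) * k (vb r)) *
    ((((√(N : ℝ) : ℝ) : ℂ) / (Sd N (k (va r) - k (vb r)) : ℂ)) *
    (((√(N : ℝ) : ℝ) : ℂ) / (Sd N (k (va (r + 1)) - k (vb r)) : ℂ)))) *
    (((((√(N : ℝ) : ℝ) : ℂ) / (Sd N (k (va (r + 1)) + N - k vs) : ℂ))⁻¹ *
      (((√(N : ℝ) : ℝ) : ℂ) / (Sd N (k (va (r + 1)) + k vs - N) : ℂ))⁻¹) *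
    ((((√(N : ℝ) : ℝ) : ℂ) / (Sd N (k (vb r) + N - k vs) : ℂ)) *
      (((√(N : ℝ) : ℝ) : ℂ) / (Sd N (k (vb r) + k vs - N) : ℂ)))))) *
  (Complex.exp (2 * π * Complex.I * m * ((k vs : ℂ) - N) ^ 2 / N) * Complex.exp (-(N * (x : ℂ) ^ 2)))

/-- the potential -/
noncomputable def PsX (n : ℕ) [NeZero n] (m : ℤ) (Lx : ℂ → ℂ) (w : (Iv n → ℂ) × ℂ) : ℂ :=
  (∑ r : Fin n, ((Complex.I * π * ((w.1 (va r) - w.1 (va (r + 1))) * w.1 (vb r)) +
    (Lx (w.1 (va r) - w.1 (vb r)) + Lx (w.1 (va (r + 1)) - w.1 (vb r)))) +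
    ((-Lx (w.1 (va (r + 1)) + 1 - w.1 vs) + -Lx (w.1 (va (r + 1)) + w.1 vs - 1)) +
    (Lx (w.1 (vb r) + 1 - w.1 vs) + Lx (w.1 (vb r) + w.1 vs - 1))))) +
  (2 * π * Complex.I * m * (w.1 vs - 1) ^ 2 + -w.2 ^ 2)

section fac

variable {n : ℕ} {K : ℕ}

lemma cst1 (i : Iv n) : (cst (wc n, (0 : ℝ))).1 i = (wc n i : ℂ) := rfl

lemma an1 (i : Iv n) : AnalyticAt ℂ (fun w : (Iv n → ℂ) × ℂ => w.1 i) (cst (wc n, 0)) :=
  an_coord i _

/-- the exact factors -/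
theorem lx_exact {Ψ : (Iv n → ℂ) × ℂ → ℂ} {T : ℕ → (Iv n → ℕ) → ℝ → ℂ}
    (h : ∀ N : ℕ, 0 < N → ∀ k x, T N k x = Complex.exp (N * Ψ (cst (fun i => (k i : ℝ) / N, x)))) :
    LX Ψ (wc n) K T := by
  refine ⟨fun _ _ => 0, fun _ _ => analyticAt_const, 1, 0, one_pos, ?_⟩
  filter_upwards [eventually_gt_atTop 0] with N hN0 k x _ _
  refine ⟨0, by simp, ?_⟩
  rw [h N hN0]
  congr 1
  simp

theorem lx_E (m : ℤ) : LX (fun w => 2 * π * Complex.I * m * (w.1 vs - 1) ^ 2) (wc n) K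
    (fun N k _ => Complex.exp (2 * π * Complex.I * m * ((k vs : ℂ) - N) ^ 2 / N)) := by
  refine lx_exact fun N hN k x => ?_
  have hNc : (N : ℂ) ≠ 0 := by exact_mod_cast hN.ne'
  congr 1
  simp only [cst]
  push_cast
  field_simp

theorem lx_x : LX (fun w => -w.2 ^ 2) (wc n) K (fun N _ x => Complex.exp (-(N * (x : ℂ) ^ 2))) := by
  refine lx_exact fun N hN k x => ?_
  congr 1
  simp only [cst]
  ring

end fac

/-- the expansion of the summand -/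
theorem lx_T (n : ℕ) [NeZero n] (m : ℤ) {Lx : ℂ → ℂ} {σ : ℕ → ℂ → ℂ}
    (hσ : ∀ k, ∀ δ : ℝ, 0 < δ → δ < 1 → AnalyticAt ℂ (σ k) δ)
    (h : ∀ δ₀ : ℝ, 0 < δ₀ → δ₀ < 1 / 2 → ∀ K : ℕ, ∃ C : ℝ, ∀ᶠ N : ℕ in atTop, ∀ m : ℕ,
      δ₀ * N ≤ m → (m : ℝ) ≤ (1 - δ₀) * N → ∃ e : ℂ, ‖e‖ ≤ C / (N : ℝ) ^ K ∧
        ((√(N : ℝ) : ℝ) : ℂ) / (Sd N m : ℂ) =
          Complex.exp (N * Lx ((m : ℂ) / N) + ∑ k ∈ range K, σ k ((m : ℂ) / N) / (N : ℂ) ^ k + e))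
    (K : ℕ) : LX (PsX n m Lx) (wc n) K (TX n m) := by
  -- generic bounds
  have hmin3 : min (1 / 3 : ℝ) (1 - 1 / 3) / 2 = 1 / 6 := by norm_num
  have hmin6 : min (2 / 3 : ℝ) (1 - 2 / 3) / 2 = 1 / 6 := by norm_num
  have g1 : ∀ r r' : Fin n, LX (fun w => Lx (w.1 (va r) - w.1 (vb r'))) (wc n) K
      (fun N k _ => ((√(N : ℝ) : ℝ) : ℂ) / (Sd N (k (va r) - k (vb r')) : ℂ)) := by
    intro r r'
    refine lx_gen hσ h (fun N k => k (va r) - k (vb r')) (d := 1 / 3) (r₀ := 1 / 12)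
      (by norm_num) (by norm_num) (by norm_num) ((an1 _).sub (an1 _)) ?_ ?_
    · rw [cst1, cst1, wc_a, wc_b]; push_cast; norm_num
    · intro N hN k x hk
      have hNr : (0 : ℝ) < N := by exact_mod_cast hN
      have ka := abs_lt.1 (hk (va r))
      have kb := abs_lt.1 (hk (vb r'))
      rw [wc_a] at ka
      rw [wc_b] at kb
      have hle : k (vb r') ≤ k (va r) := by
        have h2 : (k (vb r') : ℝ) / N < (k (va r) : ℝ) / N := by linarith [ka.1, kb.2]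
        have h3 : (k (vb r') : ℝ) < k (va r) := (div_lt_div_iff_of_pos_right hNr).1 h2
        exact_mod_cast h3.le
      constructor
      · rw [Nat.cast_sub hle]
        simp only [cst]
        push_cast
        rw [sub_div]
      · rw [Nat.cast_sub hle, sub_div, hmin3, abs_le]
        constructor <;> linarith [ka.1, ka.2, kb.1, kb.2]
  have g2 : ∀ (i : Iv n) (d : ℝ), (d = 1 / 3 ∨ d = 2 / 3) → wc n i = d →
      LX (fun w => Lx (w.1 i + 1 - w.1 vs)) (wc n) K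
      (fun N k _ => ((√(N : ℝ) : ℝ) : ℂ) / (Sd N (k i + N - k vs) : ℂ)) := by
    intro i d hd hi
    have hmin : min d (1 - d) / 2 = 1 / 6 := by rcases hd with hd | hd <;> rw [hd] <;> norm_num
    refine lx_gen hσ h (fun N k => k i + N - k vs) (d := d) (r₀ := 1 / 12)
      (by norm_num) (by rcases hd with hd | hd <;> rw [hd] <;> norm_num)
      (by rcases hd with hd | hd <;> rw [hd] <;> norm_num)
      (((an1 _).add analyticAt_const).sub (an1 _)) ?_ ?_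
    · rw [cst1, cst1, hi, wc_s]; push_cast; ring
    · intro N hN k x hk
      have hNr : (0 : ℝ) < N := by exact_mod_cast hN
      have hNc : (N : ℂ) ≠ 0 := by exact_mod_cast hN.ne'
      have ka := abs_lt.1 (hk i)
      have kb := abs_lt.1 (hk vs)
      rw [hi] at ka
      rw [wc_s] at kb
      have hd3 : 1 / 3 ≤ d := by rcases hd with hd | hd <;> rw [hd] <;> norm_num
      have hle : k vs ≤ k i + N := by
        have h2 : (k vs : ℝ) / N < (k i : ℝ) / N + 1 := by linarith [ka.1, kb.2]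
        have h3 : (k vs : ℝ) < k i + N := by
          rw [div_add_one hNr.ne', div_lt_div_iff_of_pos_right hNr] at h2
          exact h2
        exact_mod_cast h3.le
      constructor
      · rw [Nat.cast_sub hle]
        simp only [cst]
        push_cast
        field_simp
      · rw [Nat.cast_sub hle, Nat.cast_add, sub_div, add_div, div_self hNr.ne', hmin, abs_le]
        constructor <;> linarith [ka.1, ka.2, kb.1, kb.2]
  have g3 : ∀ (i : Iv n) (d : ℝ), (d = 1 / 3 ∨ d = 2 / 3) → wc n i = d →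
      LX (fun w => Lx (w.1 i + w.1 vs - 1)) (wc n) K
      (fun N k _ => ((√(N : ℝ) : ℝ) : ℂ) / (Sd N (k i + k vs - N) : ℂ)) := by
    intro i d hd hi
    have hmin : min d (1 - d) / 2 = 1 / 6 := by rcases hd with hd | hd <;> rw [hd] <;> norm_num
    refine lx_gen hσ h (fun N k => k i + k vs - N) (d := d) (r₀ := 1 / 12)
      (by norm_num) (by rcases hd with hd | hd <;> rw [hd] <;> norm_num)
      (by rcases hd with hd | hd <;> rw [hd] <;> norm_num)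
      (((an1 _).add (an1 _)).sub analyticAt_const) ?_ ?_
    · rw [cst1, cst1, hi, wc_s]; push_cast; ring
    · intro N hN k x hk
      have hNr : (0 : ℝ) < N := by exact_mod_cast hN
      have hNc : (N : ℂ) ≠ 0 := by exact_mod_cast hN.ne'
      have ka := abs_lt.1 (hk i)
      have kb := abs_lt.1 (hk vs)
      rw [hi] at ka
      rw [wc_s] at kb
      have hd3 : 1 / 3 ≤ d := by rcases hd with hd | hd <;> rw [hd] <;> norm_num
      have hle : N ≤ k i + k vs := by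
        have h2 : (1 : ℝ) < ((k i : ℝ) + k vs) / N := by rw [add_div]; linarith [ka.1, kb.1]
        rw [one_lt_div hNr] at h2
        exact_mod_cast h2.le
      constructor
      · rw [Nat.cast_sub hle]
        simp only [cst]
        push_cast
        field_simp
      · rw [Nat.cast_sub hle, Nat.cast_add, sub_div, add_div, div_self hNr.ne', hmin, abs_le]
        constructor <;> linarith [ka.1, ka.2, kb.1, kb.2]
  have h1 : ∀ r ∈ (Finset.univ : Finset (Fin n)), LX (fun w : (Iv n → ℂ) × ℂ =>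
      ((Complex.I * π * ((w.1 (va r) - w.1 (va (r + 1))) * w.1 (vb r)) +
    (Lx (w.1 (va r) - w.1 (vb r)) + Lx (w.1 (va (r + 1)) - w.1 (vb r)))) +
    ((-Lx (w.1 (va (r + 1)) + 1 - w.1 vs) + -Lx (w.1 (va (r + 1)) + w.1 vs - 1)) +
    (Lx (w.1 (vb r) + 1 - w.1 vs) + Lx (w.1 (vb r) + w.1 vs - 1))))) (wc n) K
      (fun N k _ => ((vN N ^ (((k (va r) : ℤ) - k (va (r + 1))) * k (vb r)) *
    ((((√(N : ℝ) : ℝ) : ℂ) / (Sd N (k (va r) - k (vb r)) : ℂ)) *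
    (((√(N : ℝ) : ℝ) : ℂ) / (Sd N (k (va (r + 1)) - k (vb r)) : ℂ)))) *
    (((((√(N : ℝ) : ℝ) : ℂ) / (Sd N (k (va (r + 1)) + N - k vs) : ℂ))⁻¹ *
      (((√(N : ℝ) : ℝ) : ℂ) / (Sd N (k (va (r + 1)) + k vs - N) : ℂ))⁻¹) *
    ((((√(N : ℝ) : ℝ) : ℂ) / (Sd N (k (vb r) + N - k vs) : ℂ)) *
      (((√(N : ℝ) : ℝ) : ℂ) / (Sd N (k (vb r) + k vs - N) : ℂ)))))) := by
    intro r _
    refine lx_mul (lx_mul (lx_v _ _ _) (lx_mul (g1 r r) (g1 (r + 1) r)))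
      (lx_mul (lx_mul (lx_inv (g2 _ _ (Or.inr rfl) (wc_a _))) (lx_inv (g3 _ _ (Or.inr rfl) (wc_a _))))
        (lx_mul (g2 _ _ (Or.inl rfl) (wc_b _)) (g3 _ _ (Or.inl rfl) (wc_b _))))
  exact lx_mul (lx_prod Finset.univ _ _ h1) (lx_mul (lx_E m) lx_x)

/-- the potential is analytic -/
theorem an_Ps (n : ℕ) [NeZero n] (m : ℤ) {Lx : ℂ → ℂ}
    (hLx : ∀ δ : ℝ, 0 < δ → δ < 1 → AnalyticAt ℂ Lx δ) :
    AnalyticAt ℂ (PsX n m Lx) (cst (wc n, 0)) := by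
  have a3 : AnalyticAt ℂ Lx ((1 / 3 : ℝ) : ℂ) := hLx _ (by norm_num) (by norm_num)
  have a6 : AnalyticAt ℂ Lx ((2 / 3 : ℝ) : ℂ) := hLx _ (by norm_num) (by norm_num)
  unfold PsX
  refine AnalyticAt.add ?_ (AnalyticAt.add (analyticAt_const.mul (((an1 _).sub analyticAt_const).pow 2))
    (analyticAt_snd.pow 2).neg)
  refine Finset.analyticAt_fun_sum _ fun r _ => ?_
  refine AnalyticAt.add (AnalyticAt.add (analyticAt_const.mul (((an1 _).sub (an1 _)).mul (an1 _))) ?_) ?_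
  · refine (an_gen a3 ((an1 _).sub (an1 _)) ?_).add (an_gen a3 ((an1 _).sub (an1 _)) ?_)
    · show (wc n (va r) : ℂ) - (wc n (vb r) : ℂ) = _
      rw [wc_a, wc_b]; push_cast; norm_num
    · show (wc n (va (r + 1)) : ℂ) - (wc n (vb r) : ℂ) = _
      rw [wc_a, wc_b]; push_cast; norm_num
  · refine AnalyticAt.add (AnalyticAt.add ?_ ?_) (AnalyticAt.add ?_ ?_)
    · refine (an_gen a6 (((an1 _).add analyticAt_const).sub (an1 _)) ?_).neg
      show (wc n (va (r + 1)) : ℂ) + 1 - (wc n vs : ℂ) = _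
      rw [wc_a, wc_s]; push_cast; ring
    · refine (an_gen a6 (((an1 _).add (an1 _)).sub analyticAt_const) ?_).neg
      show (wc n (va (r + 1)) : ℂ) + (wc n vs : ℂ) - 1 = _
      rw [wc_a, wc_s]; push_cast; ring
    · refine an_gen a3 (((an1 _).add analyticAt_const).sub (an1 _)) ?_
      show (wc n (vb r) : ℂ) + 1 - (wc n vs : ℂ) = _
      rw [wc_b, wc_s]; push_cast; ring
    · refine an_gen a3 (((an1 _).add (an1 _)).sub analyticAt_const) ?_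
      show (wc n (vb r) : ℂ) + (wc n vs : ℂ) - 1 = _
      rw [wc_b, wc_s]; push_cast; ring

end Run7.h116.VY
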