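import Pool.Agent.Run7.h116.VY.Ax
import Pool.Agent.Run7.h116.VY.Lead
import Pool.Agent.Run7.h116.VX.Fin
import Pool.Agent.Y430.TK.Near0

/-!
# The sum as a sum over lattice points
-/

set_option autoImplicit false

namespace Run7.h116.VY

open Finset Filter Topology MeasureTheory Pool.Agent.W711.HT Pool.Agent.Y472.K Pool.Agent.Y472
open Pool.Agent.Y833.CB (rp)
open Run7.h260.VC (wd G0 CJC HCJ hCJ Tf_sum norm_uu card_cfg mem_cfg far_bd pow_absorb)
open Run7.h116.VX (norm_Ea Sm_eq tm)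
open Pool.Agent.Y430.TK (Sd_pos)
open GapVol (lob)
open scoped Real

/-- `2 cos χ - 2 cos θ` -/
lemma cos_diff (N j s : ℕ) (hN : 0 < N) :
    2 * Real.cos (2 * π * ((s : ℝ) - N) / N) - 2 * Real.cos (2 * π * j / N) =
      (2 * Real.sin (π * ((j : ℝ) + N - s) / N)) * (2 * Real.sin (π * ((j : ℝ) + s - N) / N)) := by
  have h : (N : ℝ) ≠ 0 := by exact_mod_cast hN.ne'
  have e1 : 2 * π * ((s : ℝ) - N) / N =
      π * ((j : ℝ) + s - N) / N - π * ((j : ℝ) + N - s) / N := by ring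
  have e2 : 2 * π * (j : ℝ) / N = π * ((j : ℝ) + s - N) / N + π * ((j : ℝ) + N - s) / N := by ring
  rw [e1, e2, Real.cos_sub, Real.cos_add]
  ring

lemma Sd_succ (N d : ℕ) : Sd N (d + 1) = Sd N d * (2 * Real.sin (π * (d + 1) / N)) := by
  unfold Sd
  rw [prod_range_succ]

/-- the product formula -/
theorem Pq_sd {N j s : ℕ} (hN : 0 < N) (h1 : N ≤ s + j) (h2 : s ≤ N + j) {i : ℕ} (hji : j ≤ i) :
    Pq N j i ((2 * π * ((s : ℝ) - N) / N : ℝ) : ℂ) *
      ((Sd N (j + N - s) : ℂ) * (Sd N (j + s - N) : ℂ)) =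
      (Sd N (i + N - s) : ℂ) * (Sd N (i + s - N) : ℂ) := by
  induction i, hji using Nat.le_induction with
  | base => simp [Pq]
  | succ i hi ih =>
    have e0 : Pq N j (i + 1) ((2 * π * ((s : ℝ) - N) / N : ℝ) : ℂ) =
        Pq N j i ((2 * π * ((s : ℝ) - N) / N : ℝ) : ℂ) *
          (((2 * Real.sin (π * (((i + 1 : ℕ) : ℝ) + N - s) / N)) *
            (2 * Real.sin (π * (((i + 1 : ℕ) : ℝ) + s - N) / N)) : ℝ) : ℂ) := by
      unfold Pq
      rw [Finset.prod_Ioc_succ_top hi, ← cos_diff N (i + 1) s hN]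
      push_cast
      rfl
    have e1 : i + 1 + N - s = (i + N - s) + 1 := by omega
    have e2 : i + 1 + s - N = (i + s - N) + 1 := by omega
    have e3 : (((i + N - s : ℕ) : ℝ) + 1) = ((i + 1 : ℕ) : ℝ) + N - s := by
      rw [Nat.cast_sub (by omega)]
      push_cast
      ring
    have e4 : (((i + s - N : ℕ) : ℝ) + 1) = ((i + 1 : ℕ) : ℝ) + s - N := by
      rw [Nat.cast_sub (by omega)]
      push_cast
      ring
    rw [e0, e1, e2, Sd_succ, Sd_succ, e3, e4]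
    rw [mul_right_comm, ih]
    push_cast
    ring

variable {n : ℕ} [NeZero n]

/-- the terms -/
noncomputable def st (n N : ℕ) [NeZero n] (m q : ℤ) (c : (Fin n → ℕ) × (Fin n → ℕ)) : ℂ :=
  Ea (2 * m) N ((2 * π * q / N : ℝ) : ℂ) *
    (co n N c.1 c.2 * Qc n N c.1 c.2 ((2 * π * q / N : ℝ) : ℂ))

/-- the sum -/
noncomputable def SS (n N : ℕ) [NeZero n] (m : ℤ) : ℂ :=
  ∑ p ∈ range N, ∑ c ∈ cfg n N, st n N m (rp N p) c

lemma Sm_SS (n : ℕ) [NeZero n] {N : ℕ} (hN : 2 ≤ N) : ∃ W : ℂ, ‖W‖ = 1 ∧ ∀ m,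
    Run7.h116.VX.Sm n N m = W * SS n N m := by
  obtain ⟨u, u', hu, hu', hc⟩ := hCJ N hN
  refine ⟨(u * u') ^ n, norm_uu hu hu', fun m => ?_⟩
  rw [Sm_eq n m (by omega)]
  unfold SS
  rw [mul_sum]
  refine sum_congr rfl fun p _ => ?_
  unfold tm
  rw [Tf_sum hc]
  unfold st
  rw [← mul_sum]
  ring

/-- the configuration of a lattice point -/
def cof (k : Iv n → ℕ) : (Fin n → ℕ) × (Fin n → ℕ) := (fun r => k (va r), fun r => k (vb r))

omit [NeZero n] in
lemma bounds {N : ℕ} (hN : 0 < N) {k : Iv n → ℕ} (hk : ∀ i, |(k i : ℝ) / N - wc n i| ≤ 1 / 12) :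
    (∀ r, 7 * N ≤ 12 * k (va r) ∧ 12 * k (va r) ≤ 9 * N) ∧
    (∀ r, 3 * N ≤ 12 * k (vb r) ∧ 12 * k (vb r) ≤ 5 * N) ∧
    11 * N ≤ 12 * k vs ∧ 12 * k vs ≤ 13 * N := by
  have hNr : (0 : ℝ) < N := by exact_mod_cast hN
  have key : ∀ i, ((wc n i - 1 / 12) * N ≤ k i) ∧ (k i : ℝ) ≤ (wc n i + 1 / 12) * N := by
    intro i
    have h := abs_le.1 (hk i)
    constructor
    · rw [← le_div_iff₀ hNr]
      linarith [h.1]
    · rw [← div_le_iff₀ hNr]
      linarith [h.2]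
  refine ⟨fun r => ?_, fun r => ?_, ?_⟩
  · have h := key (va r)
    rw [wc_a] at h
    constructor
    · have : (7 : ℝ) * N ≤ 12 * k (va r) := by linarith [h.1]
      exact_mod_cast this
    · have : (12 : ℝ) * k (va r) ≤ 9 * N := by linarith [h.2]
      exact_mod_cast this
  · have h := key (vb r)
    rw [wc_b] at h
    constructor
    · have : (3 : ℝ) * N ≤ 12 * k (vb r) := by linarith [h.1]
      exact_mod_cast this
    · have : (12 : ℝ) * k (vb r) ≤ 5 * N := by linarith [h.2]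
      exact_mod_cast this
  · have h := key (vs : Iv n)
    rw [wc_s] at h
    constructor
    · have : (11 : ℝ) * N ≤ 12 * k vs := by linarith [h.1]
      exact_mod_cast this
    · have : (12 : ℝ) * k vs ≤ 13 * N := by linarith [h.2]
      exact_mod_cast this

/-- the summand at a lattice point -/
theorem TX_eq {N : ℕ} (hN : 0 < N) (m : ℤ) {k : Iv n → ℕ}
    (hk : ∀ i, |(k i : ℝ) / N - wc n i| ≤ 1 / 12) (x : ℝ) :
    TX n m N k x = (N : ℂ) ^ n * st n N m ((k vs : ℤ) - N) (cof k) *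
      Complex.exp (-(N * (x : ℂ) ^ 2)) := by
  obtain ⟨ha, hb, hs1, hs2⟩ := bounds hN hk
  have hNC : (N : ℂ) ≠ 0 := by exact_mod_cast hN.ne'
  have hNr : (0 : ℝ) < N := by exact_mod_cast hN
  have hsp : 0 < √(N : ℝ) := Real.sqrt_pos.2 hNr
  have hsC : ((√(N : ℝ) : ℝ) : ℂ) ≠ 0 := by exact_mod_cast hsp.ne'
  have hss : ((√(N : ℝ) : ℝ) : ℂ) * ((√(N : ℝ) : ℝ) : ℂ) = N := by
    rw [← Complex.ofReal_mul, Real.mul_self_sqrt hNr.le, Complex.ofReal_natCast]
  have hne : ∀ d < N, (Sd N d : ℂ) ≠ 0 := fun d hd => by exact_mod_cast (Sd_pos hd).ne'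
  have hchi : ((2 * π * (((k vs : ℤ) - N : ℤ) : ℝ) / N : ℝ) : ℂ) =
      ((2 * π * ((k vs : ℝ) - N) / N : ℝ) : ℂ) := by
    push_cast
    rfl
  have hfac : ∀ r : Fin n, ((vN N ^ (((k (va r) : ℤ) - k (va (r + 1))) * k (vb r)) *
    ((((√(N : ℝ) : ℝ) : ℂ) / (Sd N (k (va r) - k (vb r)) : ℂ)) *
    (((√(N : ℝ) : ℝ) : ℂ) / (Sd N (k (va (r + 1)) - k (vb r)) : ℂ)))) *
    (((((√(N : ℝ) : ℝ) : ℂ) / (Sd N (k (va (r + 1)) + N - k vs) : ℂ))⁻¹ *
      (((√(N : ℝ) : ℝ) : ℂ) / (Sd N (k (va (r + 1)) + k vs - N) : ℂ))⁻¹) *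
    ((((√(N : ℝ) : ℝ) : ℂ) / (Sd N (k (vb r) + N - k vs) : ℂ)) *
      (((√(N : ℝ) : ℝ) : ℂ) / (Sd N (k (vb r) + k vs - N) : ℂ))))) =
      (N : ℂ) * ((vN N ^ (((k (va r) : ℤ) - k (va (r + 1))) * k (vb r)) /
        ((Sd N (k (va r) - k (vb r)) : ℂ) * (Sd N (k (va (r + 1)) - k (vb r)) : ℂ))) *
        Pq N (k (vb r)) (k (va (r + 1))) ((2 * π * (((k vs : ℤ) - N : ℤ) : ℝ) / N : ℝ) : ℂ)) := by
    intro r
    have a1 := ha r
    have a2 := ha (r + 1)
    have b1 := hb r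
    have n1 := hne (k (va r) - k (vb r)) (by omega)
    have n2 := hne (k (va (r + 1)) - k (vb r)) (by omega)
    have n3 := hne (k (va (r + 1)) + N - k vs) (by omega)
    have n4 := hne (k (va (r + 1)) + k vs - N) (by omega)
    have n5 := hne (k (vb r) + N - k vs) (by omega)
    have n6 := hne (k (vb r) + k vs - N) (by omega)
    have hP := Pq_sd (N := N) (j := k (vb r)) (s := k vs) hN (by omega) (by omega)
      (i := k (va (r + 1))) (by omega)
    rw [hchi]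
    have hP2 : Pq N (k (vb r)) (k (va (r + 1))) ((2 * π * ((k vs : ℝ) - N) / N : ℝ) : ℂ) =
        (Sd N (k (va (r + 1)) + N - k vs) : ℂ) * (Sd N (k (va (r + 1)) + k vs - N) : ℂ) /
        ((Sd N (k (vb r) + N - k vs) : ℂ) * (Sd N (k (vb r) + k vs - N) : ℂ)) := by
      rw [eq_div_iff (mul_ne_zero n5 n6)]
      exact hP
    rw [hP2, ← hss]
    field_simp
  unfold TX
  rw [Finset.prod_congr rfl fun r _ => hfac r, Finset.prod_mul_distrib, Finset.prod_mul_distrib,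
    Finset.prod_const, Finset.card_univ, Fintype.card_fin]
  have hE : Complex.exp (2 * π * Complex.I * m * ((k vs : ℂ) - N) ^ 2 / N) =
      Ea (2 * m) N ((2 * π * (((k vs : ℤ) - N : ℤ) : ℝ) / N : ℝ) : ℂ) := by
    have hpi : (π : ℂ) ≠ 0 := by exact_mod_cast Real.pi_pos.ne'
    unfold Ea
    congr 1
    push_cast
    field_simp
    ring
  rw [hE]
  unfold st co Pool.Agent.Y472.K.Qc cof
  ring

omit [NeZero n] in
lemma rp_spec {N p : ℕ} (hp : p < N) : -(N : ℤ) ≤ 2 * rp N p ∧ 2 * rp N p ≤ N := by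
  unfold rp
  split_ifs <;> omega

/-- near pairs -/
def Nr (N : ℕ) (ρ : ℝ) (pc : ℕ × ((Fin n → ℕ) × (Fin n → ℕ))) : Prop :=
  |(rp N pc.1 : ℝ) / N| ≤ ρ ∧
    ∀ r, |(pc.2.1 r : ℝ) / N - 2 / 3| ≤ ρ ∧ |(pc.2.2 r : ℝ) / N - 1 / 3| ≤ ρ

open Classical in
/-- the near part -/
noncomputable def nearS (n N : ℕ) [NeZero n] (m : ℤ) (ρ : ℝ) : ℂ :=
  ∑ pc ∈ ((range N) ×ˢ (cfg n N)).filter (fun pc => Nr N ρ pc), st n N m (rp N pc.1) pc.2

theorem near_eq (m : ℤ) {ρ : ℝ} (hρ1 : ρ ≤ 1 / 12) {N : ℕ} (hN : 1 ≤ N) :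
    ∑ k ∈ nrs (wc n) ρ N, st n N m ((k vs : ℤ) - N) (cof k) = nearS n N m ρ := by
  classical
  have hNr : (0 : ℝ) < N := by exact_mod_cast hN
  unfold nearS
  refine sum_bij' (fun k _ => (if N ≤ k vs then k vs - N else k vs, cof k))
    (fun pc _ => Sum.elim (Sum.elim pc.2.1 pc.2.2) fun _ => (rp N pc.1 + N).toNat) ?_ ?_ ?_ ?_ ?_
  · intro k hk
    rw [mem_nrs hN] at hk
    obtain ⟨ha, hb, hs1, hs2⟩ := bounds hN fun i => (hk i).trans hρ1
    rw [mem_filter, mem_product, mem_range, mem_cfg]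
    refine ⟨⟨?_, ⟨fun r => ?_, fun r => ?_, fun r => ?_⟩⟩, ?_, fun r => ⟨?_, ?_⟩⟩
    · split_ifs <;> omega
    · have := ha r
      show k (va r) < N
      omega
    · have := ha r
      have := hb r
      show k (vb r) ≤ k (va r)
      omega
    · have := ha (r + 1)
      have := hb r
      show k (vb r) ≤ k (va (r + 1))
      omega
    · have h1 := hk vs
      rw [wc_s] at h1
      have e : ((rp N (if N ≤ k vs then k vs - N else k vs) : ℤ) : ℝ) / N = (k vs : ℝ) / N - 1 := by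
        have h2 : rp N (if N ≤ k vs then k vs - N else k vs) = (k vs : ℤ) - N := by
          unfold rp
          split_ifs <;> omega
        rw [h2]
        push_cast
        field_simp
      show |((rp N (if N ≤ k vs then k vs - N else k vs) : ℤ) : ℝ) / N| ≤ ρ
      rw [e]
      exact h1
    · exact hk (va r)
    · exact hk (vb r)
  · intro pc hpc
    rw [mem_filter, mem_product, mem_range] at hpc
    obtain ⟨⟨h1, h2⟩, h3, h4⟩ := hpc
    rw [mem_nrs hN]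
    rintro ((r | r) | u)
    · exact (h4 r).1
    · exact (h4 r).2
    · show |(((rp N pc.1 + N).toNat : ℕ) : ℝ) / N - 1| ≤ ρ
      have h5 := rp_spec h1
      have h6 : (((rp N pc.1 + N).toNat : ℕ) : ℤ) = rp N pc.1 + N := Int.toNat_of_nonneg (by omega)
      have h7 : (((rp N pc.1 + N).toNat : ℕ) : ℝ) = (rp N pc.1 : ℝ) + N := by exact_mod_cast h6
      rw [h7]
      have e : ((rp N pc.1 : ℝ) + N) / N - 1 = (rp N pc.1 : ℝ) / N := by field_simp; ring
      rw [e]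
      exact h3
  · intro k hk
    rw [mem_nrs hN] at hk
    obtain ⟨ha, hb, hs1, hs2⟩ := bounds hN fun i => (hk i).trans hρ1
    have h2 : rp N (if N ≤ k vs then k vs - N else k vs) = (k vs : ℤ) - N := by
      unfold rp
      split_ifs <;> omega
    funext i
    rcases i with (r | r) | u
    · rfl
    · rfl
    · show (rp N (if N ≤ k vs then k vs - N else k vs) + N).toNat = k vs
      rw [h2]
      omega
  · intro pc hpc
    rw [mem_filter, mem_product, mem_range] at hpc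
    obtain ⟨⟨h1, h2⟩, h3, h4⟩ := hpc
    have h5 := rp_spec h1
    have h6 : |rp N pc.1| * 12 ≤ N := by
      have h7 : |(rp N pc.1 : ℝ)| / N ≤ 1 / 12 := by
        rw [abs_div, abs_of_pos hNr] at h3
        linarith
      rw [div_le_iff₀ hNr] at h7
      have h8 : |(rp N pc.1 : ℝ)| * 12 ≤ N := by linarith
      exact_mod_cast h8
    have h9 := abs_le.1 (le_refl |rp N pc.1|)
    refine Prod.ext ?_ rfl
    show (if N ≤ (rp N pc.1 + N).toNat then (rp N pc.1 + N).toNat - N else (rp N pc.1 + N).toNat) = pc.1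
    unfold rp at h6 h9 ⊢
    split_ifs at h6 h9 ⊢ <;> omega
  · intro k hk
    rw [mem_nrs hN] at hk
    obtain ⟨ha, hb, hs1, hs2⟩ := bounds hN fun i => (hk i).trans hρ1
    have h2 : rp N (if N ≤ k vs then k vs - N else k vs) = (k vs : ℤ) - N := by
      unfold rp
      split_ifs <;> omega
    show st n N m ((k vs : ℤ) - N) (cof k) =
      st n N m (rp N (if N ≤ k vs then k vs - N else k vs)) (cof k)
    rw [h2]

/-- the near part as a sum of integrals -/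
theorem near_int (m : ℤ) {ρ : ℝ} (hρ1 : ρ ≤ 1 / 12) (ρ' : ℝ) {N : ℕ} (hN : 1 ≤ N) :
    ∑ k ∈ nrs (wc n) ρ N, ∫ x in (-ρ')..ρ', TX n m N k x = (N : ℂ) ^ n * nearS n N m ρ *
      ∫ x in (-ρ')..ρ', Complex.exp (-(N * (x : ℂ) ^ 2)) := by
  rw [← near_eq m hρ1 hN, mul_sum, sum_mul]
  refine sum_congr rfl fun k hk => ?_
  rw [mem_nrs hN] at hk
  rw [← intervalIntegral.integral_const_mul]
  refine intervalIntegral.integral_congr fun x _ => ?_
  exact TX_eq hN m (fun i => (hk i).trans hρ1) x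

/-- the rest -/
theorem far_SS (m : ℤ) {ρ : ℝ} (hρ : 0 < ρ) : ∃ κ : ℝ, 0 < κ ∧ ∀ᶠ N : ℕ in atTop,
    ‖SS n N m - nearS n N m ρ‖ ≤ Real.exp (N * (G0 n - κ)) := by
  classical
  obtain ⟨κ, τ, hκ, hτ, h⟩ := far_bd n hρ
  refine ⟨κ / 2, half_pos hκ, ?_⟩
  have hpi := Real.pi_gt_three
  filter_upwards [h, pow_absorb (n + 1) (half_pos hκ), eventually_ge_atTop 1] with N h1 h2 h3
  have hNr : (0 : ℝ) < N := by exact_mod_cast h3
  have hN1 : (1 : ℝ) ≤ N := by exact_mod_cast h3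
  have e1 : SS n N m = ∑ pc ∈ (range N) ×ˢ (cfg n N), st n N m (rp N pc.1) pc.2 := by
    unfold SS
    rw [Finset.sum_product]
  have e2 : SS n N m - nearS n N m ρ = ∑ pc ∈ ((range N) ×ˢ (cfg n N)).filter
      (fun pc => ¬ Nr N ρ pc), st n N m (rp N pc.1) pc.2 := by
    rw [e1, ← sum_filter_add_sum_filter_not ((range N) ×ˢ (cfg n N)) (fun pc => Nr N ρ pc)]
    unfold nearS
    ring
  rw [e2]
  have hb : ∀ pc ∈ ((range N) ×ˢ (cfg n N)).filter (fun pc => ¬ Nr N ρ pc),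
      ‖st n N m (rp N pc.1) pc.2‖ ≤ Real.exp (N * (6 * n * lob (π / 3) / π - κ)) := by
    intro pc hpc
    rw [mem_filter, mem_product, mem_range, mem_cfg] at hpc
    obtain ⟨⟨h4, h5⟩, h6⟩ := hpc
    unfold st
    rw [norm_mul, norm_Ea, one_mul]
    have h7 := rp_spec h4
    have h8 : |(rp N pc.1 : ℝ)| * 2 ≤ N := by
      have h9 : |rp N pc.1| * 2 ≤ N := by
        rcases abs_cases (rp N pc.1) with h | h <;> omega
      exact_mod_cast h9
    have e3 : |(2 * π * (rp N pc.1 : ℝ) / N)| = 2 * π * (|(rp N pc.1 : ℝ) / N|) := by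
      rw [mul_div_assoc, abs_mul, abs_of_pos (by positivity : 0 < 2 * π)]
    refine h1 pc.2.1 pc.2.2 h5 _ ?_ ?_ ?_
    · rw [Complex.ofReal_re, e3, abs_div, abs_of_pos hNr]
      have : |(rp N pc.1 : ℝ)| / N ≤ 1 / 2 := by
        rw [div_le_iff₀ hNr]
        linarith
      nlinarith
    · rw [Complex.ofReal_im, abs_zero]
      exact hτ.le
    · rw [Complex.ofReal_re, e3]
      by_contra hcon
      push Not at hcon
      obtain ⟨h9, h10⟩ := hcon
      apply h6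
      refine ⟨?_, fun r => ⟨(h10 r).1.le, (h10 r).2.le⟩⟩
      have h11 : 0 ≤ |(rp N pc.1 : ℝ) / N| := abs_nonneg _
      nlinarith
  have hcard : ((((range N) ×ˢ (cfg n N)).filter (fun pc => ¬ Nr N ρ pc)).card : ℝ) ≤
      (N : ℝ) * (N : ℝ) ^ (2 * n) := by
    have h4 := card_filter_le ((range N) ×ˢ (cfg n N)) (fun pc => ¬ Nr N ρ pc)
    rw [card_product, card_range] at h4
    have h5 : ((((range N) ×ˢ (cfg n N)).filter (fun pc => ¬ Nr N ρ pc)).card : ℝ) ≤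
        N * (cfg n N).card := by exact_mod_cast h4
    exact h5.trans (mul_le_mul_of_nonneg_left (card_cfg n N) hNr.le)
  have h4 : (N : ℝ) * (N : ℝ) ^ (2 * n) ≤ Real.exp (N * (κ / 2)) := by
    have e4 : (N : ℝ) ^ (2 * (n + 1)) = N * (N * (N : ℝ) ^ (2 * n)) := by ring
    have h5 : (N : ℝ) * (N : ℝ) ^ (2 * n) ≤ (N : ℝ) ^ (2 * (n + 1)) := by
      rw [e4]
      exact le_mul_of_one_le_left (by positivity) hN1
    have h6 : 0 ≤ (N : ℝ) ^ (2 * (n + 1)) := by positivity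
    linarith
  calc _ ≤ ∑ pc ∈ ((range N) ×ˢ (cfg n N)).filter (fun pc => ¬ Nr N ρ pc),
        Real.exp (N * (6 * n * lob (π / 3) / π - κ)) := norm_sum_le_of_le _ hb
    _ = ((((range N) ×ˢ (cfg n N)).filter (fun pc => ¬ Nr N ρ pc)).card : ℝ) *
        Real.exp (N * (6 * n * lob (π / 3) / π - κ)) := by rw [sum_const, nsmul_eq_mul]
    _ ≤ Real.exp (N * (κ / 2)) * Real.exp (N * (6 * n * lob (π / 3) / π - κ)) := by
        refine mul_le_mul_of_nonneg_right (hcard.trans h4) (Real.exp_pos _).le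
    _ = _ := by
        rw [← Real.exp_add]
        congr 1
        unfold G0
        ring

end Run7.h116.VY
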